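import Mathlib
import Pool.Agent.N551.ZD.Main

/-!
# Project ZE: Zariski density of the basin for all pairs, except the ratios 1 and 5

`p < q` odd and coprime, `N = p + q = 2 n + 2`, `n ≥ 3`, `ρ = n / (n - 1)`. `w t` is the
arithmetic mean of `w (t-p)`, `w (t-q)` for even `t` and the harmonic mean for odd `t`.
Idea: multiply the initial values at the places `t ≡ 1, 1 + p, 1 + q (mod N)` by `h = (2 ρ)^s`.
Then the limit is of the order `ρ^s`, and `2`, `ρ` are multiplicatively independent.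
-/

open Filter Topology Set
open Pool.Agent.N420.BS (basin sol)

namespace Pool.Agent.N551.ZE

noncomputable section

/-- The pair. -/
structure Pq (p q n : ℕ) : Prop where
  hp : p % 2 = 1
  hq : q % 2 = 1
  lt : p < q
  cop : Nat.Coprime p q
  sum : p + q = 2 * n + 2
  n3 : 3 ≤ n

/-- Means in turn. -/
def Rec (p q : ℕ) (w : ℕ → ℝ) : Prop := (∀ t, 0 < w t) ∧ ∀ t, q ≤ t →
  (t % 2 = 0 → w t = (w (t - p) + w (t - q)) / 2) ∧
  (t % 2 = 1 → 1 / w t = (1 / w (t - p) + 1 / w (t - q)) / 2)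

/-- The special places. -/
def Dt (p q t : ℕ) : Prop := (t + (p + q) - 1) % (p + q) = 0 ∨ (t + (p + q) - 1) % (p + q) = p ∨
  (t + (p + q) - 1) % (p + q) = q

def rh (n : ℕ) : ℝ := n / (n - 1)

/-- Coordinates `t = 1 + p J + (p + q) m`, `0 ≤ J < p + q`. -/
structure Co (p q : ℕ) (J m : ℕ → ℤ) : Prop where
  lo : ∀ t, 0 ≤ J t
  hi : ∀ t, J t < p + q
  eq : ∀ t : ℕ, (t : ℤ) = 1 + p * J t + (p + q) * m t
  par : ∀ t, J t % 2 = 0 ↔ t % 2 = 1
  p1 : ∀ t, p ≤ t → 1 ≤ J t → J (t - p) = J t - 1 ∧ m (t - p) = m t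
  p0 : ∀ t, p ≤ t → J t = 0 → J (t - p) = p + q - 1 ∧ m (t - p) = m t - p
  q1 : ∀ t, q ≤ t → J t ≤ p + q - 2 → J (t - q) = J t + 1 ∧ m (t - q) = m t - 1
  q0 : ∀ t, q ≤ t → J t = p + q - 1 → J (t - q) = 0 ∧ m (t - q) = m t - 1 + p
  dt : ∀ t, Dt p q t ↔ J t = 0 ∨ J t = 1 ∨ J t = p + q - 1

/-- COORD. -/
def S_COORD : Prop := ∀ p q n, Pq p q n → ∃ J m, Co p q J m

/-- The amplitudes on `2 ≤ j ≤ 2 n = N - 2`. -/
structure Amp (n : ℕ) (a : ℤ → ℝ) : Prop where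
  pos : ∀ j, 2 ≤ j → j ≤ 2 * n → 0 < a j
  left : a 2 = 2 * a 3
  right : a (2 * n) = 2 * a (2 * n - 1)
  har : ∀ j, 4 ≤ j → j ≤ 2 * n - 2 → j % 2 = 0 → 1 / a j = (1 / a (j - 1) + 1 / a (j + 1)) / 2
  ari : ∀ j, 3 ≤ j → j ≤ 2 * n - 1 → j % 2 = 1 → rh n * a j = (a (j - 1) + a (j + 1)) / 2

/-- AMP: `a (2 i) = 2 / choose (n-1) (i-1)`, `a (2 i + 1) = 1 / choose (n-2) (i-1)`: Pascal, and
`1 / choose m k + 1 / choose m (k+1) = (m+1) / m / choose (m-1) k`. -/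
def S_AMP : Prop := ∀ n : ℕ, 3 ≤ n → ∃ a, Amp n a

/-- UP: upper bound. Put `L = m + (J - 1) / 2` (floor) and `u t = K ρ^L a_J` for `2 ≤ J ≤ N - 2`,
and `u t = H 2^(-m) + K' ρ^m`, `H 2^(-m-1) + K' ρ^m`, `H 2^(-m-p) + K' ρ^(m+p)` for `J = 0`, `1`,
`N - 1` (`zpow`), `K' ≥ 2 K ρ^n` (and `≥ 2 K`). The mean of `u (t-p)`, `u (t-q)` is `≤ u t`: equality
for `3 ≤ J ≤ N - 3` by `Amp`; for `J = 2` and `J = N - 2` by `harmonic mean (D, x) ≤ 2 x`; for `J = 1`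
and `J = N - 1` directly; for `J = 0` harmonic mean `≤` arithmetic mean. `w ≤ u` for `t < q` with
`K` large (not depending on `s`) and `H = C₁ (2 ρ)^s`. So for all `t`; for the `t` of a window
(`q` consecutive `t`) at `t` about `N s` all of `u t` is `≤ C ρ^s` (`m t`, `L t` are `s + O(1)`), and
`M ≤` the maximum of a window. -/
def S_UP : Prop := ∀ p q n, Pq p q n → ∀ (J m : ℕ → ℤ) (a : ℤ → ℝ), Co p q J m → Amp n a →
  ∀ v : ℕ → ℝ, (∀ t, 0 < v t) → ∃ C : ℝ, 0 < C ∧ ∀ (s : ℕ) (w : ℕ → ℝ) (M : ℝ), Rec p q w →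
  (∀ t, t < q → (Dt p q t → w t = v t * (2 * rh n) ^ s) ∧ (¬ Dt p q t → w t = v t)) →
  Tendsto w atTop (𝓝 M) → M ≤ C * rh n ^ s

/-- LOW: lower bound. With `L` as in UP put `l t = k ρ^L a_J (1 - Σ_{r ≤ t} η r)` for
`2 ≤ J ≤ N - 2`, `η t = A k (2 ρ)^(m t) / H` (`A` a constant depending on `n`, `a`, `p`), and
`H 2^(-m)`, `H 2^(-m-1)`, `H 2^(-m-p)` for `J = 0, 1, N - 1`. For `J = 2`, `N - 2` use
`harmonic mean (D, x) = 2 x / (1 + x / D) ≥ 2 x (1 - x / D)` and `x / D ≤ η t`. `H = c₁ (2 ρ)^s`, `k`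
small such that `w ≥ l` for `t < q` and `Σ_{r ≤ t} η r ≤ 1/2` for all `t ≤ N s + q + N`. Then the window
at `t` about `N s` is `≥ c ρ^s`, and `M ≥` the minimum of a window. -/
def S_LOW : Prop := ∀ p q n, Pq p q n → ∀ (J m : ℕ → ℤ) (a : ℤ → ℝ), Co p q J m → Amp n a →
  ∀ v : ℕ → ℝ, (∀ t, 0 < v t) → ∃ c : ℝ, 0 < c ∧ ∀ (s : ℕ) (w : ℕ → ℝ) (M : ℝ), Rec p q w →
  (∀ t, t < q → (Dt p q t → w t = v t * (2 * rh n) ^ s) ∧ (¬ Dt p q t → w t = v t)) →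
  Tendsto w atTop (𝓝 M) → c * rh n ^ s ≤ M

/-- WIN (used in UP and LOW by their authors if wanted): the limit lies between the minimum and the
maximum of a window. -/
def S_WIN : Prop := ∀ (p q : ℕ) (w : ℕ → ℝ) (M A B : ℝ) (t₀ : ℕ), 0 < p → p < q → Rec p q w →
  Tendsto w atTop (𝓝 M) → 0 < A → q ≤ t₀ → (∀ t, t₀ - q ≤ t → t < t₀ → A ≤ w t ∧ w t ≤ B) →
  A ≤ M ∧ M ≤ B

/-- DOM: the term with the largest base `2^α ρ^(α+β)` dominates; different `(α, β)` have different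
bases because `n ≥ 3` and `n - 1` are coprime and not both powers of `2`. -/
def S_DOM : Prop := ∀ n : ℕ, 3 ≤ n → ∀ (F : Finset (ℤ × ℤ)) (c : ℤ × ℤ → ℝ) (Y : ℕ → ℝ) (A B : ℝ),
  0 < A → (∀ s, A * rh n ^ s ≤ Y s ∧ Y s ≤ B * rh n ^ s) →
  (∀ s, ∑ x ∈ F, c x * ((2 * rh n) ^ s) ^ x.1 * Y s ^ x.2 = 0) → ∀ x ∈ F, c x = 0

/-- The point of the basin with the data `v` (`w`-coordinates), factor `h` at `D`, limit `Y`. -/
def pt (q : ℕ) (D : ℕ → Prop) (v : ℕ → ℝ) (h Y : ℝ) : Fin q → ℝ := by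
  classical
  exact fun i => if (i : ℕ) % 2 = 0 then Real.sqrt 2 * (v i * if D i then h else 1) / Y
    else Real.sqrt 2 * Y / (v i * if D i then h else 1)

/-- LAUR: expand `P` into monomials; the coefficient of `h^α Y^β` is a Laurent polynomial in `v`,
different monomials of `P` give different monomials in `v`, so for some `(α, β)` and some positive
`v` it is not zero. -/
def S_LAUR : Prop := ∀ (q : ℕ) (D : ℕ → Prop) (P : MvPolynomial (Fin q) ℝ), P ≠ 0 →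
  ∃ v : ℕ → ℝ, (∀ t, 0 < v t) ∧ ∃ (F : Finset (ℤ × ℤ)) (c : ℤ × ℤ → ℝ), (∃ x ∈ F, c x ≠ 0) ∧
    ∀ h Y : ℝ, 0 < h → 0 < Y →
      MvPolynomial.eval (pt q D v h Y) P = ∑ x ∈ F, c x * h ^ x.1 * Y ^ x.2

/-- MEM: for positive initial data `v` there is a sequence `w` with `Rec p q w`, `w t = v t` for
`t < q`, a positive limit `M`, and `v / M` in `x`-coordinates is in the basin of `(p-1, q-1)`
(`Pool.Agent.N420.BS`: `osc_tendsto` for the limit; `x t = √2 w t / M` for even `t`,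
`√2 M / w t` for odd `t`). `e` is the identification of the index sets. -/
def S_MEM : Prop := ∀ p q n, Pq p q n → ∀ v : ℕ → ℝ, (∀ t, 0 < v t) →
  ∃ (w : ℕ → ℝ) (M : ℝ), Rec p q w ∧ (∀ t, t < q → w t = v t) ∧ 0 < M ∧
    Tendsto w atTop (𝓝 M) ∧ ∃ x ∈ basin (p - 1) (q - 1), ∀ i : Fin (max (p - 1) (q - 1) + 1),
      x i = if (i : ℕ) % 2 = 0 then Real.sqrt 2 * v i / M else Real.sqrt 2 * M / v i

/-- PRODG: if the basin of `(p-1, q-1)` is Zariski dense then so is that of `(g p - 1, g q - 1)`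
(as `multiples` in `Pool.Agent.N551.ZD.Prod`, with `dense_pow` from there; the index `r + g j`). -/
def S_PRODG : Prop := ∀ (p q : ℕ), 0 < p → p < q →
  (∀ P : MvPolynomial (Fin (max (p - 1) (q - 1) + 1)) ℝ,
    (∀ v ∈ basin (p - 1) (q - 1), MvPolynomial.eval v P = 0) → P = 0) →
  ∀ (g k l : ℕ), 0 < g → k + 1 = g * p → l + 1 = g * q →
  ∀ P : MvPolynomial (Fin (max k l + 1)) ℝ,
    (∀ v ∈ basin k l, MvPolynomial.eval v P = 0) → P = 0

/-- SEMI: the basin is not semialgebraic if it is Zariski dense and the valuations are equal (as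
`not_semi` in `Pool.Agent.N551.ZD.Semi`, where `l + 1 = 3 (k + 1)` is only used for the
valuations). -/
def S_SEMI : Prop := ∀ (k l : ℕ), padicValNat 2 (k + 1) = padicValNat 2 (l + 1) →
  (∀ P : MvPolynomial (Fin (max k l + 1)) ℝ,
    (∀ v ∈ basin k l, MvPolynomial.eval v P = 0) → P = 0) → ¬ ZD.SemiAlg (basin k l)

/-- CORE: the basin of `(p-1, q-1)` is Zariski dense: for `P ≠ 0` take `v`, `F`, `c` from LAUR for
`D = Dt p q`; `Y s` = the limit for the data `v t (2ρ)^s` (`t` in `D`), `v t` (else), from MEM; by UP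
and LOW `Y s` is of the order `ρ^s`, by MEM `eval (pt ...) P = 0`; contradiction with DOM. -/
def S_CORE : Prop := S_COORD → S_AMP → S_UP → S_LOW → S_DOM → S_LAUR → S_MEM →
  ∀ p q n, Pq p q n → ∀ P : MvPolynomial (Fin (max (p - 1) (q - 1) + 1)) ℝ,
    (∀ v ∈ basin (p - 1) (q - 1), MvPolynomial.eval v P = 0) → P = 0

/-- The result. -/
def S_RES : Prop := ∀ k l : ℕ, k < l → padicValNat 2 (k + 1) = padicValNat 2 (l + 1) →
  l + 1 ≠ 5 * (k + 1) →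
  (∀ P : MvPolynomial (Fin (max k l + 1)) ℝ,
    (∀ v ∈ basin k l, MvPolynomial.eval v P = 0) → P = 0) ∧ ¬ ZD.SemiAlg (basin k l)

/-- FIN: `k + 1 = g p`, `l + 1 = g q`, `p < q` odd and coprime (`Pool.Agent.N551.RB.val_iff` or
`Pool.Agent.N420.BS.gcd_data`); `(p, q) = (1, 3)` is `Pool.Agent.N551.ZD.multiples zdense`,
`(1, 5)` is excluded, else `p + q ≥ 8`. -/
def S_FIN : Prop := (∀ p q n, Pq p q n →
    ∀ P : MvPolynomial (Fin (max (p - 1) (q - 1) + 1)) ℝ,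
    (∀ v ∈ basin (p - 1) (q - 1), MvPolynomial.eval v P = 0) → P = 0) →
  S_PRODG → S_SEMI → S_RES

theorem final (h1 : S_COORD) (h2 : S_AMP) (h3 : S_UP) (h4 : S_LOW) (h5 : S_DOM) (h6 : S_LAUR)
    (h7 : S_MEM) (h8 : S_PRODG) (h9 : S_SEMI) (h10 : S_CORE) (h11 : S_FIN) : S_RES :=
  h11 (h10 h1 h2 h3 h4 h5 h6 h7) h8 h9

end

end Pool.Agent.N551.ZE
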