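import Mathlib
import Pool.Agent.N551.ZE.Stm

set_option autoImplicit false

namespace Pool.Agent.N551.ZE

namespace AMP_

noncomputable def a (m : ℕ) (j : ℤ) : ℝ :=
  if j % 2 = 0 then 2 / ((m + 1).choose (j / 2 - 1).toNat : ℝ)
  else 1 / (m.choose ((j - 1) / 2 - 1).toNat : ℝ)

theorem ev (m i : ℕ) : a m (2 * (i : ℤ) + 2) = 2 / ((m + 1).choose i : ℝ) := by
  unfold a
  have h1 : (2 * (i : ℤ) + 2) % 2 = 0 := by omega
  have h2 : ((2 * (i : ℤ) + 2) / 2 - 1).toNat = i := by omega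
  rw [if_pos h1, h2]

theorem od (m i : ℕ) : a m (2 * (i : ℤ) + 3) = 1 / (m.choose i : ℝ) := by
  unfold a
  have h1 : ¬ (2 * (i : ℤ) + 3) % 2 = 0 := by omega
  have h2 : ((2 * (i : ℤ) + 3 - 1) / 2 - 1).toNat = i := by omega
  rw [if_neg h1, h2]

theorem recip (m i : ℕ) (hi : i ≤ m) :
    1 / ((m + 1).choose i : ℝ) + 1 / ((m + 1).choose (i + 1) : ℝ) =
      (m + 2) / (m + 1) * (1 / (m.choose i : ℝ)) := by
  have h1 : (m.choose i : ℝ) * (m + 1) = (m + 1).choose i * (m + 1 - i) := by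
    have h := Nat.choose_mul_succ_eq m i
    have h' : ((m.choose i * (m + 1) : ℕ) : ℝ) = (((m + 1).choose i * (m + 1 - i) : ℕ) : ℝ) := by
      rw [h]
    rw [Nat.cast_mul, Nat.cast_mul, Nat.cast_sub (by omega)] at h'
    push_cast at h'
    exact h'
  have h2 : ((m : ℝ) + 1) * m.choose i = (m + 1).choose (i + 1) * (i + 1) := by
    have h := Nat.add_one_mul_choose_eq m i
    exact_mod_cast h
  have p0 : (0 : ℝ) < m.choose i := by exact_mod_cast Nat.choose_pos hi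
  have p1 : (0 : ℝ) < (m + 1).choose i := by exact_mod_cast Nat.choose_pos (by omega)
  have p2 : (0 : ℝ) < (m + 1).choose (i + 1) := by exact_mod_cast Nat.choose_pos (by omega)
  have pm : (0 : ℝ) < (m : ℝ) + 1 := by positivity
  have e1 : 1 / ((m + 1).choose i : ℝ) = (m + 1 - i) / ((m + 1) * m.choose i) := by
    rw [div_eq_div_iff p1.ne' (by positivity)]
    linarith
  have e2 : 1 / ((m + 1).choose (i + 1) : ℝ) = (i + 1) / ((m + 1) * m.choose i) := by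
    rw [div_eq_div_iff p2.ne' (by positivity)]
    linarith
  rw [e1, e2]
  field_simp
  ring

end AMP_

open AMP_ in
theorem t_AMP : S_AMP := by
  intro n hn
  obtain ⟨m, rfl⟩ : ∃ m, n = m + 2 := ⟨n - 2, by omega⟩
  refine ⟨a m, ?_, ?_, ?_, ?_, ?_⟩
  · intro j h1 h2
    rcases Nat.even_or_odd' j with ⟨k, hk | hk⟩
    · obtain ⟨i, hi⟩ : ∃ i : ℕ, j = 2 * i + 2 := ⟨k - 1, by omega⟩
      subst hi
      have e : ((2 * i + 2 : ℕ) : ℤ) = 2 * (i : ℤ) + 2 := by push_cast; ring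
      rw [e, ev]
      have : (0 : ℝ) < (m + 1).choose i := by exact_mod_cast Nat.choose_pos (by omega)
      positivity
    · obtain ⟨i, hi⟩ : ∃ i : ℕ, j = 2 * i + 3 := ⟨k - 1, by omega⟩
      subst hi
      have e : ((2 * i + 3 : ℕ) : ℤ) = 2 * (i : ℤ) + 3 := by push_cast; ring
      rw [e, od]
      have : (0 : ℝ) < m.choose i := by exact_mod_cast Nat.choose_pos (by omega)
      positivity
  · have h1 := ev m 0
    have h2 := od m 0
    norm_num at h1 h2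
    rw [h1, h2]
    norm_num
  · have h1 := ev m (m + 1)
    have h2 := od m m
    have e1 : 2 * ((m + 2 : ℕ) : ℤ) = 2 * ((m + 1 : ℕ) : ℤ) + 2 := by push_cast; ring
    have e2 : 2 * ((m + 2 : ℕ) : ℤ) - 1 = 2 * (m : ℤ) + 3 := by push_cast; ring
    rw [e2, h2, e1, h1]
    simp
  · intro j h1 h2 h3
    obtain ⟨i, hi⟩ : ∃ i : ℕ, j = 2 * (i + 1) + 2 := ⟨(j - 4) / 2, by omega⟩
    have e0 : (j : ℤ) = 2 * ((i + 1 : ℕ) : ℤ) + 2 := by rw [hi]; push_cast; ring
    have e1 : (j : ℤ) - 1 = 2 * (i : ℤ) + 3 := by rw [hi]; push_cast; ring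
    have e2 : (j : ℤ) + 1 = 2 * ((i + 1 : ℕ) : ℤ) + 3 := by rw [hi]; push_cast; ring
    rw [e1, e2, e0, ev, od, od, one_div_one_div, one_div_one_div, one_div_div]
    rw [Nat.choose_succ_succ]
    push_cast
    ring
  · intro j h1 h2 h3
    obtain ⟨i, hi⟩ : ∃ i : ℕ, j = 2 * i + 3 := ⟨(j - 3) / 2, by omega⟩
    have e0 : (j : ℤ) = 2 * (i : ℤ) + 3 := by rw [hi]; push_cast; ring
    have e1 : (j : ℤ) - 1 = 2 * (i : ℤ) + 2 := by rw [hi]; push_cast; ring
    have e2 : (j : ℤ) + 1 = 2 * ((i + 1 : ℕ) : ℤ) + 2 := by rw [hi]; push_cast; ring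
    have h := recip m i (by omega)
    rw [e1, e2, e0, ev, ev, od]
    unfold rh
    have e3 : ((m + 2 : ℕ) : ℝ) - 1 = (m : ℝ) + 1 := by push_cast; ring
    have e4 : ((m + 2 : ℕ) : ℝ) = (m : ℝ) + 2 := by push_cast; ring
    rw [e3, e4, ← h]
    ring

end Pool.Agent.N551.ZE
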