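import Mathlib
import Pool.Agent.N551.ZE.Stm

/-!
COORD: the coordinates `t = 1 + p J + (p + q) m`. By helper380.
-/

set_option autoImplicit false

namespace Pool.Agent.N551.ZE

namespace COORD_

/-- uniqueness of the coordinates -/
theorem uniq {p N j j' k k' : ℤ} (hc : IsCoprime N p) (hN : 0 < N) (h0 : 0 ≤ j) (h1 : j < N)
    (h0' : 0 ≤ j') (h1' : j' < N) (h : p * j + N * k = p * j' + N * k') : j = j' ∧ k = k' := by
  have hd : N ∣ p * (j - j') := ⟨k' - k, by linear_combination h⟩
  have hd2 : N ∣ j - j' := hc.dvd_of_dvd_mul_left hd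
  obtain ⟨c, hc2⟩ := hd2
  have h3 : c = 0 := by
    by_contra hne
    rcases lt_or_gt_of_ne hne with h4 | h4
    · nlinarith
    · nlinarith
  subst h3
  have h5 : j = j' := by linarith
  refine ⟨h5, ?_⟩
  subst h5
  have h6 : N * k = N * k' := by linarith
  exact mul_left_cancel₀ hN.ne' h6

end COORD_

open COORD_ in
theorem t_COORD : S_COORD := by
  intro p q n h
  obtain ⟨hp, hq, lt, cop, sum, n3⟩ := h
  have hN : (0 : ℤ) < (p : ℤ) + q := by omega
  have hcop : IsCoprime ((p : ℤ) + q) (p : ℤ) := by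
    have h1 : IsCoprime (p : ℤ) (q : ℤ) := Nat.isCoprime_iff_coprime.2 cop
    have h2 : IsCoprime (p : ℤ) ((q : ℤ) + p) := by
      simpa using h1.add_mul_left_right 1
    rw [add_comm]
    exact h2.symm
  obtain ⟨x, y, hxy⟩ := hcop
  have hcop : IsCoprime ((p : ℤ) + q) (p : ℤ) := ⟨x, y, hxy⟩
  have hJ : ∃ J : ℕ → ℤ, ∀ t, J t = (((t : ℤ) - 1) * y) % ((p : ℤ) + q) := ⟨_, fun _ => rfl⟩
  obtain ⟨J, hJ⟩ := hJ
  have hlo : ∀ t, 0 ≤ J t := fun t => by rw [hJ]; exact Int.emod_nonneg _ hN.ne'
  have hhi : ∀ t, J t < (p : ℤ) + q := fun t => by rw [hJ]; exact Int.emod_lt_of_pos _ hN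
  have hex : ∀ t : ℕ, ∃ k : ℤ, (t : ℤ) = 1 + p * J t + ((p : ℤ) + q) * k := by
    intro t
    have e := Int.emod_add_mul_ediv (((t : ℤ) - 1) * y) ((p : ℤ) + q)
    rw [← hJ t] at e
    refine ⟨((t : ℤ) - 1) * x + p * ((((t : ℤ) - 1) * y) / ((p : ℤ) + q)), ?_⟩
    linear_combination (-((t : ℤ) - 1)) * hxy - (p : ℤ) * e
  choose m hm using hex
  have key : ∀ (t : ℕ) (j k : ℤ), 0 ≤ j → j < (p : ℤ) + q → (t : ℤ) = 1 + p * j + ((p : ℤ) + q) * k →
      J t = j ∧ m t = k := by
    intro t j k h0 h1 h2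
    exact uniq hcop hN (hlo t) (hhi t) h0 h1 (by linarith [hm t])
  refine ⟨J, m, hlo, hhi, hm, ?_, ?_, ?_, ?_, ?_, ?_⟩
  · intro t
    have h1 := hm t
    have h2 : ((p : ℤ) + q) = 2 * (n + 1) := by
      have : ((p + q : ℕ) : ℤ) = ((2 * n + 2 : ℕ) : ℤ) := by rw [sum]
      push_cast at this
      linarith
    rw [h2] at h1
    obtain ⟨a, ha⟩ : ∃ a : ℤ, (p : ℤ) = 2 * a + 1 := ⟨((p : ℤ)) / 2, by omega⟩
    have h3 : (t : ℤ) = 1 + J t + 2 * (a * J t + (n + 1) * m t) := by
      rw [h1, ha]
      ring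
    omega
  · intro t ht h1
    refine key (t - p) (J t - 1) (m t) (by linarith) (by linarith [hhi t]) ?_
    rw [Nat.cast_sub ht]
    linear_combination hm t
  · intro t ht h1
    refine key (t - p) (p + q - 1) (m t - p) (by linarith) (by linarith) ?_
    have h2 := hm t
    rw [h1] at h2
    rw [Nat.cast_sub ht]
    linear_combination h2
  · intro t ht h1
    refine key (t - q) (J t + 1) (m t - 1) (by linarith [hlo t]) (by linarith) ?_
    rw [Nat.cast_sub ht]
    linear_combination hm t
  · intro t ht h1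
    refine key (t - q) 0 (m t - 1 + p) le_rfl hN ?_
    have h2 := hm t
    rw [h1] at h2
    rw [Nat.cast_sub ht]
    linear_combination h2
  · intro t
    have hN' : 0 < p + q := by omega
    have hlt : (t + (p + q) - 1) % (p + q) < p + q := Nat.mod_lt _ hN'
    obtain ⟨r, hr⟩ : ∃ r, r = (t + (p + q) - 1) % (p + q) := ⟨_, rfl⟩
    have hdm := Nat.mod_add_div (t + (p + q) - 1) (p + q)
    obtain ⟨d, hd⟩ : ∃ d, d = (t + (p + q) - 1) / (p + q) := ⟨_, rfl⟩
    rw [← hr, ← hd] at hdm
    have h1 : ((r + (p + q) * d : ℕ) : ℤ) = (t : ℤ) + (p + q) - 1 := by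
      rw [hdm]
      push_cast [Nat.cast_sub (show 1 ≤ t + (p + q) by omega)]
      ring
    push_cast at h1
    have h2 : (t : ℤ) = 1 + r + ((p : ℤ) + q) * (d - 1) := by linear_combination (-1 : ℤ) * h1
    have hrN : (r : ℤ) < (p : ℤ) + q := by rw [hr]; exact_mod_cast hlt
    unfold Dt
    rw [← hr]
    have one : IsCoprime ((p : ℤ) + q) (1 : ℤ) := isCoprime_one_right
    constructor
    · rintro (h | h | h)
      · left
        exact (key t 0 (d - 1) le_rfl hN (by rw [h2, h]; push_cast; ring)).1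
      · right; left
        exact (key t 1 (d - 1) (by norm_num) (by omega) (by rw [h2, h]; ring)).1
      · right; right
        exact (key t (p + q - 1) (d - p) (by linarith) (by linarith)
          (by rw [h2, h]; ring)).1
    · have h3 := hm t
      rintro (h | h | h)
      · left
        rw [h] at h3
        have := (uniq (p := 1) (j := r) (j' := 0) (k := (d : ℤ) - 1) (k' := m t) one hN (by positivity) hrN le_rfl hN
          (by linarith)).1
        exact_mod_cast this
      · right; left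
        rw [h] at h3
        have := (uniq (p := 1) (j := r) (j' := p) (k := (d : ℤ) - 1) (k' := m t) one hN (by positivity) hrN
          (by positivity) (by omega) (by linarith)).1
        exact_mod_cast this
      · right; right
        rw [h] at h3
        have := (uniq (p := 1) (j := r) (j' := q) (k := (d : ℤ) - 1) (k' := m t + p - 1) one hN (by positivity) hrN
          (by positivity) (by omega) (by linear_combination h3 - h2)).1
        exact_mod_cast this

end Pool.Agent.N551.ZE
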