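import Mathlib
import Pool.Agent.N551.ZE.Stm

/-!
# Project ZE: the combination of the steps
-/

set_option autoImplicit false

open Filter Topology Set
open Pool.Agent.N420.BS (basin sol)

namespace Pool.Agent.N551.ZE

theorem CORE_.rh_pos {n : ℕ} (hn : 3 ≤ n) : 0 < rh n := by
  unfold rh
  have h1 : (3 : ℝ) ≤ n := by exact_mod_cast hn
  exact div_pos (by linarith) (by linarith)

theorem t_CORE : S_CORE := by
  classical
  intro hCO hAMP hUP hLOW hDOM hLAUR hMEM p q n hpq P hP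
  by_contra hP0
  have hlt := hpq.lt
  have hq : max (p - 1) (q - 1) + 1 = q := by
    rw [max_eq_right (by omega)]
    omega
  have hP' : MvPolynomial.rename (Fin.cast hq) P ≠ 0 := by
    intro h
    apply hP0
    exact MvPolynomial.rename_injective (Fin.cast hq) (Fin.cast_injective hq) (by rw [h, map_zero])
  obtain ⟨v, hv, F, c, ⟨x₀, hx₀F, hx₀⟩, hev⟩ := hLAUR q (Dt p q) _ hP'
  obtain ⟨J, m, hco⟩ := hCO p q n hpq
  obtain ⟨a, ha⟩ := hAMP n hpq.n3
  obtain ⟨C, hC, hup⟩ := hUP p q n hpq J m a hco ha v hv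
  obtain ⟨c', hc', hlow⟩ := hLOW p q n hpq J m a hco ha v hv
  have hr : 0 < rh n := CORE_.rh_pos hpq.n3
  have key : ∀ s : ℕ, ∃ M : ℝ, (c' * rh n ^ s ≤ M ∧ M ≤ C * rh n ^ s) ∧
      ∑ x ∈ F, c x * ((2 * rh n) ^ s) ^ x.1 * M ^ x.2 = 0 := by
    intro s
    have hh : 0 < (2 * rh n) ^ s := by positivity
    have hv' : ∀ t, 0 < v t * (if Dt p q t then (2 * rh n) ^ s else 1) := by
      intro t
      refine mul_pos (hv t) ?_
      split_ifs
      · exact hh
      · exact one_pos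
    obtain ⟨w, M, hrec, hw, hM, hT, x, hx, hxi⟩ := hMEM p q n hpq
      (fun t => v t * (if Dt p q t then (2 * rh n) ^ s else 1)) hv'
    have hcond : ∀ t, t < q → (Dt p q t → w t = v t * (2 * rh n) ^ s) ∧
        (¬ Dt p q t → w t = v t) := by
      intro t ht
      have h1 := hw t ht
      refine ⟨fun h2 => ?_, fun h2 => ?_⟩
      · rw [h1, if_pos h2]
      · rw [h1, if_neg h2, mul_one]
    refine ⟨M, ⟨hlow s w M hrec hcond hT, hup s w M hrec hcond hT⟩, ?_⟩
    rw [← hev _ M hh hM, MvPolynomial.eval_rename]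
    have hxe : (pt q (Dt p q) v ((2 * rh n) ^ s) M) ∘ Fin.cast hq = x := by
      funext i
      rw [hxi i]
      simp only [pt, Function.comp_apply, Fin.val_cast]
    rw [hxe]
    exact hP x hx
  choose Y hY1 hY2 using key
  exact hx₀ (hDOM n hpq.n3 F c Y c' C hc' hY1 hY2 x₀ hx₀F)

end Pool.Agent.N551.ZE
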