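import Mathlib
import Pool.Agent.N551.ZE.Stm

/-!
# Project ZE (helper551), part DOM (helper106): the dominant term
-/

open Filter Topology Set

namespace Pool.Agent.N551.ZE

namespace DOM_

theorem rh_gt {n : ℕ} (hn : 3 ≤ n) : 1 < rh n := by
  unfold rh
  have h : (3 : ℝ) ≤ n := by exact_mod_cast hn
  rw [one_lt_div (by linarith)]
  linarith

theorem padic_aux {p x y : ℕ} (hp : p.Prime) (h2 : p ≠ 2) (hx : p ∣ x) (hy : ¬ p ∣ y) (hx0 : x ≠ 0)
    (hy0 : y ≠ 0) {a c : ℤ} (h : (2 : ℚ) ^ a * ((x : ℚ) / y) ^ c = 1) : c = 0 := by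
  have : Fact p.Prime := ⟨hp⟩
  have hx' : (x : ℚ) ≠ 0 := by exact_mod_cast hx0
  have hy' : (y : ℚ) ≠ 0 := by exact_mod_cast hy0
  have h1 := congrArg (padicValRat p) h
  rw [padicValRat.mul (by positivity) (zpow_ne_zero _ (div_ne_zero hx' hy')), padicValRat.zpow,
    padicValRat.zpow, padicValRat.div hx' hy', padicValRat.one, padicValRat.of_nat,
    padicValRat.of_nat] at h1
  have e2 : padicValRat p (2 : ℚ) = 0 := by
    have h3 : padicValRat p ((2 : ℕ) : ℚ) = 0 := by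
      rw [padicValRat.of_nat, padicValNat.eq_zero_of_not_dvd]
      · rfl
      · intro h4
        exact h2 ((Nat.prime_dvd_prime_iff_eq hp Nat.prime_two).1 h4)
    exact_mod_cast h3
  have e3 : padicValNat p y = 0 := padicValNat.eq_zero_of_not_dvd hy
  have e4 : 1 ≤ padicValNat p x := one_le_padicValNat_of_dvd hx0 hx
  rw [e2, e3] at h1
  simp only [mul_zero, Nat.cast_zero, sub_zero, zero_add, mul_eq_zero, Nat.cast_eq_zero] at h1
  rcases h1 with h1 | h1
  · exact h1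
  · omega

theorem indep {n : ℕ} (hn : 3 ≤ n) {a c : ℤ} (h : (2 : ℝ) ^ a * rh n ^ c = 1) : a = 0 ∧ c = 0 := by
  obtain ⟨m, rfl⟩ : ∃ m, n = m + 1 := ⟨n - 1, by omega⟩
  have hm : 2 ≤ m := by omega
  have hm0 : m ≠ 0 := by omega
  have e1 : rh (m + 1) = (((m + 1 : ℕ) : ℝ)) / (m : ℝ) := by
    unfold rh
    congr 1
    push_cast
    ring
  have hq : (2 : ℚ) ^ a * ((((m + 1 : ℕ) : ℚ)) / (m : ℚ)) ^ c = 1 := by
    rw [e1] at h
    have h' : (((2 : ℚ) ^ a * ((((m + 1 : ℕ) : ℚ)) / (m : ℚ)) ^ c : ℚ) : ℝ) = ((1 : ℚ) : ℝ) := by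
      push_cast
      push_cast at h
      exact h
    exact_mod_cast h'
  have hc : c = 0 := by
    rcases Nat.even_or_odd m with he | ho
    · -- `m + 1` is odd
      have hp : (m + 1).minFac.Prime := Nat.minFac_prime (by omega)
      have hd : (m + 1).minFac ∣ m + 1 := Nat.minFac_dvd _
      refine padic_aux hp ?_ hd ?_ (by omega) hm0 hq
      · intro h2
        rw [h2] at hd
        obtain ⟨k, hk⟩ := he
        omega
      · intro h3
        have h4 := (Nat.dvd_add_right h3).1 hd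
        exact hp.one_lt.ne' (Nat.dvd_one.1 h4)
    · have hp : m.minFac.Prime := Nat.minFac_prime (by omega)
      have hd : m.minFac ∣ m := Nat.minFac_dvd _
      have hq' : (2 : ℚ) ^ a * ((m : ℚ) / ((m + 1 : ℕ) : ℚ)) ^ (-c) = 1 := by
        rw [← hq]
        congr 1
        rw [zpow_neg, ← inv_zpow, inv_div]
      have h5 := padic_aux hp ?_ hd ?_ hm0 (by omega) hq'
      · omega
      · intro h2
        rw [h2] at hd
        obtain ⟨k, hk⟩ := ho
        omega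
      · intro h3
        have h4 := (Nat.dvd_add_right hd).1 h3
        exact hp.one_lt.ne' (Nat.dvd_one.1 h4)
  refine ⟨?_, hc⟩
  rw [hc, zpow_zero, mul_one] at h
  exact (zpow_eq_one_iff_right₀ (by norm_num) (by norm_num)).1 h

theorem zpow_bd {A B y : ℝ} (hA : 0 < A) (h1 : A ≤ y) (h2 : y ≤ B) (β : ℤ) :
    min (A ^ β) (B ^ β) ≤ y ^ β ∧ y ^ β ≤ max (A ^ β) (B ^ β) := by
  have hy : 0 < y := hA.trans_le h1
  have hB : 0 < B := hy.trans_le h2
  rcases le_total 0 β with hβ | hβ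
  · exact ⟨(min_le_left _ _).trans (zpow_le_zpow_left₀ hβ hA.le h1),
      (zpow_le_zpow_left₀ hβ hy.le h2).trans (le_max_right _ _)⟩
  · obtain ⟨k, rfl⟩ : ∃ k : ℕ, β = -(k : ℤ) := ⟨(-β).toNat, by omega⟩
    rw [zpow_neg, zpow_neg, zpow_neg, zpow_natCast, zpow_natCast, zpow_natCast]
    constructor
    · refine (min_le_right _ _).trans ?_
      have : y ^ k ≤ B ^ k := pow_le_pow_left₀ hy.le h2 k
      exact inv_anti₀ (by positivity) this
    · refine le_trans ?_ (le_max_left _ _)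
      have : A ^ k ≤ y ^ k := pow_le_pow_left₀ hA.le h1 k
      exact inv_anti₀ (by positivity) this

theorem pz (u : ℝ) (s : ℕ) (α : ℤ) : (u ^ s) ^ α = (u ^ α) ^ s := by
  rw [← zpow_natCast, ← zpow_natCast, ← zpow_mul, ← zpow_mul, mul_comm]

theorem split (r R y b : ℝ) (s : ℕ) (α β : ℤ) (h1 : r ≠ 0) (hb : b = (2 * r) ^ α * r ^ β)
    (hy : y = R * r ^ s) : ((2 * r) ^ s) ^ α * y ^ β = R ^ β * b ^ s := by
  rw [hb, hy, mul_zpow, pz, pz, mul_pow]
  ring

end DOM_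

open DOM_ in
theorem t_DOM : S_DOM := by
  classical
  intro n hn F c Y A B hA hY hsum
  have hρ1 : 1 < rh n := rh_gt hn
  have hρ : 0 < rh n := by linarith
  have hB : 0 < B := by
    have h0 := hY 0
    simp only [pow_zero, mul_one] at h0
    linarith [h0.1, h0.2]
  obtain ⟨b, hb⟩ : ∃ b : ℤ × ℤ → ℝ, ∀ x, b x = (2 * rh n) ^ x.1 * rh n ^ x.2 := ⟨_, fun _ => rfl⟩
  have hbpos : ∀ x, 0 < b x := fun x => by rw [hb]; positivity
  have hinj : ∀ x y, b x = b y → x = y := by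
    intro x y hxy
    rw [hb, hb] at hxy
    have h1 : (2 : ℝ) ^ (x.1 - y.1) * rh n ^ ((x.1 - y.1) + (x.2 - y.2)) = 1 := by
      have h2 : ((2 : ℝ) ^ (x.1 - y.1) * rh n ^ ((x.1 - y.1) + (x.2 - y.2))) *
          ((2 * rh n) ^ y.1 * rh n ^ y.2) = (2 * rh n) ^ x.1 * rh n ^ x.2 := by
        rw [mul_zpow, mul_zpow]
        have e1 : (2 : ℝ) ^ x.1 = (2 : ℝ) ^ (x.1 - y.1) * (2 : ℝ) ^ y.1 := by
          rw [← zpow_add₀ (by norm_num)]
          congr 1
          ring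
        have e2 : rh n ^ x.1 * rh n ^ x.2 = rh n ^ ((x.1 - y.1) + (x.2 - y.2)) *
            (rh n ^ y.1 * rh n ^ y.2) := by
          rw [← zpow_add₀ hρ.ne', ← zpow_add₀ hρ.ne', ← zpow_add₀ hρ.ne']
          congr 1
          ring
        rw [mul_assoc ((2 : ℝ) ^ x.1), e2, e1]
        ring
      rw [hxy] at h2
      have h3 : 0 < (2 * rh n) ^ y.1 * rh n ^ y.2 := by positivity
      exact mul_right_cancel₀ h3.ne' (h2.trans (one_mul _).symm)
    obtain ⟨h2, h3⟩ := indep hn h1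
    apply Prod.ext <;> omega
  -- the size of the terms
  have hterm : ∀ (x : ℤ × ℤ) (s : ℕ), min (A ^ x.2) (B ^ x.2) * b x ^ s ≤
      ((2 * rh n) ^ s) ^ x.1 * Y s ^ x.2 ∧
      ((2 * rh n) ^ s) ^ x.1 * Y s ^ x.2 ≤ max (A ^ x.2) (B ^ x.2) * b x ^ s := by
    intro x s
    obtain ⟨h1, h2⟩ := hY s
    have hs : 0 < rh n ^ s := by positivity
    have e0 : Y s = (Y s / rh n ^ s) * rh n ^ s := by field_simp
    have e1 : ((2 * rh n) ^ s) ^ x.1 * Y s ^ x.2 = (Y s / rh n ^ s) ^ x.2 * b x ^ s :=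
      split (rh n) (Y s / rh n ^ s) (Y s) (b x) s x.1 x.2 hρ.ne' (hb x) e0
    have hy := zpow_bd hA ((le_div_iff₀ hs).2 h1) ((div_le_iff₀ hs).2 h2) x.2
    rw [e1]
    have hbs : 0 ≤ b x ^ s := (pow_pos (hbpos x) s).le
    exact ⟨mul_le_mul_of_nonneg_right hy.1 hbs, mul_le_mul_of_nonneg_right hy.2 hbs⟩
  by_contra hcon
  push Not at hcon
  obtain ⟨x1, hx1, hcx1⟩ := hcon
  obtain ⟨x, hx, hmax⟩ := Finset.exists_max_image (F.filter fun x => c x ≠ 0) b
    ⟨x1, Finset.mem_filter.2 ⟨hx1, hcx1⟩⟩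
  obtain ⟨hxF, hcx⟩ := Finset.mem_filter.1 hx
  have hm : 0 < min (A ^ x.2) (B ^ x.2) := lt_min (by positivity) (by positivity)
  have hmain : ∀ s : ℕ, |c x| * min (A ^ x.2) (B ^ x.2) ≤
      ∑ y ∈ F.erase x, |c y| * max (A ^ y.2) (B ^ y.2) * (b y / b x) ^ s := by
    intro s
    have h1 := hsum s
    rw [← Finset.add_sum_erase F _ hxF] at h1
    have h2 : c x * ((2 * rh n) ^ s) ^ x.1 * Y s ^ x.2 =
        -∑ y ∈ F.erase x, c y * ((2 * rh n) ^ s) ^ y.1 * Y s ^ y.2 := by linarith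
    have h3 := congrArg abs h2
    rw [abs_neg, mul_assoc, abs_mul, abs_of_nonneg (le_trans (mul_nonneg hm.le
      (pow_pos (hbpos x) s).le) (hterm x s).1)] at h3
    have h4 : |c x| * (min (A ^ x.2) (B ^ x.2) * b x ^ s) ≤
        ∑ y ∈ F.erase x, |c y| * (max (A ^ y.2) (B ^ y.2) * b y ^ s) := by
      refine (mul_le_mul_of_nonneg_left (hterm x s).1 (abs_nonneg _)).trans ?_
      rw [h3]
      refine (Finset.abs_sum_le_sum_abs _ _).trans (Finset.sum_le_sum fun y _ => ?_)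
      rw [mul_assoc, abs_mul]
      refine mul_le_mul_of_nonneg_left ?_ (abs_nonneg _)
      have h5 : 0 ≤ min (A ^ y.2) (B ^ y.2) * b y ^ s :=
        mul_nonneg (le_min (by positivity) (by positivity)) (pow_pos (hbpos y) s).le
      rw [abs_of_nonneg (h5.trans (hterm y s).1)]
      exact (hterm y s).2
    have hbs : 0 < b x ^ s := pow_pos (hbpos x) s
    refine le_of_mul_le_mul_right ?_ hbs
    rw [Finset.sum_mul, mul_assoc]
    refine h4.trans (le_of_eq (Finset.sum_congr rfl fun y _ => ?_))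
    rw [div_pow]
    field_simp
  have hlim : Tendsto (fun s : ℕ => ∑ y ∈ F.erase x, |c y| * max (A ^ y.2) (B ^ y.2) *
      (b y / b x) ^ s) atTop (𝓝 0) := by
    have h0 : (0 : ℝ) = ∑ y ∈ F.erase x, (0 : ℝ) := by simp
    rw [h0]
    refine tendsto_finsetSum _ fun y hy => ?_
    obtain ⟨hyx, hyF⟩ := Finset.mem_erase.1 hy
    by_cases hcy : c y = 0
    · simp only [hcy, abs_zero, zero_mul]
      exact tendsto_const_nhds
    · have h1 : b y ≤ b x := hmax y (Finset.mem_filter.2 ⟨hyF, hcy⟩)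
      have h2 : b y < b x := lt_of_le_of_ne h1 fun h => hyx (hinj y x h)
      have h3 : Tendsto (fun s : ℕ => (b y / b x) ^ s) atTop (𝓝 0) :=
        tendsto_pow_atTop_nhds_zero_of_lt_one (div_nonneg (hbpos y).le (hbpos x).le)
          ((div_lt_one (hbpos x)).2 h2)
      have h4 := h3.const_mul (|c y| * max (A ^ y.2) (B ^ y.2))
      rwa [mul_zero] at h4
  have h1 := ge_of_tendsto' hlim hmain
  have h2 : 0 < |c x| * min (A ^ x.2) (B ^ x.2) := mul_pos (abs_pos.2 hcx) hm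
  linarith

end Pool.Agent.N551.ZE
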