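import Mathlib
import Pool.Agent.N551.ZE.Stm

/-!
# Project ZE (helper551), part FIN (helper664): case distinction on `(p, q)`
-/

namespace Pool.Agent.N551.ZE

open Pool.Agent.N420.BS (basin)

private lemma dense_FIN_ (h1 : ∀ p q n, Pq p q n →
    ∀ P : MvPolynomial (Fin (max (p - 1) (q - 1) + 1)) ℝ,
    (∀ v ∈ basin (p - 1) (q - 1), MvPolynomial.eval v P = 0) → P = 0)
    (h2 : S_PRODG) (k l : ℕ) (hkl : k < l)
    (hval : padicValNat 2 (k + 1) = padicValNat 2 (l + 1)) (h5 : l + 1 ≠ 5 * (k + 1)) :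
    ∀ P : MvPolynomial (Fin (max k l + 1)) ℝ,
      (∀ v ∈ basin k l, MvPolynomial.eval v P = 0) → P = 0 := by
  obtain ⟨g, A, B, hg, hA, hB, e1, e2, hc, -, hpar⟩ :=
    Pool.Agent.N420.BS.gcd_data (k + 1) (l + 1) (by omega) (by omega)
  have hAB := hpar.1 hval
  have hA1 : A % 2 = 1 := by
    rcases Nat.mod_two_eq_zero_or_one A with ha | ha
    · exfalso
      have : 2 ∣ Nat.gcd A B := Nat.dvd_gcd (by omega) (by omega)
      rw [hc.gcd_eq_one] at this
      omega
    · exact ha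
  have hB1 : B % 2 = 1 := by omega
  have hlt : A < B := by
    have h : g * A < g * B := by omega
    exact lt_of_mul_lt_mul_left h (Nat.zero_le g)
  by_cases h13 : A = 1 ∧ B = 3
  · obtain ⟨rfl, rfl⟩ := h13
    exact ZD.multiples ZD.zdense (by omega)
  · have h15 : ¬ (A = 1 ∧ B = 5) := by
      rintro ⟨rfl, rfl⟩
      exact h5 (by omega)
    have hn : 8 ≤ A + B := by omega
    exact h2 A B hA hlt
      (h1 A B ((A + B) / 2 - 1) ⟨hA1, hB1, hlt, hc, by omega, by omega⟩) g k l hg e1 e2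

theorem t_FIN : S_FIN := by
  intro h1 h2 h3 k l hkl hval h5
  have hd := dense_FIN_ h1 h2 k l hkl hval h5
  exact ⟨hd, h3 k l hval hd⟩

end Pool.Agent.N551.ZE
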