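import Mathlib
import Pool.Agent.N551.ZE.Stm

/-!
# LAUR: the expansion of `P (pt h Y)` as a Laurent polynomial in `h` and `Y`
-/

set_option autoImplicit false

namespace Pool.Agent.N551.ZE

noncomputable section

namespace LAUR_

/-- the sign of a place -/
def sg (i : ℕ) : ℤ := if i % 2 = 0 then 1 else -1

open Classical in
/-- the exponent of `h` at a place -/
def dl (D : ℕ → Prop) (i : ℕ) : ℤ := if D i then sg i else 0

/-- the exponents of `h` and `Y` for a monomial -/
def ex {q : ℕ} (D : ℕ → Prop) (m : Fin q →₀ ℕ) : ℤ × ℤ :=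
  (∑ i : Fin q, dl D i * (m i : ℤ), ∑ i : Fin q, (-sg i) * (m i : ℤ))

/-- the data `v` for the values `U` -/
def vv {q : ℕ} (U : Fin q → ℝ) (t : ℕ) : ℝ :=
  if h : t < q then (if t % 2 = 0 then U ⟨t, h⟩ / Real.sqrt 2 else Real.sqrt 2 / U ⟨t, h⟩) else 1

theorem pt_eq {q : ℕ} (D : ℕ → Prop) (U : Fin q → ℝ) (hU : ∀ i, 0 < U i) (h Y : ℝ) (hh : 0 < h)
    (hY : 0 < Y) (i : Fin q) : pt q D (vv U) h Y i = U i * (h ^ dl D i * Y ^ (-sg i)) := by
  have h2 : (0 : ℝ) < Real.sqrt 2 := by positivity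
  have hUi := hU i
  have hvi : vv U i = if (i : ℕ) % 2 = 0 then U i / Real.sqrt 2 else Real.sqrt 2 / U i := by
    unfold vv
    rw [dif_pos i.2]
  unfold pt dl sg
  rw [hvi]
  by_cases h1 : (i : ℕ) % 2 = 0
  · by_cases h3 : D i
    · simp only [h1, h3, if_true, zpow_one, zpow_neg]
      field_simp
    · simp only [h1, h3, if_true, if_false, zpow_zero, zpow_one, zpow_neg]
      field_simp
  · by_cases h3 : D i
    · simp only [h1, h3, if_true, if_false, zpow_one, zpow_neg, neg_neg]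
      field_simp
    · simp only [h1, h3, if_false, zpow_zero, zpow_one, neg_neg]
      field_simp

theorem prod_zp {q : ℕ} (s : Finset (Fin q)) (f : Fin q → ℤ) {x : ℝ} (hx : x ≠ 0) :
    ∏ i ∈ s, x ^ f i = x ^ ∑ i ∈ s, f i := by
  classical
  induction s using Finset.induction_on with
  | empty => simp
  | insert a s ha ih => rw [Finset.prod_insert ha, Finset.sum_insert ha, zpow_add₀ hx, ih]

theorem mono_eq {q : ℕ} (D : ℕ → Prop) (U : Fin q → ℝ) (hU : ∀ i, 0 < U i) (h Y : ℝ) (hh : 0 < h)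
    (hY : 0 < Y) (m : Fin q →₀ ℕ) : ∏ i, pt q D (vv U) h Y i ^ m i =
      (∏ i, U i ^ m i) * h ^ (ex D m).1 * Y ^ (ex D m).2 := by
  have e1 : ∀ i : Fin q, pt q D (vv U) h Y i ^ m i =
      U i ^ m i * (h ^ (dl D i * (m i : ℤ)) * Y ^ ((-sg i) * (m i : ℤ))) := by
    intro i
    rw [pt_eq D U hU h Y hh hY, mul_pow, mul_pow, zpow_mul, zpow_mul, zpow_natCast, zpow_natCast]
  rw [Finset.prod_congr rfl fun i _ => e1 i, Finset.prod_mul_distrib, Finset.prod_mul_distrib,
    prod_zp _ _ hh.ne', prod_zp _ _ hY.ne', mul_assoc]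
  rfl

end LAUR_

open LAUR_ in
theorem t_LAUR : S_LAUR := by
  classical
  intro q D P hP
  obtain ⟨m₀, hm₀⟩ := MvPolynomial.ne_zero_iff.1 hP
  have hs₀ : m₀ ∈ P.support := MvPolynomial.mem_support_iff.2 hm₀
  -- the part of `P` with the exponents of `m₀`
  obtain ⟨P₀, hP₀⟩ : ∃ P₀ : MvPolynomial (Fin q) ℝ,
      P₀ = ∑ m ∈ P.support with ex D m = ex D m₀, MvPolynomial.monomial m (P.coeff m) := ⟨_, rfl⟩
  have hP₀ne : P₀ ≠ 0 := by
    intro h
    have h1 : P₀.coeff m₀ = P.coeff m₀ := by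
      rw [hP₀, MvPolynomial.coeff_sum, Finset.sum_eq_single m₀]
      · rw [MvPolynomial.coeff_monomial, if_pos rfl]
      · intro b _ hb
        rw [MvPolynomial.coeff_monomial, if_neg hb]
      · intro h2
        refine absurd ?_ h2
        rw [Finset.mem_filter]
        exact ⟨hs₀, rfl⟩
    rw [h, MvPolynomial.coeff_zero] at h1
    exact hm₀ h1.symm
  obtain ⟨U, hU, hUne⟩ : ∃ U : Fin q → ℝ, (∀ i, 0 < U i) ∧ MvPolynomial.eval U P₀ ≠ 0 := by
    by_contra hcon
    push Not at hcon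
    apply hP₀ne
    refine MvPolynomial.funext_set (fun _ => Set.Ioi (0 : ℝ)) (fun _ => Set.Ioi_infinite 0) ?_
    intro x hx
    rw [map_zero]
    exact hcon x fun i => hx i (Set.mem_univ i)
  have h2 : (0 : ℝ) < Real.sqrt 2 := by positivity
  refine ⟨vv U, fun t => ?_, P.support.image (ex D),
    fun x => ∑ m ∈ P.support with ex D m = x, P.coeff m * ∏ i, U i ^ m i, ?_, ?_⟩
  · unfold vv
    split_ifs with h3 h4
    · have := hU ⟨t, h3⟩
      positivity
    · have := hU ⟨t, h3⟩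
      positivity
    · exact one_pos
  · refine ⟨ex D m₀, Finset.mem_image_of_mem _ hs₀, ?_⟩
    intro h3
    apply hUne
    rw [hP₀, map_sum]
    rw [← h3]
    refine Finset.sum_congr rfl fun m _ => ?_
    rw [MvPolynomial.eval_monomial]
    congr 1
    rw [Finsupp.prod_fintype _ _ (fun _ => pow_zero _)]
  · intro h Y hh hY
    rw [MvPolynomial.eval_eq']
    rw [← Finset.sum_fiberwise_of_maps_to (g := ex D) (t := P.support.image (ex D))
      (fun m hm => Finset.mem_image_of_mem _ hm)]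
    refine Finset.sum_congr rfl fun x _ => ?_
    rw [Finset.sum_mul, Finset.sum_mul]
    refine Finset.sum_congr rfl fun m hm => ?_
    rw [mono_eq D U hU h Y hh hY m, (Finset.mem_filter.1 hm).2]
    ring

end

end Pool.Agent.N551.ZE
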