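import Mathlib
import Pool.Agent.N551.ZE.Stm

open Filter Topology Set

namespace Pool.Agent.N551.ZE

namespace LOW_

theorem hmean_ge {A B u1 u2 w y : ℝ} (hA : 0 < A) (hB : 0 < B) (h1 : A ≤ u1) (h2 : B ≤ u2)
    (hw : 0 < w) (h : 1 / w = (1 / u1 + 1 / u2) / 2) (hy : y * (A + B) ≤ 2 * A * B) : y ≤ w := by
  have h3 : 1 / u1 ≤ 1 / A := one_div_le_one_div_of_le hA h1
  have h4 : 1 / u2 ≤ 1 / B := one_div_le_one_div_of_le hB h2
  have h5 : 1 / w ≤ (A + B) / (2 * A * B) := by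
    have : (A + B) / (2 * A * B) = (1 / A + 1 / B) / 2 := by field_simp; ring
    rw [this]; linarith
  have h6 : 2 * A * B / (A + B) ≤ w := by
    rw [div_le_iff₀ (by positivity)]
    rw [div_le_div_iff₀ hw (by positivity)] at h5
    linarith
  refine le_trans ?_ h6
  rw [le_div_iff₀ (by positivity)]
  exact hy

theorem key {x0 D E0 E1 δ : ℝ} (hx : 0 < x0) (hD : 0 < D) (h0 : 0 < E0) (h1 : E0 ≤ 1)
    (hδ : 0 ≤ δ) (hE : E1 ≤ E0 - δ) (hxD : x0 ≤ δ * D) :
    2 * x0 * E1 * (D + x0 * E0) ≤ 2 * D * (x0 * E0) := by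
  have h2 : E1 * (D + x0 * E0) ≤ (E0 - δ) * (D + x0 * E0) :=
    mul_le_mul_of_nonneg_right hE (by positivity)
  have h3 : (E0 - δ) * (D + x0 * E0) ≤ D * E0 := by
    have h4 : x0 * E0 * E0 ≤ x0 := by
      have : x0 * E0 * E0 ≤ x0 * 1 * 1 := by gcongr
      linarith
    have h5 : 0 ≤ δ * (x0 * E0) := by positivity
    nlinarith
  have h6 : E1 * (D + x0 * E0) ≤ D * E0 := h2.trans h3
  have h7 : 2 * x0 * (E1 * (D + x0 * E0)) ≤ 2 * x0 * (D * E0) :=
    mul_le_mul_of_nonneg_left h6 (by positivity)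
  linarith

theorem rh_gt {n : ℕ} (h : 3 ≤ n) : 1 < rh n := by
  unfold rh
  have h1 : (3 : ℝ) ≤ n := by exact_mod_cast h
  rw [one_lt_div (by linarith)]
  linarith

theorem posZ {n : ℕ} {a : ℤ → ℝ} (hA : Amp n a) {j : ℤ} (h1 : 2 ≤ j) (h2 : j ≤ 2 * n) :
    0 < a j := by
  obtain ⟨i, rfl⟩ := Int.eq_ofNat_of_zero_le (by omega : 0 ≤ j)
  exact hA.pos i (by omega) (by omega)

theorem harZ {n : ℕ} {a : ℤ → ℝ} (hA : Amp n a) (j : ℤ) (h1 : 4 ≤ j) (h2 : j ≤ 2 * n - 2)
    (h3 : j % 2 = 0) : 1 / a j = (1 / a (j - 1) + 1 / a (j + 1)) / 2 := by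
  obtain ⟨i, rfl⟩ := Int.eq_ofNat_of_zero_le (by omega : 0 ≤ j)
  exact hA.har i (by omega) (by omega) (by omega)

theorem ariZ {n : ℕ} {a : ℤ → ℝ} (hA : Amp n a) (j : ℤ) (h1 : 3 ≤ j) (h2 : j ≤ 2 * n - 1)
    (h3 : j % 2 = 1) : rh n * a j = (a (j - 1) + a (j + 1)) / 2 := by
  obtain ⟨i, rfl⟩ := Int.eq_ofNat_of_zero_le (by omega : 0 ≤ j)
  exact hA.ari i (by omega) (by omega) (by omega)

theorem main {p q n : ℕ} (h : Pq p q n) {J m : ℕ → ℤ} {a : ℤ → ℝ} (hC : Co p q J m)
    (hA : Amp n a) {w : ℕ → ℝ} (hw : Rec p q w) {H k G β A : ℝ} {T : ℕ} (hH : 0 < H)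
    (hk : 0 < k) (hG : 0 ≤ G) (hβ : 1 < β) (hβN : β ^ (p + q) = 2 * rh n)
    (hGA : A * k ≤ H * (G * (1 - β⁻¹))) (hA0 : 0 < A)
    (hA3 : 2 * a 3 ≤ A) (hA4 : rh n ^ ((n : ℤ) - 1) * a (2 * n - 1) ≤ A * 2 ^ (1 - (p : ℤ)))
    (hT : G * β ^ T ≤ 1 / 2)
    (i0 : ∀ t < q, J t = 0 → H * 2 ^ (-m t) ≤ w t)
    (i1 : ∀ t < q, J t = 1 → H * 2 ^ (-m t - 1) ≤ w t)
    (i2 : ∀ t < q, J t = p + q - 1 → H * 2 ^ (-m t - p) ≤ w t)
    (i3 : ∀ t < q, 2 ≤ J t → J t ≤ 2 * n →
      k * rh n ^ (m t + (J t - 1) / 2) * a (J t) * (1 - G * β ^ t) ≤ w t) :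
    ∀ t, t ≤ T → (J t = 0 → H * 2 ^ (-m t) ≤ w t) ∧ (J t = 1 → H * 2 ^ (-m t - 1) ≤ w t) ∧
      (J t = p + q - 1 → H * 2 ^ (-m t - p) ≤ w t) ∧
      (2 ≤ J t → J t ≤ 2 * n →
        k * rh n ^ (m t + (J t - 1) / 2) * a (J t) * (1 - G * β ^ t) ≤ w t) := by
  have hρ := rh_gt h.n3
  have hρ0 : 0 < rh n := by linarith
  have hβ0 : 0 < β := by linarith
  have hN : (p : ℤ) + q = 2 * n + 2 := by exact_mod_cast h.sum
  have hlt := h.lt
  have hp1 : 1 ≤ p := by have := h.hp; omega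
  have hn3 : (3 : ℤ) ≤ n := by exact_mod_cast h.n3
  -- the function E
  have Emono : ∀ r t : ℕ, r ≤ t → 1 - G * β ^ t ≤ 1 - G * β ^ r := by
    intro r t hrt
    have : β ^ r ≤ β ^ t := pow_le_pow_right₀ hβ.le hrt
    have := mul_le_mul_of_nonneg_left this hG
    linarith
  have Ele : ∀ r : ℕ, 1 - G * β ^ r ≤ 1 := fun r => by
    have : 0 ≤ G * β ^ r := by positivity
    linarith
  have Eh : ∀ r : ℕ, r ≤ T → 1 / 2 ≤ 1 - G * β ^ r := fun r hr => by
    have := Emono r T hr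
    linarith
  have Edrop : ∀ r t : ℕ, r < t → 1 - G * β ^ t ≤ (1 - G * β ^ r) - G * (1 - β⁻¹) * β ^ t := by
    intro r t hrt
    have h1 : β ^ r ≤ β ^ (t - 1) := pow_le_pow_right₀ hβ.le (by omega)
    have h2 : β ^ (t - 1) = β⁻¹ * β ^ t := by
      have h3 : β ^ t = β * β ^ (t - 1) := by
        rw [← pow_succ']
        congr 1
        omega
      rw [h3, inv_mul_cancel_left₀ hβ0.ne']
    have h4 := mul_le_mul_of_nonneg_left h1 hG
    rw [h2] at h4
    nlinarith
  have hzb : ∀ t, (2 : ℝ) ^ m t * rh n ^ m t ≤ β ^ t := by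
    intro t
    rw [← mul_zpow, ← hβN, ← zpow_natCast β (p + q), ← zpow_mul, ← zpow_natCast β t]
    apply zpow_le_zpow_right₀ hβ.le
    have h1 := hC.eq t
    have h2 := hC.lo t
    have h3 : (0 : ℤ) ≤ p * J t := by positivity
    push_cast
    linarith
  intro t
  induction t using Nat.strong_induction_on with
  | _ t ih =>
    intro htT
    by_cases htq : t < q
    · exact ⟨i0 t htq, i1 t htq, i2 t htq, i3 t htq⟩
    rw [not_lt] at htq
    have htp : p ≤ t := hlt.le.trans htq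
    have ihp := ih (t - p) (by omega) (by omega)
    have ihq := ih (t - q) (by omega) (by omega)
    obtain ⟨re, ro⟩ := hw.2 t htq
    have hwt := hw.1 t
    have hwp := hw.1 (t - p)
    have hwq := hw.1 (t - q)
    have hpar := hC.par t
    have hX : (0 : ℝ) < 2 ^ m t := by positivity
    have hR : (0 : ℝ) < rh n ^ m t := by positivity
    have hEt := Eh t htT
    refine ⟨fun hJ => ?_, fun hJ => ?_, fun hJ => ?_, fun hJ2 hJn => ?_⟩
    · -- J = 0
      obtain ⟨a1, a2⟩ := hC.p0 t htp hJ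
      obtain ⟨b1, b2⟩ := hC.q1 t htq (by omega)
      have c1 := ihp.2.2.1 (by omega)
      have c2 := ihq.2.1 (by omega)
      rw [a2, show -(m t - (p : ℤ)) - p = -m t by ring] at c1
      rw [b2, show -(m t - 1) - 1 = -m t by ring] at c2
      have hpos : (0 : ℝ) < H * 2 ^ (-m t) := by positivity
      exact hmean_ge hpos hpos c1 c2 hwt (ro (hpar.1 (by omega))) (le_of_eq (by ring))
    · -- J = 1
      obtain ⟨a1, a2⟩ := hC.p1 t htp (by omega)
      have c1 := ihp.1 (by omega)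
      rw [a2] at c1
      have h1 := re (by
        by_contra h2
        have := hpar.2 (by omega)
        omega)
      rw [h1, zpow_sub₀ (by norm_num), zpow_one]
      linarith
    · -- J = N - 1
      obtain ⟨b1, b2⟩ := hC.q0 t htq hJ
      have c1 := ihq.1 (by omega)
      rw [b2] at c1
      have h1 := re (by
        by_contra h2
        have := hpar.2 (by omega)
        omega)
      have h3 : (2 : ℝ) ^ (-(m t - 1 + (p : ℤ))) = 2 * 2 ^ (-m t - (p : ℤ)) := by
        rw [show -(m t - 1 + (p : ℤ)) = 1 + (-m t - (p : ℤ)) by ring, zpow_add₀ (by norm_num),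
          zpow_one]
      rw [h3] at c1
      rw [h1]
      linarith
    · -- 2 ≤ J ≤ 2 n
      obtain ⟨a1, a2⟩ := hC.p1 t htp (by omega)
      obtain ⟨b1, b2⟩ := hC.q1 t htq (by omega)
      have hδ0 : 0 ≤ G * (1 - β⁻¹) * β ^ t := by
        have : β⁻¹ < 1 := inv_lt_one_of_one_lt₀ hβ
        have : 0 ≤ 1 - β⁻¹ := by linarith
        positivity
      have hδ1 : A * k * (2 ^ m t * rh n ^ m t) ≤ H * (G * (1 - β⁻¹) * β ^ t) := by
        calc A * k * (2 ^ m t * rh n ^ m t) ≤ A * k * β ^ t :=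
              mul_le_mul_of_nonneg_left (hzb t) (by positivity)
          _ ≤ H * (G * (1 - β⁻¹)) * β ^ t := mul_le_mul_of_nonneg_right hGA (by positivity)
          _ = _ := by ring
      rcases eq_or_lt_of_le hJ2 with hJ2' | hJ3
      · -- J = 2
        have c1 := ihp.2.1 (by omega)
        have c2 := ihq.2.2.2 (by omega) (by omega)
        have e3 : J (t - q) = 3 := by omega
        rw [a2] at c1
        rw [b2, e3, show m t - 1 + ((3 : ℤ) - 1) / 2 = m t by norm_num] at c2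
        rw [← hJ2', show m t + ((2 : ℤ) - 1) / 2 = m t by norm_num, hA.left]
        have ha3 : 0 < a 3 := hA.pos 3 (by omega) (by omega)
        have hE0 := Eh (t - q) (by omega)
        have hx0 : 0 < k * rh n ^ m t * a 3 := by positivity
        have hD : (0 : ℝ) < H * 2 ^ (-m t - 1) := by positivity
        have hxD : k * rh n ^ m t * a 3 ≤
            G * (1 - β⁻¹) * β ^ t * (H * 2 ^ (-m t - 1)) := by
          have e1 : (2 : ℝ) ^ (-m t - 1) = (2 ^ m t)⁻¹ / 2 := by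
            rw [zpow_sub₀ (by norm_num), zpow_neg, zpow_one]
          rw [e1]
          have h2 := mul_le_mul_of_nonneg_right hδ1 (show (0 : ℝ) ≤ (2 ^ m t)⁻¹ / 2 by positivity)
          have h3 : A * k * (2 ^ m t * rh n ^ m t) * ((2 ^ m t)⁻¹ / 2) = A * k * rh n ^ m t / 2 := by
            field_simp
          rw [h3] at h2
          have h4 : k * rh n ^ m t * (2 * a 3) ≤ k * rh n ^ m t * A :=
            mul_le_mul_of_nonneg_left hA3 (by positivity)
          linarith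
        have hk' := key (E1 := 1 - G * β ^ t) hx0 hD (by linarith : 0 < 1 - G * β ^ (t - q))
          (Ele _) hδ0 (Edrop (t - q) t (by omega)) hxD
        refine hmean_ge hD (by positivity : 0 < k * rh n ^ m t * a 3 * (1 - G * β ^ (t - q)))
          c1 c2 hwt (ro (hpar.1 (by omega))) ?_
        calc k * rh n ^ m t * (2 * a 3) * (1 - G * β ^ t) *
              (H * 2 ^ (-m t - 1) + k * rh n ^ m t * a 3 * (1 - G * β ^ (t - q)))
            = 2 * (k * rh n ^ m t * a 3) * (1 - G * β ^ t) *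
              (H * 2 ^ (-m t - 1) + k * rh n ^ m t * a 3 * (1 - G * β ^ (t - q))) := by ring
          _ ≤ _ := hk'
      rcases eq_or_lt_of_le hJn with hJn' | hJn1
      · -- J = 2 n
        have c1 := ihp.2.2.2 (by omega) (by omega)
        have c2 := ihq.2.2.1 (by omega)
        have e3 : J (t - p) = 2 * n - 1 := by omega
        rw [b2] at c2
        rw [a2, e3, show m t + ((2 * n - 1 : ℤ) - 1) / 2 = m t + (n - 1) by omega] at c1
        rw [hJn', show m t + ((2 * n : ℤ) - 1) / 2 = m t + (n - 1) by omega, hA.right]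
        have ha3 : 0 < a (2 * n - 1) := posZ hA (j := 2 * n - 1) (by omega) (by omega)
        have hE0 := Eh (t - p) (by omega)
        have hx0 : 0 < k * rh n ^ (m t + ((n : ℤ) - 1)) * a (2 * n - 1) := by positivity
        have hD : (0 : ℝ) < H * 2 ^ (-(m t - 1) - (p : ℤ)) := by positivity
        have hxD : k * rh n ^ (m t + ((n : ℤ) - 1)) * a (2 * n - 1) ≤
            G * (1 - β⁻¹) * β ^ t * (H * 2 ^ (-(m t - 1) - (p : ℤ))) := by
          have e1 : (2 : ℝ) ^ (-(m t - 1) - (p : ℤ)) = (2 ^ m t)⁻¹ * 2 ^ (1 - (p : ℤ)) := by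
            rw [show -(m t - 1) - (p : ℤ) = -m t + (1 - (p : ℤ)) by ring,
              zpow_add₀ (by norm_num), zpow_neg]
          rw [e1, zpow_add₀ hρ0.ne']
          have h2 := mul_le_mul_of_nonneg_right hδ1
            (show (0 : ℝ) ≤ (2 ^ m t)⁻¹ * 2 ^ (1 - (p : ℤ)) by positivity)
          have h3 : A * k * (2 ^ m t * rh n ^ m t) * ((2 ^ m t)⁻¹ * 2 ^ (1 - (p : ℤ))) =
              k * rh n ^ m t * (A * 2 ^ (1 - (p : ℤ))) := by
            field_simp
          rw [h3] at h2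
          have h4 : k * rh n ^ m t * (rh n ^ ((n : ℤ) - 1) * a (2 * n - 1)) ≤
              k * rh n ^ m t * (A * 2 ^ (1 - (p : ℤ))) :=
            mul_le_mul_of_nonneg_left hA4 (by positivity)
          linarith
        have hk' := key (E1 := 1 - G * β ^ t) hx0 hD (by linarith : 0 < 1 - G * β ^ (t - p))
          (Ele _) hδ0 (Edrop (t - p) t (by omega)) hxD
        refine hmean_ge
          (by positivity : 0 < k * rh n ^ (m t + ((n : ℤ) - 1)) * a (2 * n - 1) * (1 - G * β ^ (t - p)))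
          hD c1 c2 hwt (ro (hpar.1 (by omega))) ?_
        linarith
      -- 3 ≤ J ≤ 2 n - 1
      have c1 := ihp.2.2.2 (by omega) (by omega)
      have c2 := ihq.2.2.2 (by omega) (by omega)
      rw [a1, a2] at c1
      rw [b1, b2] at c2
      have haJ : 0 < a (J t) := posZ hA (j := J t) (by omega) (by omega)
      have haJ1 : 0 < a (J t - 1) := posZ hA (j := J t - 1) (by omega) (by omega)
      have haJ2 : 0 < a (J t + 1) := posZ hA (j := J t + 1) (by omega) (by omega)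
      have m1 := Emono (t - p) t (by omega)
      have m2 := Emono (t - q) t (by omega)
      rcases Int.emod_two_eq_zero_or_one (J t) with hev | hod
      · -- even
        rw [show m t + (J t - 1 - 1) / 2 = m t + (J t - 1) / 2 by omega] at c1
        rw [show m t - 1 + (J t + 1 - 1) / 2 = m t + (J t - 1) / 2 by omega] at c2
        have hK : 0 < k * rh n ^ (m t + (J t - 1) / 2) := by positivity
        have d1 : k * rh n ^ (m t + (J t - 1) / 2) * a (J t - 1) * (1 - G * β ^ t) ≤ w (t - p) :=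
          (mul_le_mul_of_nonneg_left m1 (by positivity)).trans c1
        have d2 : k * rh n ^ (m t + (J t - 1) / 2) * a (J t + 1) * (1 - G * β ^ t) ≤ w (t - q) :=
          (mul_le_mul_of_nonneg_left m2 (by positivity)).trans c2
        have hE : 0 < 1 - G * β ^ t := by linarith
        refine hmean_ge (by positivity) (by positivity) d1 d2 hwt (ro (hpar.1 hev)) ?_
        have hh := harZ hA (J t) (by omega) (by omega) hev
        have hh2 : a (J t) * (a (J t - 1) + a (J t + 1)) = 2 * a (J t - 1) * a (J t + 1) := by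
          field_simp at hh
          linarith
        generalize k * rh n ^ (m t + (J t - 1) / 2) = K at *
        generalize 1 - G * β ^ t = E at *
        apply le_of_eq
        calc K * a (J t) * E * (K * a (J t - 1) * E + K * a (J t + 1) * E)
            = K * K * E * E * (a (J t) * (a (J t - 1) + a (J t + 1))) := by ring
          _ = _ := by rw [hh2]; ring
      · -- odd
        rw [show m t + (J t - 1 - 1) / 2 = m t + (J t - 1) / 2 - 1 by omega] at c1
        rw [show m t - 1 + (J t + 1 - 1) / 2 = m t + (J t - 1) / 2 - 1 by omega] at c2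
        have hK : 0 < k * rh n ^ (m t + (J t - 1) / 2 - 1) := by positivity
        have d1 : k * rh n ^ (m t + (J t - 1) / 2 - 1) * a (J t - 1) * (1 - G * β ^ t) ≤
            w (t - p) := (mul_le_mul_of_nonneg_left m1 (by positivity)).trans c1
        have d2 : k * rh n ^ (m t + (J t - 1) / 2 - 1) * a (J t + 1) * (1 - G * β ^ t) ≤
            w (t - q) := (mul_le_mul_of_nonneg_left m2 (by positivity)).trans c2
        have h1 := re (by
          by_contra h2
          have := hpar.2 (by omega)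
          omega)
        have hh := ariZ hA (J t) (by omega) (by omega) hod
        have e1 : rh n ^ (m t + (J t - 1) / 2) = rh n ^ (m t + (J t - 1) / 2 - 1) * rh n := by
          rw [← zpow_add_one₀ hρ0.ne']
          congr 1
          ring
        rw [e1, h1]
        have e2 : k * (rh n ^ (m t + (J t - 1) / 2 - 1) * rh n) * a (J t) * (1 - G * β ^ t) =
            k * rh n ^ (m t + (J t - 1) / 2 - 1) * (1 - G * β ^ t) * (rh n * a (J t)) := by ring
        rw [e2, hh]
        linarith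

theorem aux {x X b : ℝ} (hX : X ≠ 0) (hb : b ≠ 0) : x = X * (x / (X * b) * b) := by
  field_simp

theorem finmin (f : ℕ → ℝ) (hf : ∀ t, 0 < f t) (q : ℕ) : ∃ c : ℝ, 0 < c ∧ ∀ t < q, c ≤ f t := by
  induction q with
  | zero => exact ⟨1, one_pos, fun t ht => absurd ht (Nat.not_lt_zero t)⟩
  | succ q ih =>
    obtain ⟨c, hc, h⟩ := ih
    refine ⟨min c (f q), lt_min hc (hf q), fun t ht => ?_⟩
    rcases Nat.lt_succ_iff_lt_or_eq.1 ht with h1 | h1
    · exact (min_le_left _ _).trans (h t h1)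
    · rw [h1]; exact min_le_right _ _

theorem win {p q : ℕ} {w : ℕ → ℝ} {M A : ℝ} {t₀ : ℕ} (hp : 0 < p) (hpq : p < q)
    (hw : Rec p q w) (hM : Tendsto w atTop (𝓝 M)) (hA : 0 < A)
    (h : ∀ t, t₀ ≤ t → t < t₀ + q → A ≤ w t) : A ≤ M := by
  have h1 : ∀ t, t₀ ≤ t → A ≤ w t := by
    intro t
    induction t using Nat.strong_induction_on with
    | _ t ih =>
      intro ht
      by_cases h2 : t < t₀ + q
      · exact h t ht h2
      have c1 := ih (t - p) (by omega) (by omega)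
      have c2 := ih (t - q) (by omega) (by omega)
      obtain ⟨re, ro⟩ := hw.2 t (by omega)
      rcases Nat.mod_two_eq_zero_or_one t with h3 | h3
      · rw [re h3]; linarith
      · exact hmean_ge hA hA c1 c2 (hw.1 t) (ro h3) (le_of_eq (by ring))
  exact ge_of_tendsto hM (eventually_atTop.2 ⟨t₀, h1⟩)

end LOW_

open LOW_ in
theorem t_LOW : S_LOW := by
  intro p q n h J m a hC hA v hv
  have hρ := rh_gt h.n3
  have hρ0 : 0 < rh n := by linarith
  have hN : (p : ℤ) + q = 2 * n + 2 := by exact_mod_cast h.sum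
  have hlt := h.lt
  have hp1 : 1 ≤ p := by have := h.hp; omega
  have hn3 : (3 : ℤ) ≤ n := by exact_mod_cast h.n3
  obtain ⟨β, hβ, hβN⟩ : ∃ β : ℝ, 1 < β ∧ β ^ (p + q) = 2 * rh n := by
    refine ⟨(2 * rh n) ^ (((p + q : ℕ) : ℝ)⁻¹), ?_, ?_⟩
    · apply Real.one_lt_rpow (by linarith)
      have : (0 : ℝ) < ((p + q : ℕ) : ℝ) := by exact_mod_cast (by omega : 0 < p + q)
      positivity
    · exact Real.rpow_inv_natCast_pow (by linarith) (by omega)
  have hβ0 : 0 < β := by linarith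
  have hβ1 : 0 < 1 - β⁻¹ := by
    have : β⁻¹ < 1 := inv_lt_one_of_one_lt₀ hβ
    linarith
  obtain ⟨c₁, hc₁, hc₁'⟩ := finmin (fun t => v t * 2 ^ m t)
    (fun t => mul_pos (hv t) (by positivity)) q
  obtain ⟨k₁, hk₁, hk₁'⟩ := finmin
    (fun t => v t / (rh n ^ (m t + (J t - 1) / 2) * (|a (J t)| + 1)))
    (fun t => div_pos (hv t) (by positivity)) q
  obtain ⟨a₀, ha₀, ha₀'⟩ := finmin (fun i => if 2 ≤ i ∧ i ≤ 2 * n then a i else 1) (fun i => by
    split_ifs with h1
    · exact hA.pos i (by omega) (by omega)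
    · exact one_pos) (2 * n + 1)
  have ha3 : 0 < a 3 := hA.pos 3 (by omega) (by omega)
  have han : 0 < a (2 * n - 1) := posZ hA (j := 2 * n - 1) (by omega) (by omega)
  obtain ⟨A, hA0, hA3, hA4⟩ : ∃ A : ℝ, 0 < A ∧ 2 * a 3 ≤ A ∧
      rh n ^ ((n : ℤ) - 1) * a (2 * n - 1) ≤ A * 2 ^ (1 - (p : ℤ)) := by
    refine ⟨2 * a 3 + rh n ^ ((n : ℤ) - 1) * a (2 * n - 1) / 2 ^ (1 - (p : ℤ)), by positivity,
      ?_, ?_⟩
    · have : 0 ≤ rh n ^ ((n : ℤ) - 1) * a (2 * n - 1) / 2 ^ (1 - (p : ℤ)) := by positivity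
      linarith
    · have h1 : (0 : ℝ) < 2 ^ (1 - (p : ℤ)) := by positivity
      rw [add_mul, div_mul_cancel₀ _ h1.ne']
      have : 0 ≤ 2 * a 3 * 2 ^ (1 - (p : ℤ)) := by positivity
      linarith
  obtain ⟨k₂, hk₂⟩ : ∃ k₂ : ℝ, k₂ = c₁ * (1 - β⁻¹) / (2 * A * β ^ q) := ⟨_, rfl⟩
  have hk₂0 : 0 < k₂ := by rw [hk₂]; positivity
  obtain ⟨k, hk, hkk1, hkk2⟩ : ∃ k : ℝ, 0 < k ∧ k ≤ k₁ ∧ k ≤ k₂ :=
    ⟨min k₁ k₂, lt_min hk₁ hk₂0, min_le_left _ _, min_le_right _ _⟩
  refine ⟨min (c₁ * 2 ^ (-(p : ℤ))) (k * rh n ^ (-(p : ℤ)) * a₀ / 2), lt_min (by positivity)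
    (by positivity), fun s w M hw hin hM => ?_⟩
  have hH : 0 < c₁ * (2 * rh n) ^ s := by positivity
  have hGnn : 0 ≤ A * k / (c₁ * (2 * rh n) ^ s * (1 - β⁻¹)) := by positivity
  have hGA : A * k ≤ c₁ * (2 * rh n) ^ s *
      (A * k / (c₁ * (2 * rh n) ^ s * (1 - β⁻¹)) * (1 - β⁻¹)) := by
    exact le_of_eq (aux hH.ne' hβ1.ne')
  have hT : A * k / (c₁ * (2 * rh n) ^ s * (1 - β⁻¹)) * β ^ ((p + q) * s + q) ≤ 1 / 2 := by
    rw [pow_add, pow_mul, hβN, div_mul_eq_mul_div, div_le_iff₀ (by positivity)]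
    have h1 : k * (2 * A * β ^ q) ≤ c₁ * (1 - β⁻¹) := by
      rw [hk₂, le_div_iff₀ (by positivity)] at hkk2
      exact hkk2
    have h2 := mul_le_mul_of_nonneg_left h1 (show (0 : ℝ) ≤ (2 * rh n) ^ s by positivity)
    linarith
  have h1 : ∀ t < q, Dt p q t → c₁ * (2 * rh n) ^ s * 2 ^ (-m t) ≤ w t := by
    intro t ht hD
    rw [(hin t ht).1 hD, zpow_neg, ← div_eq_mul_inv, div_le_iff₀ (by positivity)]
    have := mul_le_mul_of_nonneg_right (hc₁' t ht) (show (0 : ℝ) ≤ (2 * rh n) ^ s by positivity)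
    linarith
  have hmain := main h hC hA hw hH hk hGnn hβ hβN hGA hA0 hA3 hA4 hT
    (fun t ht hJ => h1 t ht ((hC.dt t).2 (Or.inl hJ)))
    (fun t ht hJ => by
      refine le_trans ?_ (h1 t ht ((hC.dt t).2 (Or.inr (Or.inl hJ))))
      apply mul_le_mul_of_nonneg_left _ hH.le
      exact zpow_le_zpow_right₀ (by norm_num) (by omega))
    (fun t ht hJ => by
      refine le_trans ?_ (h1 t ht ((hC.dt t).2 (Or.inr (Or.inr hJ))))
      apply mul_le_mul_of_nonneg_left _ hH.le
      exact zpow_le_zpow_right₀ (by norm_num) (by omega))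
    (fun t ht hJ hJ' => by
      have hD : ¬ Dt p q t := by
        rw [hC.dt t]
        omega
      rw [(hin t ht).2 hD]
      have haJ : 0 < a (J t) := posZ hA (j := J t) hJ hJ'
      have h2 : k ≤ v t / (rh n ^ (m t + (J t - 1) / 2) * (|a (J t)| + 1)) :=
        hkk1.trans (hk₁' t ht)
      rw [le_div_iff₀ (by positivity)] at h2
      have h3 : k * rh n ^ (m t + (J t - 1) / 2) * a (J t) *
          (1 - A * k / (c₁ * (2 * rh n) ^ s * (1 - β⁻¹)) * β ^ t) ≤
          k * rh n ^ (m t + (J t - 1) / 2) * a (J t) * 1 := by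
        apply mul_le_mul_of_nonneg_left _ (by positivity)
        have : 0 ≤ A * k / (c₁ * (2 * rh n) ^ s * (1 - β⁻¹)) * β ^ t := by positivity
        linarith
      have h4 : k * rh n ^ (m t + (J t - 1) / 2) * a (J t) ≤
          k * rh n ^ (m t + (J t - 1) / 2) * (|a (J t)| + 1) := by
        apply mul_le_mul_of_nonneg_left _ (by positivity)
        have := le_abs_self (a (J t))
        linarith
      linarith)
  -- the window
  refine win (t₀ := (p + q) * s) (by omega) hlt hw hM (mul_pos (lt_min (by positivity)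
    (by positivity)) (by positivity)) fun t ht1 ht2 => ?_
  have ht3 := hmain t (by omega)
  have heq := hC.eq t
  have hlo := hC.lo t
  have hhi := hC.hi t
  have ht1' : ((p : ℤ) + q) * s ≤ t := by exact_mod_cast ht1
  have ht2' : (t : ℤ) < (p + q) * s + q := by exact_mod_cast ht2
  have hp0 : (1 : ℤ) ≤ p := by exact_mod_cast hp1
  have hq0 : (1 : ℤ) ≤ q := by omega
  have hms : m t ≤ s := by
    have h2 : ((p : ℤ) + q) * m t < (p + q) * (s + 1) := by
      have : (0 : ℤ) ≤ p * J t := by positivity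
      nlinarith
    have := lt_of_mul_lt_mul_left h2 (by positivity)
    omega
  have hms' : (s : ℤ) - p ≤ m t := by
    have h2 : ((p : ℤ) + q) * (s - p - 1) < (p + q) * m t := by
      have h3 : (p : ℤ) * J t ≤ p * (p + q) := by
        apply mul_le_mul_of_nonneg_left (by omega) (by omega)
      nlinarith
    have := lt_of_mul_lt_mul_left h2 (by positivity)
    omega
  have hDc : ∀ e : ℤ, -(s : ℤ) - p ≤ e → c₁ * 2 ^ (-(p : ℤ)) * rh n ^ s ≤
      c₁ * (2 * rh n) ^ s * 2 ^ e := by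
    intro e he
    have h2 : (2 : ℝ) ^ (-(s : ℤ) - p) ≤ 2 ^ e := zpow_le_zpow_right₀ (by norm_num) he
    have h3 : c₁ * (2 * rh n) ^ s * 2 ^ (-(s : ℤ) - p) = c₁ * 2 ^ (-(p : ℤ)) * rh n ^ s := by
      rw [sub_eq_add_neg, zpow_add₀ (by norm_num), zpow_neg, zpow_natCast, mul_pow]
      field_simp
    rw [← h3]
    exact mul_le_mul_of_nonneg_left h2 (by positivity)
  have hmn : min (c₁ * 2 ^ (-(p : ℤ))) (k * rh n ^ (-(p : ℤ)) * a₀ / 2) * rh n ^ s ≤
      c₁ * 2 ^ (-(p : ℤ)) * rh n ^ s :=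
    mul_le_mul_of_nonneg_right (min_le_left _ _) (by positivity)
  by_cases hJ0 : J t = 0
  · exact hmn.trans ((hDc _ (by omega)).trans (ht3.1 hJ0))
  by_cases hJ1 : J t = 1
  · exact hmn.trans ((hDc _ (by omega)).trans (ht3.2.1 hJ1))
  by_cases hJN : J t = p + q - 1
  · exact hmn.trans ((hDc _ (by omega)).trans (ht3.2.2.1 hJN))
  have hJ2 : 2 ≤ J t := by omega
  have hJn : J t ≤ 2 * n := by omega
  refine le_trans (mul_le_mul_of_nonneg_right (min_le_right _ _) (by positivity))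
    (le_trans ?_ (ht3.2.2.2 hJ2 hJn))
  have haJ : a₀ ≤ a (J t) := by
    have h2 := ha₀' (J t).toNat (by omega)
    rw [if_pos (by omega), Int.toNat_of_nonneg (by omega)] at h2
    exact h2
  have haJ0 : 0 < a (J t) := ha₀.trans_le haJ
  have hE : 1 / 2 ≤ 1 - A * k / (c₁ * (2 * rh n) ^ s * (1 - β⁻¹)) * β ^ t := by
    have h2 : β ^ t ≤ β ^ ((p + q) * s + q) := pow_le_pow_right₀ hβ.le (by omega)
    have h3 := mul_le_mul_of_nonneg_left h2 hGnn
    linarith
  have hpw : rh n ^ ((s : ℤ) - p) ≤ rh n ^ (m t + (J t - 1) / 2) :=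
    zpow_le_zpow_right₀ hρ.le (by omega)
  have hsp : rh n ^ ((s : ℤ) - p) = rh n ^ (-(p : ℤ)) * rh n ^ s := by
    rw [sub_eq_add_neg, zpow_add₀ hρ0.ne', zpow_natCast, mul_comm]
  calc k * rh n ^ (-(p : ℤ)) * a₀ / 2 * rh n ^ s
      = k * rh n ^ ((s : ℤ) - p) * a₀ * (1 / 2) := by rw [hsp]; ring
    _ ≤ _ := by gcongr

end Pool.Agent.N551.ZE
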