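import Mathlib
import Pool.Agent.N551.ZE.Stm

open Filter Topology Set

namespace Pool.Agent.N551.ZE


namespace LOW2_

/-- harmonic mean lower bound -/
private lemma harm {U a b c x y w : ℝ} (hU : 0 < U) (ha : 0 < a) (hb : 0 < b) (hc : 0 < c)
    (hw : 0 < w)
    (h : 1 / w = (1 / x + 1 / y) / 2) (hx : U * a ≤ x) (hy : U * b ≤ y)
    (hac : 1 / c = (1 / a + 1 / b) / 2) : U * c ≤ w := by
  have h1 : 1 / x ≤ 1 / (U * a) := one_div_le_one_div_of_le (by positivity) hx
  have h2 : 1 / y ≤ 1 / (U * b) := one_div_le_one_div_of_le (by positivity) hy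
  have h3 : 1 / (U * c) = (1 / (U * a) + 1 / (U * b)) / 2 := by
    have e1 : 1 / (U * c) = 1 / U * (1 / c) := by field_simp
    have e2 : 1 / (U * a) = 1 / U * (1 / a) := by field_simp
    have e3 : 1 / (U * b) = 1 / U * (1 / b) := by field_simp
    rw [e1, e2, e3, hac]; ring
  have h4 : 1 / w ≤ 1 / (U * c) := by rw [h, h3]; linarith
  exact (one_div_le_one_div hw (by positivity)).mp h4

private lemma harmD {D d X x w : ℝ} (hD : 0 < D) (hd : D ≤ d) (hX : 0 < X) (hx : X ≤ x)
    (hw : 0 < w)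
    (h : 1 / w = (1 / d + 1 / x) / 2) : 2 * X * (1 - X / D) ≤ w := by
  have h1 : 1 / d ≤ 1 / D := one_div_le_one_div_of_le hD hd
  have h2 : 1 / x ≤ 1 / X := one_div_le_one_div_of_le hX hx
  have h3 : 1 / w ≤ 1 / (2 * X * D / (X + D)) := by
    rw [h]
    have : 1 / (2 * X * D / (X + D)) = (1 / D + 1 / X) / 2 := by field_simp
    rw [this]; linarith
  have h4 : 2 * X * D / (X + D) ≤ w := (one_div_le_one_div hw (by positivity)).mp h3
  refine le_trans ?_ h4
  rw [le_div_iff₀ (by positivity)]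
  have : 2 * X * (1 - X / D) * (X + D) = 2 * X * D - 2 * X ^ 3 / D := by field_simp; ring
  rw [this]
  have : 0 ≤ 2 * X^3 / D := by positivity
  linarith

private lemma Dlow {p q n : ℕ} (hP : Pq p q n) {J m : ℕ → ℤ} (hC : Co p q J m) {w : ℕ → ℝ}
    (hw : Rec p q w) {H : ℝ} (hH : 0 < H)
    (h0 : ∀ t, t < q → (J t = 0 ∨ J t = 1 ∨ J t = p + q - 1) → H * 2 ^ (-(m t)) ≤ w t) :
    ∀ t, (J t = 0 → H * 2 ^ (-(m t)) ≤ w t) ∧ (J t = 1 → H * 2 ^ (-(m t) - 1) ≤ w t) ∧
      (J t = p + q - 1 → H * 2 ^ (-(m t) - p) ≤ w t) := by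
  have hlt := hP.lt
  have hpo := hP.hp
  have hs := hP.sum
  have hn := hP.n3
  intro t
  induction t using Nat.strong_induction_on with
  | _ t ih =>
    by_cases ht : t < q
    · refine ⟨fun h => h0 t ht (Or.inl h), fun h => ?_, fun h => ?_⟩
      · refine le_trans ?_ (h0 t ht (Or.inr (Or.inl h)))
        refine mul_le_mul_of_nonneg_left ?_ hH.le
        exact zpow_le_zpow_right₀ (by norm_num) (by omega)
      · refine le_trans ?_ (h0 t ht (Or.inr (Or.inr h)))
        refine mul_le_mul_of_nonneg_left ?_ hH.le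
        exact zpow_le_zpow_right₀ (by norm_num) (by omega)
    · push Not at ht
      refine ⟨fun h => ?_, fun h => ?_, fun h => ?_⟩
      · have hodd : t % 2 = 1 := (hC.par t).mp (by rw [h]; rfl)
        have hrec := (hw.2 t ht).2 hodd
        obtain ⟨j1, m1⟩ := hC.p0 t (by omega) h
        obtain ⟨j2, m2⟩ := hC.q1 t ht (by omega)
        have e1 := (ih (t-p) (by omega)).2.2 j1
        have e2 := (ih (t-q) (by omega)).2.1 (by rw [j2, h]; rfl)
        rw [m1, show -(m t - (p:ℤ)) - p = -(m t) by ring] at e1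
        rw [m2, show -(m t - 1) - 1 = -(m t) by ring] at e2
        have := harm (U := H * 2 ^ (-(m t))) (a := 1) (b := 1) (c := 1) (by positivity)
          one_pos one_pos one_pos (hw.1 t) hrec (by rw [mul_one]; exact e1)
          (by rw [mul_one]; exact e2) (by norm_num)
        rw [mul_one] at this
        exact this
      · have hev : t % 2 = 0 := by
          have := hC.par t
          by_contra hne
          have h1 : t % 2 = 1 := by omega
          have := this.mpr h1
          omega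
        have hrec := (hw.2 t ht).1 hev
        obtain ⟨j1, m1⟩ := hC.p1 t (by omega) (by omega)
        have e1 := (ih (t-p) (by omega)).1 (by rw [j1, h]; rfl)
        rw [m1] at e1
        have pos := hw.1 (t-q)
        rw [hrec]
        have : H * 2 ^ (-(m t) - 1) = H * 2 ^ (-(m t)) / 2 := by
          rw [zpow_sub₀ (by norm_num), zpow_one]; ring
        rw [this]
        linarith
      · have hev : t % 2 = 0 := by
          have := hC.par t
          by_contra hne
          have h1 : t % 2 = 1 := by omega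
          have := this.mpr h1
          omega
        have hrec := (hw.2 t ht).1 hev
        obtain ⟨j1, m1⟩ := hC.q0 t ht h
        have e1 := (ih (t-q) (by omega)).1 j1
        rw [m1] at e1
        have pos := hw.1 (t-p)
        rw [hrec]
        have : H * 2 ^ (-(m t) - p) = H * 2 ^ (-(m t - 1 + p)) / 2 := by
          rw [show -(m t) - (p:ℤ) = -(m t - 1 + p) - 1 by ring, zpow_sub₀ (by norm_num) _ 1, zpow_one]
          ring
        rw [this]
        linarith

private lemma Apos {n : ℕ} {a : ℤ → ℝ} (hA : Amp n a) (j : ℤ) (h1 : 2 ≤ j) (h2 : j ≤ 2 * n) :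
    0 < a j := by
  obtain ⟨i, rfl⟩ := Int.eq_ofNat_of_zero_le (by omega : 0 ≤ j)
  exact hA.pos i (by omega) (by omega)

private lemma Ahar {n : ℕ} {a : ℤ → ℝ} (hA : Amp n a) (j : ℤ) (h1 : 4 ≤ j) (h2 : j ≤ 2 * n - 2)
    (h3 : j % 2 = 0) : 1 / a j = (1 / a (j - 1) + 1 / a (j + 1)) / 2 := by
  obtain ⟨i, rfl⟩ := Int.eq_ofNat_of_zero_le (by omega : 0 ≤ j)
  exact hA.har i (by omega) (by omega) (by omega)

private lemma Aari {n : ℕ} {a : ℤ → ℝ} (hA : Amp n a) (j : ℤ) (h1 : 3 ≤ j) (h2 : j ≤ 2 * n - 1)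
    (h3 : j % 2 = 1) : rh n * a j = (a (j - 1) + a (j + 1)) / 2 := by
  obtain ⟨i, rfl⟩ := Int.eq_ofNat_of_zero_le (by omega : 0 ≤ j)
  exact hA.ari i (by omega) (by omega) (by omega)

private lemma rh_gt {n : ℕ} (hn : 3 ≤ n) : 1 < rh n := by
  have : (3:ℝ) ≤ n := by exact_mod_cast hn
  unfold rh
  rw [lt_div_iff₀ (by linarith)]
  linarith

private lemma Llow {p q n : ℕ} (hP : Pq p q n) {J m : ℕ → ℤ} {a : ℤ → ℝ} (hC : Co p q J m)
    (hA : Amp n a) {w : ℕ → ℝ} (hw : Rec p q w)
    {k : ℝ} (hk : 0 < k) {g : ℕ → ℝ} (hg0 : ∀ t, 0 ≤ g t) (hg : Monotone g) {D : ℕ → ℝ}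
    (hD : ∀ t, 0 < D t)
    (hJ2 : ∀ t, q ≤ t → J t = 2 → D t ≤ w (t - p))
    (hJN : ∀ t, q ≤ t → J t = 2 * n → D t ≤ w (t - q))
    (he : ∀ t, q ≤ t → 2 ≤ J t → J t ≤ 2 * n → ∀ r < t,
      g r + k * rh n ^ (m t + (J t - 1) / 2) * a (J t) / D t ≤ g t)
    (h0 : ∀ t < q, 2 ≤ J t → J t ≤ 2 * n →
      k * rh n ^ (m t + (J t - 1) / 2) * a (J t) * (1 - g t) ≤ w t) :
    ∀ t, 2 ≤ J t → J t ≤ 2 * n →
      k * rh n ^ (m t + (J t - 1) / 2) * a (J t) * (1 - g t) ≤ w t := by
  have hlt := hP.lt
  have hpo := hP.hp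
  have hs := hP.sum
  have hn := hP.n3
  have hr := rh_gt hn
  have hr0 : 0 < rh n := by linarith
  intro t
  induction t using Nat.strong_induction_on with
  | _ t ih =>
    intro hj2 hjn
    by_cases ht : t < q
    · exact h0 t ht hj2 hjn
    push Not at ht
    by_cases hpos : 1 - g t ≤ 0
    · refine le_trans ?_ (hw.1 t).le
      have h1 := Apos hA (J t) hj2 hjn
      have : 0 ≤ k * rh n ^ (m t + (J t - 1) / 2) * a (J t) := by positivity
      nlinarith
    push Not at hpos
    have hap := Apos hA (J t) hj2 hjn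
    obtain ⟨j1, m1⟩ := hC.p1 t (by omega) (by omega)
    obtain ⟨j2, m2⟩ := hC.q1 t ht (by omega)
    have ih1 := ih (t - p) (by omega)
    have ih2 := ih (t - q) (by omega)
    rw [j1, m1] at ih1
    rw [j2, m2] at ih2
    have g1 : g (t - p) ≤ g t := hg (Nat.sub_le _ _)
    have g2 : g (t - q) ≤ g t := hg (Nat.sub_le _ _)
    rcases Int.emod_two_eq_zero_or_one (J t) with hpar | hpar
    · -- harmonic
      have hodd : t % 2 = 1 := (hC.par t).mp hpar
      have hrec := (hw.2 t ht).2 hodd
      set U := k * rh n ^ (m t + (J t - 1) / 2) with hU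
      have hU0 : 0 < U := by positivity
      rw [show m t + (J t - 1 - 1) / 2 = m t + (J t - 1) / 2 by omega, ← hU] at ih1
      rw [show m t - 1 + (J t + 1 - 1) / 2 = m t + (J t - 1) / 2 by omega, ← hU] at ih2
      by_cases hc2 : J t = 2
      · have e2 := ih2 (by omega) (by omega)
        rw [hc2] at e2
        norm_num at e2
        have hD1 := hJ2 t ht hc2
        have hE := he t ht hj2 hjn (t - q) (by omega)
        rw [← hU, hc2] at hE
        have ha3 := Apos hA 3 (by norm_num) (by omega)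
        have hX0 : 0 < U * a 3 * (1 - g (t - q)) := by
          have : 0 < 1 - g (t - q) := by linarith
          positivity
        have key := harmD (hD t) hD1 hX0 e2 (hw.1 t) hrec
        refine le_trans ?_ key
        rw [hc2, hA.left]
        rw [hA.left] at hE
        have hd := hD t
        have hgq := hg0 (t - q)
        have h5 : U * a 3 * (1 - g (t - q)) / D t ≤ U * (2 * a 3) / D t := by
          apply div_le_div_of_nonneg_right _ hd.le
          nlinarith [mul_pos hU0 ha3]
        have h6 : 0 ≤ U * a 3 * (1 - g (t - q)) / D t := by positivity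
        have h7 : 1 - g t ≤ (1 - g (t - q)) * (1 - U * a 3 * (1 - g (t - q)) / D t) := by
          nlinarith
        calc U * (2 * a 3) * (1 - g t)
            ≤ U * (2 * a 3) * ((1 - g (t - q)) * (1 - U * a 3 * (1 - g (t - q)) / D t)) :=
              mul_le_mul_of_nonneg_left h7 (by positivity)
          _ = _ := by ring
      by_cases hcN : J t = 2 * n
      · have e1 := ih1 (by omega) (by omega)
        rw [hcN] at e1
        have hD1 := hJN t ht hcN
        have hE := he t ht hj2 hjn (t - p) (by omega)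
        rw [← hU, hcN] at hE
        have ha3 := Apos hA (2 * n - 1) (by omega) (by omega)
        have hX0 : 0 < U * a (2 * n - 1) * (1 - g (t - p)) := by
          have : 0 < 1 - g (t - p) := by linarith
          positivity
        have key := harmD (hD t) hD1 hX0 e1 (hw.1 t) (by rw [hrec]; ring)
        refine le_trans ?_ key
        rw [hcN, hA.right]
        rw [hA.right] at hE
        have hd := hD t
        have hgq := hg0 (t - p)
        set b := a (2 * n - 1) with hb
        have h5 : U * b * (1 - g (t - p)) / D t ≤ U * (2 * b) / D t := by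
          apply div_le_div_of_nonneg_right _ hd.le
          nlinarith [mul_pos hU0 ha3]
        have h6 : 0 ≤ U * b * (1 - g (t - p)) / D t := by positivity
        have h7 : 1 - g t ≤ (1 - g (t - p)) * (1 - U * b * (1 - g (t - p)) / D t) := by
          nlinarith
        calc U * (2 * b) * (1 - g t)
            ≤ U * (2 * b) * ((1 - g (t - p)) * (1 - U * b * (1 - g (t - p)) / D t)) :=
              mul_le_mul_of_nonneg_left h7 (by positivity)
          _ = _ := by ring
      · have e1 := ih1 (by omega) (by omega)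
        have e2 := ih2 (by omega) (by omega)
        have p1 := Apos hA (J t - 1) (by omega) (by omega)
        have p2 := Apos hA (J t + 1) (by omega) (by omega)
        have := harm (U := U * (1 - g t)) (by positivity) p1 p2 hap (hw.1 t) hrec
          (le_trans (by nlinarith [mul_pos hU0 p1]) e1)
          (le_trans (by nlinarith [mul_pos hU0 p2]) e2)
          (Ahar hA (J t) (by omega) (by omega) hpar)
        linarith
    · -- arithmetic
      have hev : t % 2 = 0 := by
        have := hC.par t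
        by_contra hne
        have h1 : t % 2 = 1 := by omega
        have := this.mpr h1
        omega
      have hrec := (hw.2 t ht).1 hev
      have e1 := ih1 (by omega) (by omega)
      have e2 := ih2 (by omega) (by omega)
      have p1 := Apos hA (J t - 1) (by omega) (by omega)
      have p2 := Apos hA (J t + 1) (by omega) (by omega)
      set U := k * rh n ^ (m t + (J t - 1) / 2 - 1) with hU
      have hU0 : 0 < U := by positivity
      rw [show m t + (J t - 1 - 1) / 2 = m t + (J t - 1) / 2 - 1 by omega, ← hU] at e1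
      rw [show m t - 1 + (J t + 1 - 1) / 2 = m t + (J t - 1) / 2 - 1 by omega, ← hU] at e2
      have hari := Aari hA (J t) (by omega) (by omega) hpar
      have hUe : k * rh n ^ (m t + (J t - 1) / 2) = U * rh n := by
        rw [hU, zpow_sub₀ hr0.ne', zpow_one]
        field_simp
      rw [hUe, hrec]
      have f1 : U * a (J t - 1) * (1 - g t) ≤ U * a (J t - 1) * (1 - g (t - p)) :=
        mul_le_mul_of_nonneg_left (by linarith) (by positivity)
      have f2 : U * a (J t + 1) * (1 - g t) ≤ U * a (J t + 1) * (1 - g (t - q)) :=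
        mul_le_mul_of_nonneg_left (by linarith) (by positivity)
      calc U * rh n * a (J t) * (1 - g t) = U * (rh n * a (J t)) * (1 - g t) := by ring
        _ = (U * a (J t - 1) * (1 - g t) + U * a (J t + 1) * (1 - g t)) / 2 := by
            rw [hari]; ring
        _ ≤ _ := by linarith

private lemma win {p q : ℕ} {w : ℕ → ℝ} {M A : ℝ} {t₀ : ℕ} (hp : 0 < p) (hpq : p < q)
    (hw : Rec p q w) (hM : Tendsto w atTop (𝓝 M)) (hA : 0 < A) (ht : q ≤ t₀)
    (h : ∀ t, t₀ - q ≤ t → t < t₀ → A ≤ w t) : A ≤ M := by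
  have key : ∀ t, t₀ - q ≤ t → A ≤ w t := by
    intro t
    induction t using Nat.strong_induction_on with
    | _ t ih =>
      intro h1
      by_cases h2 : t < t₀
      · exact h t h1 h2
      push Not at h2
      have e1 := ih (t - p) (by omega) (by omega)
      have e2 := ih (t - q) (by omega) (by omega)
      rcases Nat.mod_two_eq_zero_or_one t with h3 | h3
      · rw [(hw.2 t (by omega)).1 h3]; linarith
      · have := harm (U := A) (a := 1) (b := 1) (c := 1) hA
          one_pos one_pos one_pos (hw.1 t) ((hw.2 t (by omega)).2 h3) (by rw [mul_one]; exact e1)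
          (by rw [mul_one]; exact e2) (by norm_num)
        linarith
  exact ge_of_tendsto hM (eventually_atTop.mpr ⟨t₀ - q, key⟩)

private lemma exMin (v : ℕ → ℝ) (hv : ∀ t, 0 < v t) (q : ℕ) : ∃ v0 : ℝ, 0 < v0 ∧
    ∀ t < q, v0 ≤ v t := by
  induction q with
  | zero => exact ⟨1, one_pos, fun t ht => absurd ht (Nat.not_lt_zero _)⟩
  | succ q ih =>
    obtain ⟨v0, h0, h1⟩ := ih
    refine ⟨min v0 (v q), lt_min h0 (hv q), fun t ht => ?_⟩
    rcases Nat.lt_succ_iff_lt_or_eq.mp ht with h | h
    · exact (min_le_left _ _).trans (h1 t h)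
    · rw [h]; exact min_le_right _ _

end LOW2_

open LOW2_ in
theorem t_LOW2 : S_LOW := by
  intro p q n hP J m a hC hA v hv
  have hlt := hP.lt
  have hpo := hP.hp
  have hs := hP.sum
  have hn := hP.n3
  have hr := rh_gt hn
  have hr0 : 0 < rh n := by linarith
  set ρ := rh n with hρ
  -- θ
  obtain ⟨θ, hθ1, hθN⟩ : ∃ θ : ℝ, 1 < θ ∧ θ ^ (p + q) = 2 * ρ := by
    refine ⟨(2 * ρ) ^ (((p + q : ℕ) : ℝ)⁻¹), ?_, ?_⟩
    · apply Real.one_lt_rpow (by linarith)
      have : 0 < p + q := by omega
      positivity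
    · exact Real.rpow_inv_natCast_pow (by linarith) (by omega)
  obtain ⟨v0, hv0, hv1⟩ := exMin v hv q
  obtain ⟨ja, hja, ha0⟩ := Finset.exists_min_image (Finset.Icc (2:ℤ) (2 * n)) a
    ⟨2, Finset.mem_Icc.mpr ⟨le_refl _, by omega⟩⟩
  obtain ⟨jb, hjb, ha1⟩ := Finset.exists_max_image (Finset.Icc (2:ℤ) (2 * n)) a
    ⟨2, Finset.mem_Icc.mpr ⟨le_refl _, by omega⟩⟩
  rw [Finset.mem_Icc] at hja hjb
  have hapos : 0 < a ja := Apos hA ja hja.1 hja.2
  have hbpos : 0 < a jb := Apos hA jb hjb.1 hjb.2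
  set a0 := a ja
  set a1 := a jb
  have hal : ∀ j : ℤ, 2 ≤ j → j ≤ 2 * n → a0 ≤ a j := fun j h1 h2 =>
    ha0 j (Finset.mem_Icc.mpr ⟨h1, h2⟩)
  have hau : ∀ j : ℤ, 2 ≤ j → j ≤ 2 * n → a j ≤ a1 := fun j h1 h2 =>
    ha1 j (Finset.mem_Icc.mpr ⟨h1, h2⟩)
  -- constants
  set c1 : ℝ := v0 / 2 ^ p with hc1
  have hc1p : 0 < c1 := by positivity
  set A : ℝ := a1 * ρ ^ n * 2 ^ p with hAd
  have hAp : 0 < A := by positivity
  have hθ0 : 0 < θ := by linarith
  have hθm : 0 < θ - 1 := by linarith
  set B : ℝ := A * θ / (θ - 1) with hB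
  have hBp : 0 < B := by positivity
  set k : ℝ := min (v0 / (ρ ^ n * a1)) (c1 / (2 * B * θ ^ (p + q))) with hkd
  have hkp : 0 < k := lt_min (by positivity) (by positivity)
  have hk1 : k * (ρ ^ n * a1) ≤ v0 := by
    rw [← le_div_iff₀ (by positivity)]; exact min_le_left _ _
  have hk2 : k * (2 * B * θ ^ (p + q)) ≤ c1 := by
    rw [← le_div_iff₀ (by positivity)]; exact min_le_right _ _
  -- m bounds
  have hmle : ∀ t : ℕ, ((p:ℤ) + q) * m t ≤ t - 1 := by
    intro t
    have h1 := hC.eq t
    have h2 := mul_nonneg (Int.natCast_nonneg p) (hC.lo t)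
    linarith
  have hmge : ∀ t : ℕ, (t:ℤ) - 1 - p * (p + q - 1) ≤ ((p:ℤ) + q) * m t := by
    intro t
    have h1 := hC.eq t
    have h2 : (p:ℤ) * J t ≤ p * (p + q - 1) :=
      mul_le_mul_of_nonneg_left (by have := hC.hi t; omega) (Int.natCast_nonneg p)
    linarith
  have hmθ : ∀ t : ℕ, (2 * ρ) ^ (m t) ≤ θ ^ t := by
    intro t
    rw [← hθN, ← zpow_natCast θ (p + q), ← zpow_mul, ← zpow_natCast θ t]
    apply zpow_le_zpow_right₀ hθ1.le
    have := hmle t
    push_cast
    linarith
  set c : ℝ := min (k * a0 * ρ ^ (-(p:ℤ)) / 2) (c1 * 2 ^ (-(p:ℤ))) with hc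
  have hcp : 0 < c := lt_min (by positivity) (by positivity)
  refine ⟨c, hcp, ?_⟩
  intro s w M hw hinit hM
  set H : ℝ := c1 * (2 * ρ) ^ s with hH
  have hHp : 0 < H := by positivity
  have hN0 : (0:ℤ) < (p:ℤ) + q := by omega
  -- D
  have hDl := Dlow hP hC hw hHp (by
    intro t ht hJ
    rw [((hinit t ht).1 ((hC.dt t).mpr hJ))]
    have h1 : -(m t) ≤ p := by
      have h2 := hmge t
      by_contra h3
      push Not at h3
      have h4 : m t ≤ -(p:ℤ) - 1 := by omega
      have h5 : ((p:ℤ) + q) * m t ≤ ((p:ℤ) + q) * (-(p:ℤ) - 1) :=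
        mul_le_mul_of_nonneg_left h4 hN0.le
      nlinarith
    have h2 : (2:ℝ) ^ (-(m t)) ≤ 2 ^ p := by
      rw [← zpow_natCast (2:ℝ) p]
      exact zpow_le_zpow_right₀ (by norm_num) h1
    calc H * 2 ^ (-(m t)) ≤ H * 2 ^ p := mul_le_mul_of_nonneg_left h2 hHp.le
      _ = v0 * (2 * ρ) ^ s := by rw [hH, hc1]; field_simp
      _ ≤ v t * (2 * ρ) ^ s := mul_le_mul_of_nonneg_right (hv1 t ht) (by positivity))
  -- combined D bound
  have hDc : ∀ t, (J t = 0 ∨ J t = 1 ∨ J t = p + q - 1) → H * 2 ^ (-(m t) - p) ≤ w t := by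
    intro t hJ
    rcases hJ with h | h | h
    · refine le_trans (mul_le_mul_of_nonneg_left ?_ hHp.le) ((hDl t).1 h)
      exact zpow_le_zpow_right₀ (by norm_num) (by omega)
    · refine le_trans (mul_le_mul_of_nonneg_left ?_ hHp.le) ((hDl t).2.1 h)
      exact zpow_le_zpow_right₀ (by norm_num) (by omega)
    · exact (hDl t).2.2 h
  set G : ℝ := B * k / H with hG
  have hGp : 0 < G := by positivity
  have hLl := Llow hP hC hA hw hkp (g := fun t => G * θ ^ t) (fun t => by positivity)
    (by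
      intro x y hxy
      exact mul_le_mul_of_nonneg_left (pow_le_pow_right₀ hθ1.le hxy) hGp.le)
    (D := fun t => H * 2 ^ (-(m t) - p)) (fun t => by positivity)
    (by
      intro t ht hJ
      obtain ⟨j1, m1⟩ := hC.p1 t (by omega) (by omega)
      have := hDc (t - p) (Or.inr (Or.inl (by rw [j1, hJ]; rfl)))
      rw [m1] at this
      exact this)
    (by
      intro t ht hJ
      obtain ⟨j1, m1⟩ := hC.q1 t ht (by omega)
      have := hDc (t - q) (Or.inr (Or.inr (by rw [j1, hJ]; omega)))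
      rw [m1] at this
      refine le_trans (mul_le_mul_of_nonneg_left ?_ hHp.le) this
      exact zpow_le_zpow_right₀ (by norm_num) (by omega))
    (by
      intro t ht hj2 hjn r hrt
      have h1 : θ ^ r ≤ θ ^ t / θ := by
        rw [le_div_iff₀ hθ0, ← pow_succ]
        exact pow_le_pow_right₀ hθ1.le (by omega)
      have h2 : k * ρ ^ (m t + (J t - 1) / 2) * a (J t) / (H * 2 ^ (-(m t) - (p:ℤ))) ≤
          k / H * A * θ ^ t := by
        have h3 : ρ ^ (m t + (J t - 1) / 2) ≤ ρ ^ (m t + n) :=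
          zpow_le_zpow_right₀ hr.le (by omega)
        have h4 := hau (J t) hj2 hjn
        have h5 := Apos hA (J t) hj2 hjn
        calc k * ρ ^ (m t + (J t - 1) / 2) * a (J t) / (H * 2 ^ (-(m t) - (p:ℤ)))
            ≤ k * ρ ^ (m t + n) * a1 / (H * 2 ^ (-(m t) - (p:ℤ))) := by gcongr
          _ = k / H * A * (2 * ρ) ^ (m t) := by
              rw [hAd, zpow_add₀ hr0.ne', zpow_sub₀ (by norm_num), mul_zpow, zpow_neg,
                zpow_natCast, zpow_natCast]
              field_simp
          _ ≤ k / H * A * θ ^ t := mul_le_mul_of_nonneg_left (hmθ t) (by positivity)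
      have h3 : G * (θ ^ t / θ) + k / H * A * θ ^ t = G * θ ^ t := by
        rw [hG, hB]; field_simp; ring
      have h4 : G * θ ^ r ≤ G * (θ ^ t / θ) := mul_le_mul_of_nonneg_left h1 hGp.le
      linarith)
    (by
      intro t ht hj2 hjn
      have hnd : ¬ Dt p q t := by
        intro h
        rcases (hC.dt t).mp h with h | h | h <;> omega
      rw [(hinit t ht).2 hnd]
      have hm0 : m t ≤ 0 := by
        have h2 := hmle t
        by_contra h3
        push Not at h3
        have h5 : ((p:ℤ) + q) * 1 ≤ ((p:ℤ) + q) * m t :=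
          mul_le_mul_of_nonneg_left (by omega) hN0.le
        have : (t:ℤ) < q := by exact_mod_cast ht
        omega
      have h3 : ρ ^ (m t + (J t - 1) / 2) ≤ ρ ^ n := by
        rw [← zpow_natCast ρ n]
        exact zpow_le_zpow_right₀ hr.le (by omega)
      have h4 := hau (J t) hj2 hjn
      have h5 := Apos hA (J t) hj2 hjn
      have h6 : k * ρ ^ (m t + (J t - 1) / 2) * a (J t) ≤ v0 :=
        calc _ ≤ k * ρ ^ n * a1 := by gcongr
          _ = k * (ρ ^ n * a1) := by ring
          _ ≤ v0 := hk1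
      have h7 : 0 < k * ρ ^ (m t + (J t - 1) / 2) * a (J t) := by positivity
      have h8 : 0 < G * θ ^ t := by positivity
      have h9 := hv1 t ht
      nlinarith)
  -- window
  refine win (p := p) (q := q) (t₀ := (p + q) * s + (p + q)) (by omega) hlt hw hM (by positivity)
    (by nlinarith) ?_
  intro t ht1 ht2
  have hT : t ≤ (p + q) * s + (p + q) := ht2.le
  have hmlo : (s:ℤ) - p ≤ m t := by
    by_contra h3
    push Not at h3
    have h5 : ((p:ℤ) + q) * m t ≤ ((p:ℤ) + q) * (s - p - 1) :=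
      mul_le_mul_of_nonneg_left (by omega) hN0.le
    have h6 := hmge t
    have h7 : (((p + q) * s + p : ℕ) : ℤ) ≤ t := by
      have : (p + q) * s + p ≤ t := by omega
      exact_mod_cast this
    push_cast at h7
    nlinarith
  have hmhi : m t ≤ s := by
    by_contra h3
    push Not at h3
    have h5 : ((p:ℤ) + q) * (s + 1) ≤ ((p:ℤ) + q) * m t :=
      mul_le_mul_of_nonneg_left (by omega) hN0.le
    have h6 := hmle t
    have h7 : (t:ℤ) < (((p + q) * s + (p + q) : ℕ) : ℤ) := by exact_mod_cast ht2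
    push_cast at h7
    nlinarith
  by_cases hJ : 2 ≤ J t ∧ J t ≤ 2 * n
  · have h1 := hLl t hJ.1 hJ.2
    refine le_trans ?_ h1
    have hg : G * θ ^ t ≤ 1 / 2 := by
      have h2 : θ ^ t ≤ (2 * ρ) ^ s * θ ^ (p + q) := by
        rw [← hθN, ← pow_mul, ← pow_add]
        exact pow_le_pow_right₀ hθ1.le hT
      calc G * θ ^ t ≤ G * ((2 * ρ) ^ s * θ ^ (p + q)) := mul_le_mul_of_nonneg_left h2 hGp.le
        _ = k * (2 * B * θ ^ (p + q)) / c1 / 2 := by
            rw [hG, hH]; field_simp
        _ ≤ c1 / c1 / 2 := by gcongr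
        _ = 1 / 2 := by field_simp
    have h3 : ρ ^ ((s:ℤ) - p) ≤ ρ ^ (m t + (J t - 1) / 2) :=
      zpow_le_zpow_right₀ hr.le (by omega)
    have h4 := hal (J t) hJ.1 hJ.2
    calc c * ρ ^ s ≤ (k * a0 * ρ ^ (-(p:ℤ)) / 2) * ρ ^ s :=
          mul_le_mul_of_nonneg_right (min_le_left _ _) (by positivity)
      _ = k * ρ ^ ((s:ℤ) - p) * a0 * (1 / 2) := by
          rw [sub_eq_add_neg, zpow_add₀ hr0.ne', zpow_natCast]; ring
      _ ≤ k * ρ ^ (m t + (J t - 1) / 2) * a (J t) * (1 - G * θ ^ t) := by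
          have h5 := Apos hA (J t) hJ.1 hJ.2
          apply mul_le_mul _ (by linarith) (by norm_num) (by positivity)
          gcongr
  · have h1 : J t = 0 ∨ J t = 1 ∨ J t = p + q - 1 := by
      have := hC.lo t
      have := hC.hi t
      omega
    refine le_trans ?_ (hDc t h1)
    calc c * ρ ^ s ≤ (c1 * 2 ^ (-(p:ℤ))) * ρ ^ s :=
          mul_le_mul_of_nonneg_right (min_le_right _ _) (by positivity)
      _ = H * 2 ^ (-(s:ℤ) - p) := by
          have e1 : (2:ℝ) ^ s * 2 ^ (-(s:ℤ)) = 1 := by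
            rw [zpow_neg, zpow_natCast]; field_simp
          rw [hH, mul_pow, sub_eq_add_neg, zpow_add₀ (by norm_num)]
          calc c1 * 2 ^ (-(p:ℤ)) * ρ ^ s = c1 * 2 ^ (-(p:ℤ)) * ρ ^ s * 1 := by ring
            _ = c1 * 2 ^ (-(p:ℤ)) * ρ ^ s * ((2:ℝ) ^ s * 2 ^ (-(s:ℤ))) := by rw [e1]
            _ = _ := by ring
      _ ≤ H * 2 ^ (-(m t) - p) := by
          apply mul_le_mul_of_nonneg_left _ hHp.le
          exact zpow_le_zpow_right₀ (by norm_num) (by omega)

end Pool.Agent.N551.ZE
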