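import Mathlib
import Pool.Agent.N551.ZE.Stm

/-!
# Project ZE, leaf MEM (helper195): the sequence of means, its limit, and membership in the basin
-/

set_option autoImplicit false

open Filter Topology Set
open Pool.Agent.N420.BS (basin sol)

namespace Pool.Agent.N551.ZE

namespace MEM_

/-- the initial vector -/
noncomputable def ini (N : ℕ) (v : ℕ → ℝ) : Fin N → ℝ :=
  fun i => if (i : ℕ) % 2 = 0 then Real.sqrt 2 * v i else Real.sqrt 2 / v i

theorem ini_pos {N : ℕ} {v : ℕ → ℝ} (hv : ∀ t, 0 < v t) (i : Fin N) : 0 < ini N v i := by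
  have h := hv i
  unfold ini
  split_ifs <;> positivity

theorem main {k l : ℕ} (hp : (k + 1) % 2 = 1) (hq : (l + 1) % 2 = 1) (hlt : k < l)
    (hc : Nat.Coprime (k + 1) (l + 1)) (v : ℕ → ℝ) (hv : ∀ t, 0 < v t) :
    ∃ (w : ℕ → ℝ) (M : ℝ), Rec (k + 1) (l + 1) w ∧ (∀ t, t < l + 1 → w t = v t) ∧ 0 < M ∧
      Tendsto w atTop (𝓝 M) ∧ ∃ x ∈ basin k l, ∀ i : Fin (max k l + 1),
        x i = if (i : ℕ) % 2 = 0 then Real.sqrt 2 * v i / M else Real.sqrt 2 * M / v i := by
  have hmax : max k l = l := max_eq_right hlt.le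
  have s0 : (0 : ℝ) < Real.sqrt 2 := by positivity
  have hpos : ∀ i, 0 < ini (max k l + 1) v i := ini_pos hv
  have h1 : k + 1 = 1 * (k + 1) := (one_mul _).symm
  have h2 : l + 1 = 1 * (l + 1) := (one_mul _).symm
  have hg : 0 < 1 := one_pos
  obtain ⟨M, hM, hlim⟩ := Pool.Agent.N420.BS.wsol_tendsto hg hp hq hc h1 h2 hpos 0
  have hlim' : Tendsto (Pool.Agent.N420.BS.wsol k l 1 (ini (max k l + 1) v)) atTop (𝓝 M) := by
    refine hlim.congr fun j => ?_
    rw [one_mul, add_zero]
  have hw : ∀ t, Pool.Agent.N420.BS.wsol k l 1 (ini (max k l + 1) v) t =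
      if t % 2 = 0 then Pool.Agent.N420.BS.nsol k l (ini (max k l + 1) v) t
      else 1 / Pool.Agent.N420.BS.nsol k l (ini (max k l + 1) v) t := by
    intro t
    unfold Pool.Agent.N420.BS.wsol
    rw [Nat.div_one]
  have hrec := Pool.Agent.N420.BS.nsol_rec (k := k) (l := l) hpos
  refine ⟨Pool.Agent.N420.BS.wsol k l 1 (ini (max k l + 1) v), M,
    ⟨fun t => Pool.Agent.N420.BS.wsol_pos hpos t, fun t ht => ?_⟩, fun t ht => ?_, hM, hlim', ?_⟩
  · have hr := hrec t (by omega) ht
    constructor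
    · intro he
      have o1 : ¬ (t - (k + 1)) % 2 = 0 := by omega
      have o2 : ¬ (t - (l + 1)) % 2 = 0 := by omega
      rw [hw, hw (t - (k + 1)), hw (t - (l + 1)), if_pos he, if_neg o1, if_neg o2]
      exact hr
    · intro ho
      have o0 : ¬ t % 2 = 0 := by omega
      have o1 : (t - (k + 1)) % 2 = 0 := by omega
      have o2 : (t - (l + 1)) % 2 = 0 := by omega
      rw [hw, hw (t - (k + 1)), hw (t - (l + 1)), if_neg o0, if_pos o1, if_pos o2, one_div_one_div]
      exact hr
  · have ht' : t < max k l + 1 := by omega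
    have hvt := (hv t).ne'
    rw [hw]
    unfold Pool.Agent.N420.BS.nsol
    rw [Pool.Agent.N420.BS.sol_init ht']
    unfold ini
    by_cases he : t % 2 = 0
    · rw [if_pos he]
      simp only [he, if_true]
      field_simp
    · rw [if_neg he]
      simp only [he, if_false]
      field_simp
  · have hcp : ∀ i : Fin 1, 0 < (fun _ : Fin 1 => 1 / M) i := fun _ => one_div_pos.2 hM
    refine ⟨Pool.Agent.N420.BS.scale hg (fun _ : Fin 1 => 1 / M) (ini (max k l + 1) v), ⟨fun i =>
      Pool.Agent.N420.BS.scale_pos hg hpos hcp i, ?_⟩, fun i => ?_⟩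
    · rw [Pool.Agent.N420.BS.tendsto_iff_classes hg
        (fun i => Pool.Agent.N420.BS.scale_pos hg hpos hcp i)]
      intro i hi
      have hi0 : i = 0 := by omega
      subst hi0
      have h3 := hlim.mul_const (1 / M)
      rw [mul_one_div_cancel hM.ne'] at h3
      refine h3.congr fun j => ?_
      rw [Pool.Agent.N420.BS.wsol_scale hg hp hq h1 h2 hpos hcp]
    · have hvi := (hv i).ne'
      have hM' := hM.ne'
      unfold Pool.Agent.N420.BS.scale ini
      rw [Nat.div_one]
      by_cases he : (i : ℕ) % 2 = 0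
      · simp only [he, if_true]
        field_simp
      · simp only [he, if_false]
        field_simp

end MEM_

theorem t_MEM : S_MEM := by
  intro p q n hP v hv
  obtain ⟨hp, hq, hlt, hcop, -, -⟩ := hP
  obtain ⟨k, rfl⟩ : ∃ k, p = k + 1 := ⟨p - 1, by omega⟩
  obtain ⟨l, rfl⟩ : ∃ l, q = l + 1 := ⟨q - 1, by omega⟩
  exact MEM_.main hp hq (by omega) hcop v hv

end Pool.Agent.N551.ZE
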