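import Mathlib
import Pool.Agent.N551.ZE.Stm

open Filter Topology Set
open Pool.Agent.N420.BS (basin sol sol_init sol_rec)
open Pool.Agent.N551.ZD (dense_pow tendsto_cls)

namespace Pool.Agent.N551.ZE.PRODG_

noncomputable section

lemma max1 {p q : ℕ} (hp : 0 < p) (hpq : p < q) : max (p - 1) (q - 1) + 1 = q := by
  rw [max_eq_right (by omega)]; omega

lemma max2 {p q g k l : ℕ} (hpq : p < q) (hk : k + 1 = g * p) (hl : l + 1 = g * q) :
    max k l + 1 = g * q := by
  have : g * p ≤ g * q := Nat.mul_le_mul_left _ hpq.le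
  rw [max_eq_right (by omega)]; exact hl

/-- The index `r + g s`. -/
def idx (p q g k l : ℕ) (hp : 0 < p) (hpq : p < q) (hg : 0 < g) (hk : k + 1 = g * p)
    (hl : l + 1 = g * q) : Fin (max k l + 1) ≃ Fin g × Fin (max (p - 1) (q - 1) + 1) where
  toFun i := (⟨i % g, Nat.mod_lt _ hg⟩, ⟨i / g, by
    rw [max1 hp hpq, Nat.div_lt_iff_lt_mul hg]
    have h := i.2.trans_eq (max2 hpq hk hl)
    rwa [mul_comm]⟩)
  invFun x := ⟨x.1 + g * x.2, by
    have h1 := x.1.2
    have h2 := x.2.2.trans_eq (max1 hp hpq)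
    rw [max2 hpq hk hl]
    calc (x.1 : ℕ) + g * x.2 < g + g * x.2 := by omega
      _ = g * (x.2 + 1) := by ring
      _ ≤ g * q := Nat.mul_le_mul_left _ h2⟩
  left_inv i := by
    apply Fin.ext
    exact Nat.mod_add_div i g
  right_inv x := by
    rcases x with ⟨r, s⟩
    apply Prod.ext
    · apply Fin.ext
      simp only
      rw [Nat.add_mul_mod_self_left, Nat.mod_eq_of_lt r.2]
    · apply Fin.ext
      simp only
      rw [Nat.add_mul_div_left _ _ hg, Nat.div_eq_of_lt r.2, zero_add]

theorem sol_class {p q g k l : ℕ} (hp : 0 < p) (hpq : p < q) (hg : 0 < g) (hk : k + 1 = g * p)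
    (hl : l + 1 = g * q) (v : Fin (max k l + 1) → ℝ) (r : Fin g) (t : ℕ) :
    sol k l v (r + g * t) =
      sol (p - 1) (q - 1) (fun s => v ((idx p q g k l hp hpq hg hk hl).symm (r, s))) t := by
  have hr := r.2
  induction t using Nat.strong_induction_on with
  | _ t ih =>
    rcases Nat.lt_or_ge t q with ht | ht
    · have hlt : (r : ℕ) + g * t < max k l + 1 := by
        rw [max2 hpq hk hl]
        calc (r : ℕ) + g * t < g + g * t := by omega
          _ = g * (t + 1) := by ring
          _ ≤ g * q := Nat.mul_le_mul_left _ ht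
      rw [sol_init hlt]
      rw [sol_init (k := p - 1) (l := q - 1) (n := t) (by rw [max1 hp hpq]; exact ht)]
      rfl
    · obtain ⟨e, rfl⟩ : ∃ e, q = p + e := ⟨q - p, by omega⟩
      obtain ⟨t, rfl⟩ : ∃ t', t = t' + (p + e) := ⟨t - (p + e), by omega⟩
      have e0 : g * (t + (p + e)) = g * (t + e) + g * p := by ring
      have e1 : g * (t + (p + e)) = g * t + g * (p + e) := by ring
      rw [sol_rec (k := k) (l := l) (by omega) (by omega)]
      rw [sol_rec (k := p - 1) (l := p + e - 1) (n := t + (p + e)) (by omega) (by omega)]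
      have a1 : (r : ℕ) + g * (t + (p + e)) - (k + 1) = r + g * (t + e) := by omega
      have a2 : (r : ℕ) + g * (t + (p + e)) - (l + 1) = r + g * t := by omega
      have a3 : t + (p + e) - (p - 1 + 1) = t + e := by omega
      have a4 : t + (p + e) - (p + e - 1 + 1) = t := by omega
      rw [a1, a2, a3, a4, ih (t + e) (by omega), ih t (by omega)]

theorem main (p q : ℕ) (hp : 0 < p) (hpq : p < q)
    (hM : ∀ P : MvPolynomial (Fin (max (p - 1) (q - 1) + 1)) ℝ,
      (∀ v ∈ basin (p - 1) (q - 1), MvPolynomial.eval v P = 0) → P = 0)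
    (g k l : ℕ) (hg : 0 < g) (hk : k + 1 = g * p) (hl : l + 1 = g * q)
    (P : MvPolynomial (Fin (max k l + 1)) ℝ)
    (hP : ∀ v ∈ basin k l, MvPolynomial.eval v P = 0) : P = 0 := by
  refine dense_pow (idx p q g k l hp hpq hg hk hl) (basin (p - 1) (q - 1))
    (fun Q hQ => hM Q hQ) P ?_
  intro v hv
  apply hP
  refine ⟨?_, ?_⟩
  · intro i
    have := (hv ((idx p q g k l hp hpq hg hk hl) i).1).1 ((idx p q g k l hp hpq hg hk hl) i).2
    simpa using this
  · refine tendsto_cls hg fun r hr => ?_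
    have := (hv ⟨r, hr⟩).2
    refine this.congr fun t => ?_
    exact (sol_class hp hpq hg hk hl v ⟨r, hr⟩ t).symm

end

end Pool.Agent.N551.ZE.PRODG_

namespace Pool.Agent.N551.ZE

theorem t_PRODG : S_PRODG := fun p q hp hpq hM g k l hg hk hl P hP =>
  PRODG_.main p q hp hpq hM g k l hg hk hl P hP

end Pool.Agent.N551.ZE
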