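import Mathlib
import Pool.Agent.N551.ZE.Stm

/-!
# Project ZE: the basin is not semialgebraic if it is Zariski dense
-/

set_option autoImplicit false

open Filter Topology Set
open Pool.Agent.N420.BS (basin sol scale section_main)

namespace Pool.Agent.N551.ZE

theorem t_SEMI : S_SEMI := by
  intro k l hval hZ
  refine ZD.semi_of hZ ?_
  intro v hv
  obtain ⟨hg, hsec⟩ := section_main k l hval
  obtain ⟨c, -, hc⟩ := hsec v hv.1
  refine ⟨fun t => scale hg (fun _ => t) v, ?_, ?_, ?_⟩
  · rw [continuousAt_pi]
    intro i
    unfold scale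
    split_ifs
    · exact continuousAt_const.mul continuousAt_id
    · exact continuousAt_const.div continuousAt_id one_ne_zero
  · funext i
    change scale hg (fun _ => (1 : ℝ)) v i = v i
    simp only [scale]
    split_ifs <;> simp
  · have hone : (fun _ => (1 : ℝ)) = c := by
      apply hc
      refine ⟨fun _ => one_pos, ?_⟩
      have : scale hg (fun _ => (1 : ℝ)) v = v := by
        funext i
        simp only [scale]
        split_ifs <;> simp
      rw [this]
      exact hv
    have hfr : ∃ᶠ t in 𝓝 (1 : ℝ), 1 < t := frequently_gt_nhds (1 : ℝ)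
    refine hfr.mono fun t ht hmem => ?_
    have ht' : (fun _ => t) = c := hc _ ⟨fun _ => by linarith, hmem⟩
    have h3 : t = 1 := congrFun (ht'.trans hone.symm) ⟨0, hg⟩
    linarith

end Pool.Agent.N551.ZE
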