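import Mathlib
import Pool.Agent.N551.ZE.Stm

/-!
# ZE/UP (helper669, project ZE of helper551): upper bound by a super-solution
-/

set_option autoImplicit false

open Filter Topology Set

namespace Pool.Agent.N551.ZE

namespace UP_

open Filter Topology

theorem rh_gt {n : ℕ} (hn : 3 ≤ n) : 1 < rh n := by
  have h : (3 : ℝ) ≤ n := by exact_mod_cast hn
  unfold rh
  rw [lt_div_iff₀ (by linarith)]
  linarith

theorem bd_ex (g : ℕ → ℝ) (q : ℕ) : ∃ K : ℝ, 0 < K ∧ ∀ t, t < q → g t ≤ K := by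
  refine ⟨1 + ∑ t ∈ Finset.range q, |g t|, ?_, ?_⟩
  · have : 0 ≤ ∑ t ∈ Finset.range q, |g t| := Finset.sum_nonneg fun _ _ => abs_nonneg _
    linarith
  · intro t ht
    have h1 : |g t| ≤ ∑ t ∈ Finset.range q, |g t| :=
      Finset.single_le_sum (f := fun t => |g t|) (fun _ _ => abs_nonneg _) (Finset.mem_range.2 ht)
    have h2 := le_abs_self (g t)
    linarith

/-- the amplitudes with integer indices -/
structure AZ (n : ℕ) (a : ℤ → ℝ) : Prop where
  pos : ∀ j : ℤ, 2 ≤ j → j ≤ 2 * (n : ℤ) → 0 < a j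
  left : a 2 = 2 * a 3
  right : a (2 * (n : ℤ)) = 2 * a (2 * (n : ℤ) - 1)
  har : ∀ j : ℤ, 4 ≤ j → j ≤ 2 * (n : ℤ) - 2 → j % 2 = 0 →
    1 / a j = (1 / a (j - 1) + 1 / a (j + 1)) / 2
  ari : ∀ j : ℤ, 3 ≤ j → j ≤ 2 * (n : ℤ) - 1 → j % 2 = 1 →
    rh n * a j = (a (j - 1) + a (j + 1)) / 2

theorem az {n : ℕ} {a : ℤ → ℝ} (ha : Amp n a) : AZ n a where
  pos := fun j h1 h2 => by
    obtain ⟨k, rfl⟩ := Int.eq_ofNat_of_zero_le (show 0 ≤ j by omega)
    exact ha.pos k (by omega) (by omega)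
  left := ha.left
  right := ha.right
  har := fun j h1 h2 h3 => by
    obtain ⟨k, rfl⟩ := Int.eq_ofNat_of_zero_le (show 0 ≤ j by omega)
    exact ha.har k (by omega) (by omega) (by omega)
  ari := fun j h1 h2 h3 => by
    obtain ⟨k, rfl⟩ := Int.eq_ofNat_of_zero_le (show 0 ≤ j by omega)
    exact ha.ari k (by omega) (by omega) (by omega)

/-- monotonicity of the means -/
theorem step {p q : ℕ} {w : ℕ → ℝ} (hw : Rec p q w) {t : ℕ} (ht : q ≤ t) {x y z : ℝ}
    (hz : 0 < z) (h1 : w (t - p) ≤ x) (h2 : w (t - q) ≤ y)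
    (he : t % 2 = 0 → x + y ≤ 2 * z) (ho : t % 2 = 1 → 2 / z ≤ 1 / x + 1 / y) : w t ≤ z := by
  obtain ⟨hpos, hr⟩ := hw
  obtain ⟨re, ro⟩ := hr t ht
  rcases Nat.mod_two_eq_zero_or_one t with h | h
  · rw [re h]
    have := he h
    linarith
  · have e := ro h
    have h3 := ho h
    have a1 : 1 / x ≤ 1 / w (t - p) := one_div_le_one_div_of_le (hpos _) h1
    have a2 : 1 / y ≤ 1 / w (t - q) := one_div_le_one_div_of_le (hpos _) h2
    have h4 : 1 / z ≤ 1 / w t := by
      rw [e]
      have : 2 / z = 2 * (1 / z) := by ring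
      rw [this] at h3
      linarith
    exact (one_div_le_one_div hz (hpos t)).1 h4

/-- a bound on a window is a bound for the limit -/
theorem win {p q : ℕ} {w : ℕ → ℝ} (hp : 0 < p) (hpq : p < q) (hw : Rec p q w) {M B : ℝ} {t₀ : ℕ}
    (hB : 0 < B) (hM : Tendsto w atTop (𝓝 M)) (h : ∀ t, t₀ ≤ t → t < t₀ + q → w t ≤ B) : M ≤ B := by
  have key : ∀ t, t₀ ≤ t → w t ≤ B := by
    intro t
    induction t using Nat.strong_induction_on with
    | _ t ih =>
      intro ht
      by_cases h1 : t < t₀ + q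
      · exact h t ht h1
      · push Not at h1
        refine step hw (by omega) hB (ih (t - p) (by omega) (by omega))
          (ih (t - q) (by omega) (by omega)) (fun _ => by linarith) (fun _ => ?_)
        apply le_of_eq; ring
  exact le_of_tendsto hM (eventually_atTop.2 ⟨t₀, key⟩)

/-- the super-solution -/
noncomputable def u (p q : ℕ) (J m : ℕ → ℤ) (a : ℤ → ℝ) (K K' H ρ : ℝ) (t : ℕ) : ℝ :=
  if J t = 0 then H * (2 : ℝ) ^ (-m t) + K' * ρ ^ (m t)
  else if J t = 1 then H * (2 : ℝ) ^ (-m t - 1) + K' * ρ ^ (m t)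
  else if J t = p + q - 1 then H * (2 : ℝ) ^ (-m t - p) + K' * ρ ^ (m t + p)
  else K * ρ ^ (m t + (J t - 1) / 2) * a (J t)

section

variable {p q n : ℕ} {J m : ℕ → ℤ} {a : ℤ → ℝ} {K K' H ρ : ℝ}

theorem u0 {t : ℕ} (h : J t = 0) :
    u p q J m a K K' H ρ t = H * (2 : ℝ) ^ (-m t) + K' * ρ ^ (m t) := by
  unfold u; rw [if_pos h]

theorem u1 {t : ℕ} (h : J t = 1) :
    u p q J m a K K' H ρ t = H * (2 : ℝ) ^ (-m t - 1) + K' * ρ ^ (m t) := by
  unfold u; rw [if_neg (by omega), if_pos h]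

theorem uN {t : ℕ} (hpq : 3 ≤ p + q) (h : J t = p + q - 1) :
    u p q J m a K K' H ρ t = H * (2 : ℝ) ^ (-m t - p) + K' * ρ ^ (m t + p) := by
  unfold u; rw [if_neg (by omega), if_neg (by omega), if_pos h]

theorem ug {t : ℕ} (h2 : 2 ≤ J t) (h3 : J t ≤ p + q - 2) :
    u p q J m a K K' H ρ t = K * ρ ^ (m t + (J t - 1) / 2) * a (J t) := by
  unfold u; rw [if_neg (by omega), if_neg (by omega), if_neg (by omega)]

end

theorem main {p q n : ℕ} (hpq : Pq p q n) {J m : ℕ → ℤ} {a : ℤ → ℝ} (hc : Co p q J m)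
    (ha : AZ n a) {K K' H : ℝ} (hK : 0 < K) (hH : 0 < H) (hK1 : K * a 2 ≤ K')
    (hK2 : K * rh n ^ n * a (2 * n) ≤ K') {w : ℕ → ℝ} (hw : Rec p q w)
    (hb : ∀ t, t < q → w t ≤ u p q J m a K K' H (rh n) t) :
    ∀ t, w t ≤ u p q J m a K K' H (rh n) t := by
  have hsum : (p : ℤ) + q = 2 * n + 2 := by exact_mod_cast hpq.sum
  have hn3 := hpq.n3
  have hlt := hpq.lt
  have hρ : 1 < rh n := rh_gt hn3
  obtain ⟨ρ, hρd⟩ : ∃ ρ, ρ = rh n := ⟨_, rfl⟩
  rw [← hρd] at hρ hK2 hb ⊢
  have hρ0 : 0 < ρ := by linarith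
  have ha2 : 0 < a 2 := ha.pos 2 le_rfl (by omega)
  have ha2n : 0 < a (2 * n) := ha.pos _ (by omega) le_rfl
  have hK' : 0 < K' := lt_of_lt_of_le (by positivity) hK1
  have upos : ∀ t, 0 < u p q J m a K K' H ρ t := by
    intro t
    have l1 := hc.lo t
    have l2 := hc.hi t
    by_cases h0 : J t = 0
    · rw [u0 h0]; positivity
    by_cases h1 : J t = 1
    · rw [u1 h1]; positivity
    by_cases h2 : J t = p + q - 1
    · rw [uN (by omega) h2]; positivity
    · rw [ug (by omega) (by omega)]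
      have := ha.pos (J t) (by omega) (by omega)
      positivity
  intro t
  induction t using Nat.strong_induction_on with
  | _ t ih =>
    by_cases htq : t < q
    · exact hb t htq
    push Not at htq
    have hp0 : 0 < p := by have := hpq.hp; omega
    have i1 := ih (t - p) (by omega)
    have i2 := ih (t - q) (by omega)
    have hpt : p ≤ t := by omega
    have l1 := hc.lo t
    have l2 := hc.hi t
    have par := hc.par t
    have P1 := hc.p1 t hpt
    have P0 := hc.p0 t hpt
    have Q1 := hc.q1 t htq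
    have Q0 := hc.q0 t htq
    refine step hw htq (upos t) i1 i2 (fun he => ?_) (fun ho => ?_)
    · -- arithmetic mean, `J` odd
      have hodd : J t % 2 = 1 := by
        rcases Int.emod_two_eq_zero_or_one (J t) with h | h
        · have := par.1 h; omega
        · exact h
      have hJ1 : 1 ≤ J t := by omega
      obtain ⟨A1, A2⟩ := P1 hJ1
      by_cases h1 : J t = 1
      · obtain ⟨B1, B2⟩ := Q1 (by omega)
        have e1 : J (t - p) = 0 := by omega
        have e2 : J (t - q) = 2 := by omega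
        rw [u0 e1, ug (by omega) (by omega), u1 h1, A2, B2, e2]
        have z1 : (2 : ℝ) ^ (-m t) = 2 * (2 : ℝ) ^ (-m t - 1) := by
          rw [zpow_sub₀ two_ne_zero, zpow_one]; ring
        have z2 : m t - 1 + (2 - 1) / 2 = m t - 1 := by norm_num
        rw [z1, z2]
        have z3 : ρ ^ (m t - 1) ≤ ρ ^ (m t) := zpow_le_zpow_right₀ hρ.le (by omega)
        have z4 : 0 < ρ ^ (m t - 1) := by positivity
        have z5 : K * ρ ^ (m t - 1) * a 2 ≤ K' * ρ ^ (m t) := by
          calc K * ρ ^ (m t - 1) * a 2 = (K * a 2) * ρ ^ (m t - 1) := by ring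
            _ ≤ K' * ρ ^ (m t) := mul_le_mul hK1 z3 z4.le hK'.le
        linarith
      by_cases h2 : J t = p + q - 1
      · obtain ⟨B1, B2⟩ := Q0 h2
        have e1 : J (t - p) = 2 * n := by omega
        rw [ug (by omega) (by omega), u0 B1, uN (by omega) h2, A2, B2, e1]
        have z1 : (2 : ℝ) ^ (-(m t - 1 + p)) = 2 * (2 : ℝ) ^ (-m t - p) := by
          have : -(m t - 1 + (p : ℤ)) = 1 + (-m t - p) := by ring
          rw [this, zpow_add₀ two_ne_zero, zpow_one]
        have z2 : m t + (2 * (n : ℤ) - 1) / 2 = (m t - 1) + n := by omega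
        rw [z1, z2, zpow_add₀ hρ0.ne' (m t - 1) n, zpow_natCast]
        have z3 : ρ ^ (m t - 1) ≤ ρ ^ (m t + p) := zpow_le_zpow_right₀ hρ.le (by omega)
        have z3' : ρ ^ (m t - 1 + p) ≤ ρ ^ (m t + p) := zpow_le_zpow_right₀ hρ.le (by omega)
        have z4 : 0 < ρ ^ (m t - 1) := by positivity
        have z5 : K * (ρ ^ (m t - 1) * ρ ^ n) * a (2 * n) ≤ K' * ρ ^ (m t + p) := by
          calc K * (ρ ^ (m t - 1) * ρ ^ n) * a (2 * n) =
              (K * ρ ^ n * a (2 * n)) * ρ ^ (m t - 1) := by ring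
            _ ≤ K' * ρ ^ (m t + p) := mul_le_mul hK2 z3 z4.le hK'.le
        have z6 : K' * ρ ^ (m t - 1 + p) ≤ K' * ρ ^ (m t + p) :=
          mul_le_mul_of_nonneg_left z3' hK'.le
        linarith
      · obtain ⟨B1, B2⟩ := Q1 (by omega)
        rw [ug (by omega) (by omega), ug (by omega) (by omega), ug (by omega) (by omega),
          A2, B2, A1, B1]
        have z1 : m t + (J t - 1 - 1) / 2 = m t + (J t - 1) / 2 - 1 := by omega
        have z2 : m t - 1 + (J t + 1 - 1) / 2 = m t + (J t - 1) / 2 - 1 := by omega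
        rw [z1, z2]
        have h3 := ha.ari (J t) (by omega) (by omega) hodd
        rw [← hρd] at h3
        have z3 : ρ ^ (m t + (J t - 1) / 2) = ρ ^ (m t + (J t - 1) / 2 - 1) * ρ := by
          rw [zpow_sub_one₀ hρ0.ne', mul_assoc, inv_mul_cancel₀ hρ0.ne', mul_one]
        rw [z3]
        apply le_of_eq
        linear_combination (-2 * K * ρ ^ (m t + (J t - 1) / 2 - 1)) * h3
    · -- harmonic mean, `J` even
      have heven : J t % 2 = 0 := par.2 ho
      by_cases h0 : J t = 0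
      · obtain ⟨A1, A2⟩ := P0 h0
        obtain ⟨B1, B2⟩ := Q1 (by omega)
        have e1 : J (t - q) = 1 := by omega
        have y1 := upos (t - q)
        have x1 : u p q J m a K K' H ρ (t - p) = u p q J m a K K' H ρ t := by
          rw [uN (by omega) A1, u0 h0, A2]
          have z1 : -(m t - (p : ℤ)) - p = -m t := by ring
          have z2 : m t - (p : ℤ) + p = m t := by ring
          rw [z1, z2]
        have y2 : u p q J m a K K' H ρ (t - q) ≤ u p q J m a K K' H ρ t := by
          rw [u1 e1, u0 h0, B2]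
          have z1 : -(m t - 1) - 1 = -m t := by ring
          have z3 : ρ ^ (m t - 1) ≤ ρ ^ (m t) := zpow_le_zpow_right₀ hρ.le (by omega)
          rw [z1]
          have := mul_le_mul_of_nonneg_left z3 hK'.le
          linarith
        have y3 := one_div_le_one_div_of_le y1 y2
        rw [x1]
        have : 2 / u p q J m a K K' H ρ t = 1 / u p q J m a K K' H ρ t +
            1 / u p q J m a K K' H ρ t := by ring
        rw [this]
        linarith
      have hJ2 : 2 ≤ J t := by omega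
      obtain ⟨A1, A2⟩ := P1 (by omega)
      obtain ⟨B1, B2⟩ := Q1 (by omega)
      by_cases h2 : J t = 2
      · have x1 := upos (t - p)
        have y1 := upos (t - q)
        have y2 : u p q J m a K K' H ρ t = 2 * u p q J m a K K' H ρ (t - q) := by
          rw [ug (by omega) (by omega), ug (by omega) (by omega), B1, B2, h2]
          have z1 : m t - 1 + (2 + 1 - 1) / 2 = m t := by norm_num
          have z2 : m t + (2 - 1) / 2 = m t := by norm_num
          have z3 : (2 : ℤ) + 1 = 3 := by norm_num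
          rw [z1, z2, z3, ha.left]
          ring
        rw [y2]
        have z4 : 2 / (2 * u p q J m a K K' H ρ (t - q)) = 1 / u p q J m a K K' H ρ (t - q) := by
          field_simp
        rw [z4]
        have := one_div_pos.2 x1
        linarith
      by_cases h3 : J t = 2 * n
      · have x1 := upos (t - p)
        have y1 := upos (t - q)
        have y2 : u p q J m a K K' H ρ t = 2 * u p q J m a K K' H ρ (t - p) := by
          rw [ug (by omega) (by omega), ug (by omega) (by omega), A1, A2, h3]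
          have z1 : m t + (2 * (n : ℤ) - 1 - 1) / 2 = m t + (2 * (n : ℤ) - 1) / 2 := by omega
          rw [z1, ha.right]
          ring
        rw [y2]
        have z4 : 2 / (2 * u p q J m a K K' H ρ (t - p)) = 1 / u p q J m a K K' H ρ (t - p) := by
          field_simp
        rw [z4]
        have := one_div_pos.2 y1
        linarith
      · rw [ug (t := t) (by omega) (by omega), ug (t := t - p) (by omega) (by omega),
          ug (t := t - q) (by omega) (by omega), A2, B2, A1, B1]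
        have z1 : m t + (J t - 1 - 1) / 2 = m t + (J t - 1) / 2 := by omega
        have z2 : m t - 1 + (J t + 1 - 1) / 2 = m t + (J t - 1) / 2 := by omega
        rw [z1, z2]
        have h4 := ha.har (J t) (by omega) (by omega) heven
        have e0 : 0 < ρ ^ (m t + (J t - 1) / 2) := by positivity
        have b0 := ha.pos (J t) (by omega) (by omega)
        have b1 := ha.pos (J t - 1) (by omega) (by omega)
        have b2 := ha.pos (J t + 1) (by omega) (by omega)
        apply le_of_eq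
        have g0 : 2 / (K * ρ ^ (m t + (J t - 1) / 2) * a (J t)) =
            2 / (K * ρ ^ (m t + (J t - 1) / 2)) * (1 / a (J t)) := by field_simp
        have g1 : 1 / (K * ρ ^ (m t + (J t - 1) / 2) * a (J t - 1)) =
            1 / (K * ρ ^ (m t + (J t - 1) / 2)) * (1 / a (J t - 1)) := by field_simp
        have g2 : 1 / (K * ρ ^ (m t + (J t - 1) / 2) * a (J t + 1)) =
            1 / (K * ρ ^ (m t + (J t - 1) / 2)) * (1 / a (J t + 1)) := by field_simp
        rw [g0, g1, g2, h4]
        ring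

end UP_

theorem t_UP : S_UP := by
  intro p q n hpq J m a hc ha' v hv
  have ha := UP_.az ha'
  have hsum : (p : ℤ) + q = 2 * n + 2 := by exact_mod_cast hpq.sum
  have hn3 := hpq.n3
  have hlt := hpq.lt
  have hp0 : 0 < p := by have := hpq.hp; omega
  have hρ : 1 < rh n := UP_.rh_gt hn3
  have hρ0 : 0 < rh n := by linarith
  have ha2 : 0 < a 2 := ha.pos 2 le_rfl (by omega)
  have ha2n : 0 < a (2 * n) := ha.pos _ (by omega) le_rfl
  obtain ⟨K, hK, hKb⟩ := UP_.bd_ex (fun t => v t / (rh n ^ (m t + (J t - 1) / 2) * a (J t))) q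
  obtain ⟨C₁, hC₁, hC₁b⟩ := UP_.bd_ex (fun t => v t * ((2 : ℝ) ^ (m t) + (2 : ℝ) ^ (m t + 1) +
    (2 : ℝ) ^ (m t + p))) q
  obtain ⟨Am, hAm, hAmb⟩ := UP_.bd_ex (fun j => a j) (2 * n + 1)
  obtain ⟨K', hK'⟩ : ∃ K', K' = K * a 2 + K * rh n ^ n * a (2 * n) := ⟨_, rfl⟩
  have hK1 : K * a 2 ≤ K' := by rw [hK']; have : 0 < K * rh n ^ n * a (2 * n) := by positivity
                                linarith
  have hK2 : K * rh n ^ n * a (2 * n) ≤ K' := by
    rw [hK']; have : 0 < K * a 2 := by positivity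
    linarith
  have hK'0 : 0 < K' := by rw [hK']; positivity
  obtain ⟨c1, hc1⟩ : ∃ c1, c1 = K * rh n ^ n * Am := ⟨_, rfl⟩
  obtain ⟨c2, hc2⟩ : ∃ c2, c2 = C₁ * (2 : ℝ) ^ p := ⟨_, rfl⟩
  obtain ⟨c3, hc3⟩ : ∃ c3, c3 = K' * rh n ^ p := ⟨_, rfl⟩
  have q1 : 0 < c1 := by rw [hc1]; positivity
  have q2 : 0 < c2 := by rw [hc2]; positivity
  have q3 : 0 < c3 := by rw [hc3]; positivity
  refine ⟨c1 + c2 + c3, by positivity, ?_⟩
  intro s w M hw hinit hM
  obtain ⟨H, hH⟩ : ∃ H, H = C₁ * (2 * rh n) ^ s := ⟨_, rfl⟩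
  have hH0 : 0 < H := by rw [hH]; positivity
  have hs0 : 0 < (2 * rh n) ^ s := by positivity
  have hb : ∀ t, t < q → w t ≤ UP_.u p q J m a K K' H (rh n) t := by
    intro t ht
    have l1 := hc.lo t
    have l2 := hc.hi t
    obtain ⟨d1, d2⟩ := hinit t ht
    have hCt : v t * ((2 : ℝ) ^ (m t) + (2 : ℝ) ^ (m t + 1) + (2 : ℝ) ^ (m t + p)) ≤ C₁ :=
      hC₁b t ht
    have hvt := hv t
    have e1 : (0 : ℝ) < (2 : ℝ) ^ (m t) := by positivity
    have e2 : (0 : ℝ) < (2 : ℝ) ^ (m t + 1) := by positivity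
    have e3 : (0 : ℝ) < (2 : ℝ) ^ (m t + p) := by positivity
    have gen : ∀ e : ℤ, v t * (2 : ℝ) ^ e ≤ C₁ → v t * (2 * rh n) ^ s ≤ H * (2 : ℝ) ^ (-e) := by
      intro e he
      have f1 : (0 : ℝ) < (2 : ℝ) ^ (-e) := by positivity
      have f2 : (2 : ℝ) ^ e * (2 : ℝ) ^ (-e) = 1 := by
        rw [← zpow_add₀ two_ne_zero, add_neg_cancel, zpow_zero]
      calc v t * (2 * rh n) ^ s = (v t * (2 : ℝ) ^ e) * (2 * rh n) ^ s * (2 : ℝ) ^ (-e) := by
            linear_combination (-(v t * (2 * rh n) ^ s)) * f2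
        _ ≤ C₁ * (2 * rh n) ^ s * (2 : ℝ) ^ (-e) := by gcongr
        _ = H * (2 : ℝ) ^ (-e) := by rw [hH]
    have k1 : v t * (2 : ℝ) ^ (m t) ≤ C₁ := by
      have := mul_pos hvt e2; have := mul_pos hvt e3
      linarith
    have k2 : v t * (2 : ℝ) ^ (m t + 1) ≤ C₁ := by
      have := mul_pos hvt e1; have := mul_pos hvt e3
      linarith
    have k3 : v t * (2 : ℝ) ^ (m t + p) ≤ C₁ := by
      have := mul_pos hvt e1; have := mul_pos hvt e2
      linarith
    by_cases h0 : J t = 0
    · rw [d1 ((hc.dt t).2 (Or.inl h0)), UP_.u0 h0]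
      have g1 := gen _ k1
      have g2 : 0 < K' * rh n ^ (m t) := by positivity
      linarith
    by_cases h1 : J t = 1
    · rw [d1 ((hc.dt t).2 (Or.inr (Or.inl h1))), UP_.u1 h1]
      have g1 := gen _ k2
      have g2 : 0 < K' * rh n ^ (m t) := by positivity
      have g3 : -(m t + 1) = -m t - 1 := by ring
      rw [g3] at g1
      linarith
    by_cases h2 : J t = p + q - 1
    · rw [d1 ((hc.dt t).2 (Or.inr (Or.inr h2))), UP_.uN (by omega) h2]
      have g1 := gen _ k3
      have g2 : 0 < K' * rh n ^ (m t + p) := by positivity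
      have g3 : -(m t + (p : ℤ)) = -m t - p := by ring
      rw [g3] at g1
      linarith
    · have hnD : ¬ Dt p q t := by
        intro h
        rcases (hc.dt t).1 h with h | h | h
        · exact h0 h
        · exact h1 h
        · exact h2 h
      rw [d2 hnD, UP_.ug (by omega) (by omega)]
      have b0 := ha.pos (J t) (by omega) (by omega)
      have hKt : v t / (rh n ^ (m t + (J t - 1) / 2) * a (J t)) ≤ K := hKb t ht
      rw [div_le_iff₀ (by positivity)] at hKt
      linarith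
  have hall := UP_.main hpq hc ha hK hH0 hK1 hK2 hw hb
  have hB : 0 < (c1 + c2 + c3) * rh n ^ s := by positivity
  refine UP_.win hp0 hlt hw (t₀ := (p + q) * s) hB hM ?_
  intro t ht1 ht2
  refine (hall t).trans ?_
  have l1 := hc.lo t
  have l2 := hc.hi t
  have teq := hc.eq t
  have ht1' : ((p : ℤ) + q) * s ≤ t := by exact_mod_cast ht1
  have ht2' : (t : ℤ) < ((p : ℤ) + q) * s + q := by exact_mod_cast ht2
  have hp1 : (1 : ℤ) ≤ p := by exact_mod_cast hp0
  have hq1 : (1 : ℤ) ≤ q := by omega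
  have ms : m t ≤ s := by
    by_contra hcon
    push Not at hcon
    have h5 : ((p : ℤ) + q) * (s + 1) ≤ ((p : ℤ) + q) * m t :=
      mul_le_mul_of_nonneg_left hcon (by omega)
    have h6 : 0 ≤ (p : ℤ) * J t := by positivity
    nlinarith
  have ms2 : (s : ℤ) - p ≤ m t := by
    by_contra hcon
    push Not at hcon
    have h5 : ((p : ℤ) + q) * m t ≤ ((p : ℤ) + q) * (s - p - 1) :=
      mul_le_mul_of_nonneg_left (by omega) (by omega)
    have h6 : (p : ℤ) * J t ≤ p * (p + q - 1) := mul_le_mul_of_nonneg_left (by omega) (by omega)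
    nlinarith
  have hs1 : 0 < rh n ^ s := by positivity
  have r1 : rh n ^ (m t) ≤ rh n ^ s := by
    rw [← zpow_natCast]
    exact zpow_le_zpow_right₀ hρ.le ms
  have r2 : rh n ^ (m t + p) ≤ rh n ^ s * rh n ^ p := by
    rw [← pow_add, ← zpow_natCast]
    exact zpow_le_zpow_right₀ hρ.le (by push_cast; omega)
  have r3 : rh n ^ s ≤ rh n ^ s * rh n ^ p := by
    have : 1 ≤ rh n ^ p := one_le_pow₀ hρ.le
    nlinarith
  have hHe : ∀ e : ℤ, e ≤ (p : ℤ) - s → H * (2 : ℝ) ^ e ≤ c2 * rh n ^ s := by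
    intro e he
    have f1 : (2 : ℝ) ^ e ≤ (2 : ℝ) ^ ((p : ℤ) - s) := zpow_le_zpow_right₀ (by norm_num) he
    calc H * (2 : ℝ) ^ e ≤ H * (2 : ℝ) ^ ((p : ℤ) - s) := mul_le_mul_of_nonneg_left f1 hH0.le
      _ = c2 * rh n ^ s := by
        rw [hH, hc2, zpow_sub₀ two_ne_zero, zpow_natCast, zpow_natCast, mul_pow]
        field_simp
  have k1 : 0 < c1 * rh n ^ s := by positivity
  have k2 : 0 < c2 * rh n ^ s := by positivity
  have k3 : 0 < c3 * rh n ^ s := by positivity
  have goal_eq : (c1 + c2 + c3) * rh n ^ s = c1 * rh n ^ s + c2 * rh n ^ s + c3 * rh n ^ s := by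
    ring
  rw [goal_eq]
  by_cases h0 : J t = 0
  · rw [UP_.u0 h0]
    have g1 := hHe (-m t) (by omega)
    have g2 : K' * rh n ^ (m t) ≤ c3 * rh n ^ s := by
      calc K' * rh n ^ (m t) ≤ K' * (rh n ^ s * rh n ^ p) :=
            mul_le_mul_of_nonneg_left (r1.trans r3) hK'0.le
        _ = c3 * rh n ^ s := by rw [hc3]; ring
    linarith
  by_cases h1 : J t = 1
  · rw [UP_.u1 h1]
    have g1 := hHe (-m t - 1) (by omega)
    have g2 : K' * rh n ^ (m t) ≤ c3 * rh n ^ s := by
      calc K' * rh n ^ (m t) ≤ K' * (rh n ^ s * rh n ^ p) :=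
            mul_le_mul_of_nonneg_left (r1.trans r3) hK'0.le
        _ = c3 * rh n ^ s := by rw [hc3]; ring
    linarith
  by_cases h2 : J t = p + q - 1
  · rw [UP_.uN (by omega) h2]
    have g1 := hHe (-m t - p) (by omega)
    have g2 : K' * rh n ^ (m t + p) ≤ c3 * rh n ^ s := by
      calc K' * rh n ^ (m t + p) ≤ K' * (rh n ^ s * rh n ^ p) :=
            mul_le_mul_of_nonneg_left r2 hK'0.le
        _ = c3 * rh n ^ s := by rw [hc3]; ring
    linarith
  · rw [UP_.ug (by omega) (by omega)]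
    have b0 := ha.pos (J t) (by omega) (by omega)
    have b1 : a (J t) ≤ Am := by
      obtain ⟨j, hj⟩ := Int.eq_ofNat_of_zero_le l1
      have := hAmb j (by omega)
      rw [hj]
      exact this
    have g1 : rh n ^ (m t + (J t - 1) / 2) ≤ rh n ^ s * rh n ^ n := by
      rw [← pow_add, ← zpow_natCast]
      exact zpow_le_zpow_right₀ hρ.le (by push_cast; omega)
    have g2 : K * rh n ^ (m t + (J t - 1) / 2) * a (J t) ≤ K * (rh n ^ s * rh n ^ n) * Am := by
      gcongr
    have g3 : K * (rh n ^ s * rh n ^ n) * Am = c1 * rh n ^ s := by rw [hc1]; ring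
    linarith

end Pool.Agent.N551.ZE
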