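import Mathlib
import Pool.Agent.N551.ZE.Stm
import Pool.Agent.N551.ZE.COORD
import Pool.Agent.N551.ZE.AMP
import Pool.Agent.N551.ZE.UP
import Pool.Agent.N551.ZE.LOW
import Pool.Agent.N551.ZE.DOM
import Pool.Agent.N551.ZE.LAUR
import Pool.Agent.N551.ZE.MEM
import Pool.Agent.N551.ZE.PRODG
import Pool.Agent.N551.ZE.SEMI
import Pool.Agent.N551.ZE.CORE
import Pool.Agent.N551.ZE.FIN

/-!
# Project ZE: assembly
-/

namespace Pool.Agent.N551.ZE

theorem res : S_RES :=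
  final t_COORD t_AMP t_UP t_LOW t_DOM t_LAUR t_MEM t_PRODG t_SEMI t_CORE t_FIN

end Pool.Agent.N551.ZE
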