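import Mathlib
import Pool.Agent.N551.ZE.Stm

/-!
# Project ZE (helper551), part UP, second proof: upper bound by a super-solution
-/

set_option autoImplicit false

open Filter Topology Set

namespace Pool.Agent.N551.ZE

namespace UP2_

theorem rh_gt {n : ℕ} (hn : 3 ≤ n) : 1 < rh n := by
  unfold rh
  have : (3 : ℝ) ≤ n := by exact_mod_cast hn
  rw [lt_div_iff₀ (by linarith)]
  linarith

theorem posZ {n : ℕ} {a : ℤ → ℝ} (ha : Amp n a) (j : ℤ) (h2 : 2 ≤ j) (h : j ≤ 2 * n) :
    0 < a j := by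
  obtain ⟨i, rfl⟩ : ∃ i : ℕ, j = i := ⟨j.toNat, by omega⟩
  exact ha.pos i (by omega) (by omega)

theorem harZ {n : ℕ} {a : ℤ → ℝ} (ha : Amp n a) (j : ℤ) (h2 : 4 ≤ j) (h : j ≤ 2 * n - 2)
    (h3 : j % 2 = 0) : 1 / a j = (1 / a (j - 1) + 1 / a (j + 1)) / 2 := by
  obtain ⟨i, rfl⟩ : ∃ i : ℕ, j = i := ⟨j.toNat, by omega⟩
  exact ha.har i (by omega) (by omega) (by omega)

theorem ariZ {n : ℕ} {a : ℤ → ℝ} (ha : Amp n a) (j : ℤ) (h2 : 3 ≤ j) (h : j ≤ 2 * n - 1)
    (h3 : j % 2 = 1) : rh n * a j = (a (j - 1) + a (j + 1)) / 2 := by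
  obtain ⟨i, rfl⟩ : ∃ i : ℕ, j = i := ⟨j.toNat, by omega⟩
  exact ha.ari i (by omega) (by omega) (by omega)

/-- the super-solution -/
noncomputable def U (p n : ℕ) (a : ℤ → ℝ) (K K' H : ℝ) (j m : ℤ) : ℝ :=
  if j = 0 then H * (2 : ℝ) ^ (-m) + K' * rh n ^ m
  else if j = 1 then H * (2 : ℝ) ^ (-m - 1) + K' * rh n ^ m
  else if j = 2 * n + 1 then H * (2 : ℝ) ^ (-m - p) + K' * rh n ^ (m + p)
  else K * rh n ^ (m + (j - 1) / 2) * a j

section

variable {p n : ℕ} {a : ℤ → ℝ} {K K' H : ℝ}

theorem e0 (m : ℤ) : U p n a K K' H 0 m = H * (2 : ℝ) ^ (-m) + K' * rh n ^ m := by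
  unfold U
  rw [if_pos rfl]

theorem e1 (m : ℤ) : U p n a K K' H 1 m = H * (2 : ℝ) ^ (-m - 1) + K' * rh n ^ m := by
  unfold U
  rw [if_neg (by norm_num), if_pos rfl]

theorem eN (hn : 3 ≤ n) (m : ℤ) : U p n a K K' H (2 * n + 1) m =
    H * (2 : ℝ) ^ (-m - p) + K' * rh n ^ (m + p) := by
  unfold U
  rw [if_neg (by omega), if_neg (by omega), if_pos rfl]

theorem ej (j m : ℤ) (h2 : 2 ≤ j) (h : j ≤ 2 * n) : U p n a K K' H j m =
    K * rh n ^ (m + (j - 1) / 2) * a j := by
  unfold U
  rw [if_neg (by omega), if_neg (by omega), if_neg (by omega)]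

theorem U_pos (hn : 3 ≤ n) (ha : Amp n a) (hK : 0 < K) (hK' : 0 < K') (hH : 0 < H) (j m : ℤ)
    (h0 : 0 ≤ j) (h1 : j ≤ 2 * n + 1) : 0 < U p n a K K' H j m := by
  have hρ : 0 < rh n := by linarith [rh_gt hn]
  rcases eq_or_lt_of_le h0 with h | h
  · rw [← h, e0]
    positivity
  · by_cases h2 : j = 1
    · rw [h2, e1]
      positivity
    · by_cases h3 : j = 2 * n + 1
      · rw [h3, eN hn]
        positivity
      · have := posZ ha j (by omega) (by omega)
        rw [ej j m (by omega) (by omega)]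
        positivity

theorem step_odd (hn : 3 ≤ n) (ha : Amp n a) (hK : 0 < K) (hK' : 0 < K')
    (hA : K * a 2 ≤ K') (hB : K * (rh n ^ n * a (2 * n)) ≤ K') (j m : ℤ) (h0 : 0 ≤ j)
    (h1 : j ≤ 2 * n + 1) (hodd : j % 2 = 1) (X Y : ℝ) (hX : X = U p n a K K' H (j - 1) m)
    (hY : j ≤ 2 * n → Y = U p n a K K' H (j + 1) (m - 1))
    (hY' : j = 2 * n + 1 → Y = U p n a K K' H 0 (m - 1 + p)) :
    (X + Y) / 2 ≤ U p n a K K' H j m := by
  have hρ1 := rh_gt hn
  have hρ : 0 < rh n := by linarith
  by_cases h2 : j = 1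
  · subst h2
    rw [hX, hY (by omega), e1, show (1 : ℤ) - 1 = 0 by norm_num, e0,
      ej (1 + 1) (m - 1) (by norm_num) (by omega), show (1 : ℤ) + 1 = 2 by norm_num,
      show ((2 : ℤ) - 1) / 2 = 0 by norm_num, add_zero]
    have a1 : (2 : ℝ) ^ (-m) = 2 * (2 : ℝ) ^ (-m - 1) := by
      rw [zpow_sub₀ (by norm_num), zpow_one]
      ring
    have a2 : rh n ^ (m - 1) ≤ rh n ^ m := zpow_le_zpow_right₀ hρ1.le (by omega)
    have a3 : 0 < rh n ^ (m - 1) := zpow_pos hρ _
    have a4 : K * rh n ^ (m - 1) * a 2 ≤ K' * rh n ^ m := by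
      calc K * rh n ^ (m - 1) * a 2 = (K * a 2) * rh n ^ (m - 1) := by ring
        _ ≤ K' * rh n ^ (m - 1) := mul_le_mul_of_nonneg_right hA a3.le
        _ ≤ K' * rh n ^ m := mul_le_mul_of_nonneg_left a2 hK'.le
    rw [a1]
    linarith
  by_cases h3 : j = 2 * n + 1
  · rw [hX, hY' h3, h3, show (2 * (n : ℤ) + 1 - 1) = 2 * n by ring,
      ej (2 * n) m (by omega) le_rfl, e0, eN hn,
      show (2 * (n : ℤ) - 1) / 2 = n - 1 by omega]
    have a1 : (2 : ℝ) ^ (-(m - 1 + (p : ℤ))) = 2 * (2 : ℝ) ^ (-m - (p : ℤ)) := by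
      rw [show -(m - 1 + (p : ℤ)) = 1 + (-m - (p : ℤ)) by ring, zpow_add₀ (by norm_num), zpow_one]
    have a2 : rh n ^ (m - 1 + (p : ℤ)) ≤ rh n ^ (m + (p : ℤ)) :=
      zpow_le_zpow_right₀ hρ1.le (by omega)
    have a3 : rh n ^ m ≤ rh n ^ (m + (p : ℤ)) := zpow_le_zpow_right₀ hρ1.le (by omega)
    have a5 : 0 < a (2 * n) := posZ ha _ (by omega) le_rfl
    have a4 : K * rh n ^ (m + ((n : ℤ) - 1)) * a (2 * n) ≤ K' * rh n ^ (m + (p : ℤ)) := by
      have b1 : rh n ^ (m + ((n : ℤ) - 1)) ≤ rh n ^ m * rh n ^ n := by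
        rw [← zpow_natCast, ← zpow_add₀ hρ.ne']
        exact zpow_le_zpow_right₀ hρ1.le (by omega)
      have b2 : 0 < rh n ^ m := zpow_pos hρ _
      calc K * rh n ^ (m + ((n : ℤ) - 1)) * a (2 * n) ≤ K * (rh n ^ m * rh n ^ n) * a (2 * n) := by
            apply mul_le_mul_of_nonneg_right _ a5.le
            exact mul_le_mul_of_nonneg_left b1 hK.le
        _ = rh n ^ m * (K * (rh n ^ n * a (2 * n))) := by ring
        _ ≤ rh n ^ m * K' := mul_le_mul_of_nonneg_left hB b2.le
        _ = K' * rh n ^ m := by ring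
        _ ≤ K' * rh n ^ (m + (p : ℤ)) := mul_le_mul_of_nonneg_left a3 hK'.le
    have a6 := mul_le_mul_of_nonneg_left a2 hK'.le
    rw [a1]
    linarith
  · have h4 : 3 ≤ j := by omega
    have h5 : j ≤ 2 * n - 1 := by omega
    obtain ⟨i, hi⟩ : ∃ i, j = 2 * i + 1 := ⟨j / 2, by omega⟩
    have har := ariZ ha j h4 h5 hodd
    rw [hX, hY (by omega), ej (j - 1) m (by omega) (by omega), ej (j + 1) (m - 1) (by omega)
      (by omega), ej j m (by omega) (by omega), show (j - 1 - 1) / 2 = i - 1 by omega,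
      show (j + 1 - 1) / 2 = i by omega, show (j - 1) / 2 = i by omega,
      show m - 1 + i = m + (i - 1) by ring,
      show m + i = (m + (i - 1)) + 1 by ring, zpow_add_one₀ hρ.ne']
    apply le_of_eq
    calc (K * rh n ^ (m + (i - 1)) * a (j - 1) + K * rh n ^ (m + (i - 1)) * a (j + 1)) / 2 =
        K * rh n ^ (m + (i - 1)) * ((a (j - 1) + a (j + 1)) / 2) := by ring
      _ = K * rh n ^ (m + (i - 1)) * (rh n * a j) := by rw [har]
      _ = K * (rh n ^ (m + (i - 1)) * rh n) * a j := by ring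

theorem step_even (hn : 3 ≤ n) (ha : Amp n a) (hK : 0 < K) (hK' : 0 < K') (hH : 0 < H)
    (j m : ℤ) (h0 : 0 ≤ j) (h1 : j ≤ 2 * n) (hev : j % 2 = 0) (X Y : ℝ)
    (hX : 1 ≤ j → X = U p n a K K' H (j - 1) m)
    (hX' : j = 0 → X = U p n a K K' H (2 * n + 1) (m - p))
    (hY : Y = U p n a K K' H (j + 1) (m - 1)) :
    1 / U p n a K K' H j m ≤ (1 / X + 1 / Y) / 2 := by
  have hρ1 := rh_gt hn
  have hρ : 0 < rh n := by linarith
  by_cases h2 : j = 0
  · rw [hX' h2, hY, h2, zero_add, eN hn, e0, e1, show -(m - (p : ℤ)) - (p : ℤ) = -m by ring,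
      show m - (p : ℤ) + (p : ℤ) = m by ring, show -(m - 1) - 1 = -m by ring]
    have a2 : rh n ^ (m - 1) ≤ rh n ^ m := zpow_le_zpow_right₀ hρ1.le (by omega)
    have a3 : 0 < rh n ^ (m - 1) := zpow_pos hρ _
    have a4 : 0 < (2 : ℝ) ^ (-m) := zpow_pos (by norm_num) _
    have a5 : H * (2 : ℝ) ^ (-m) + K' * rh n ^ (m - 1) ≤ H * (2 : ℝ) ^ (-m) + K' * rh n ^ m := by
      have := mul_le_mul_of_nonneg_left a2 hK'.le
      linarith
    have a6 := one_div_le_one_div_of_le (by positivity :
      0 < H * (2 : ℝ) ^ (-m) + K' * rh n ^ (m - 1)) a5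
    linarith
  have hj2 : 2 ≤ j := by omega
  by_cases h3 : j = 2
  · have hXp : 0 < X := by
      rw [hX (by omega)]
      exact U_pos hn ha hK hK' hH _ _ (by omega) (by omega)
    rw [h3, ej 2 m le_rfl (by omega), ha.left, show ((2 : ℤ) - 1) / 2 = 0 by norm_num, add_zero]
    have hY' : Y = K * rh n ^ m * a 3 := by
      rw [hY, h3, show (2 : ℤ) + 1 = 3 by norm_num, ej 3 (m - 1) (by norm_num) (by omega),
        show ((3 : ℤ) - 1) / 2 = 1 by norm_num, sub_add_cancel]
    have a3 : 0 < a 3 := posZ ha 3 (by norm_num) (by omega)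
    have a4 : 0 < rh n ^ m := zpow_pos hρ _
    have hYp : 0 < Y := by
      rw [hY']
      positivity
    have e : K * rh n ^ m * (2 * a 3) = 2 * Y := by
      rw [hY']
      ring
    rw [e]
    have a5 : 0 < 1 / X := by positivity
    have a6 : 1 / (2 * Y) = (1 / Y) / 2 := by
      field_simp
    rw [a6]
    linarith
  by_cases h4 : j = 2 * n
  · have hYp : 0 < Y := by
      rw [hY]
      exact U_pos hn ha hK hK' hH _ _ (by omega) (by omega)
    rw [h4, ej (2 * n) m (by omega) le_rfl, ha.right, show (2 * (n : ℤ) - 1) / 2 = n - 1 by omega]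
    have hX' : X = K * rh n ^ (m + ((n : ℤ) - 1)) * a (2 * n - 1) := by
      rw [hX (by omega), h4, ej (2 * n - 1) m (by omega) (by omega),
        show (2 * (n : ℤ) - 1 - 1) / 2 = n - 1 by omega]
    have a3 : 0 < a (2 * n - 1) := posZ ha _ (by omega) (by omega)
    have a4 : 0 < rh n ^ (m + ((n : ℤ) - 1)) := zpow_pos hρ _
    have hXp : 0 < X := by
      rw [hX']
      positivity
    have e : K * rh n ^ (m + ((n : ℤ) - 1)) * (2 * a (2 * n - 1)) = 2 * X := by
      rw [hX']
      ring
    rw [e]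
    have a5 : 0 < 1 / Y := by positivity
    have a6 : 1 / (2 * X) = (1 / X) / 2 := by
      field_simp
    rw [a6]
    linarith
  · have h5 : 4 ≤ j := by omega
    have h6 : j ≤ 2 * n - 2 := by omega
    obtain ⟨i, hi⟩ : ∃ i, j = 2 * i := ⟨j / 2, by omega⟩
    have har := harZ ha j h5 h6 hev
    rw [hX (by omega), hY, ej (j - 1) m (by omega) (by omega), ej (j + 1) (m - 1) (by omega)
      (by omega), ej j m (by omega) (by omega), show (j - 1 - 1) / 2 = i - 1 by omega,
      show (j + 1 - 1) / 2 = i by omega, show (j - 1) / 2 = i - 1 by omega,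
      show m - 1 + i = m + (i - 1) by ring]
    have a1 := posZ ha (j - 1) (by omega) (by omega)
    have a2 := posZ ha (j + 1) (by omega) (by omega)
    have a3 := posZ ha j (by omega) (by omega)
    have a4 : 0 < rh n ^ (m + (i - 1)) := zpow_pos hρ _
    apply le_of_eq
    set c := K * rh n ^ (m + (i - 1)) with hc
    have hc0 : 0 < c := by positivity
    have b1 : ∀ z : ℝ, 1 / (c * z) = 1 / c * (1 / z) := fun z => by
      rw [one_div_mul_one_div]
    rw [b1, b1, b1, har]
    ring

end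

/-- the limit is at most the maximum of a window -/
theorem window (p q : ℕ) (w : ℕ → ℝ) (M B : ℝ) (t₀ : ℕ) (hp : 0 < p) (hpq : p < q)
    (hw : Rec p q w) (hM : Tendsto w atTop (𝓝 M)) (hq : q ≤ t₀)
    (hB : ∀ t, t₀ - q ≤ t → t < t₀ → w t ≤ B) : M ≤ B := by
  have key : ∀ t, t₀ - q ≤ t → w t ≤ B := by
    intro t
    induction t using Nat.strong_induction_on with
    | _ t ih =>
      intro ht
      rcases lt_or_ge t t₀ with h | h
      · exact hB t ht h
      · have h1 := ih (t - p) (by omega) (by omega)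
        have h2 := ih (t - q) (by omega) (by omega)
        have p0 := hw.1 t
        have p1 := hw.1 (t - p)
        have p2 := hw.1 (t - q)
        rcases Nat.mod_two_eq_zero_or_one t with h3 | h3
        · rw [(hw.2 t (by omega)).1 h3]
          linarith
        · have h4 := (hw.2 t (by omega)).2 h3
          have hB0 : 0 < B := p1.trans_le h1
          have h5 := one_div_le_one_div_of_le p1 h1
          have h6 := one_div_le_one_div_of_le p2 h2
          have h7 : 1 / B ≤ 1 / w t := by linarith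
          exact (one_div_le_one_div hB0 p0).1 h7
  exact le_of_tendsto hM (eventually_atTop.2 ⟨t₀ - q, fun t ht => key t ht⟩)

end UP2_

open UP2_ in
/-- the part ZE/UP -/
theorem t_UP2 : S_UP := by
  intro p q n hPq J m a hCo ha v hv
  have hn := hPq.n3
  have hsum := hPq.sum
  have hplt := hPq.lt
  have hp0 : 0 < p := by have := hPq.hp; omega
  have hρ1 := rh_gt hn
  have hρ : 0 < rh n := by linarith
  have hJ0 : ∀ t, 0 ≤ J t := hCo.lo
  have hJ1 : ∀ t, J t ≤ 2 * n + 1 := fun t => by
    have := hCo.hi t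
    omega
  -- the constants
  set K : ℝ := 1 + ∑ t ∈ Finset.range q, v t / (rh n ^ (m t + (J t - 1) / 2) * |a (J t)|) with hKd
  have hK : 0 < K := by
    have : 0 ≤ ∑ t ∈ Finset.range q, v t / (rh n ^ (m t + (J t - 1) / 2) * |a (J t)|) :=
      Finset.sum_nonneg fun t _ => by
        have h1 := hv t
        have h2 : 0 < rh n ^ (m t + (J t - 1) / 2) := zpow_pos hρ _
        positivity
    linarith
  have ha2 : 0 < a 2 := posZ ha 2 le_rfl (by omega)
  have haN : 0 < a (2 * n) := posZ ha _ (by omega) le_rfl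
  set K' : ℝ := K * a 2 + K * (rh n ^ n * a (2 * n)) with hK'd
  have hK' : 0 < K' := by positivity
  have hA : K * a 2 ≤ K' := by
    have : 0 < K * (rh n ^ n * a (2 * n)) := by positivity
    linarith
  have hB : K * (rh n ^ n * a (2 * n)) ≤ K' := by
    have : 0 < K * a 2 := by positivity
    linarith
  set C₁ : ℝ := 1 + ∑ t ∈ Finset.range q, v t * (2 : ℝ) ^ (m t + p + 1) with hC₁d
  have hC₁ : 0 < C₁ := by
    have : 0 ≤ ∑ t ∈ Finset.range q, v t * (2 : ℝ) ^ (m t + p + 1) :=
      Finset.sum_nonneg fun t _ => by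
        have h1 := hv t
        positivity
    linarith
  set A : ℝ := ∑ j ∈ Finset.Icc (2 : ℤ) (2 * n), a j with hAd
  have hAj : ∀ j : ℤ, 2 ≤ j → j ≤ 2 * n → a j ≤ A := by
    intro j h1 h2
    exact Finset.single_le_sum (f := a) (fun i hi => by
      rw [Finset.mem_Icc] at hi
      exact (posZ ha i hi.1 hi.2).le) (Finset.mem_Icc.2 ⟨h1, h2⟩)
  have hA0 : 0 < A := ha2.trans_le (hAj 2 le_rfl (by omega))
  refine ⟨C₁ * 2 ^ (p + 1) + K' * rh n ^ (p + 1) + K * rh n ^ (n + 1) * A, by positivity, ?_⟩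
  intro s w M hw hinit hM
  set H : ℝ := C₁ * (2 * rh n) ^ s with hHd
  have hH : 0 < H := by positivity
  -- the upper bound
  have up : ∀ t, w t ≤ U p n a K K' H (J t) (m t) := by
    intro t
    induction t using Nat.strong_induction_on with
    | _ t ih =>
      rcases lt_or_ge t q with h | h
      · by_cases hD : Dt p q t
        · rw [(hinit t h).1 hD]
          have h1 : v t * (2 : ℝ) ^ (m t + p + 1) ≤ C₁ := by
            have := Finset.single_le_sum (f := fun t => v t * (2 : ℝ) ^ (m t + p + 1))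
              (fun i _ => by
                have h1 := hv i
                positivity) (Finset.mem_range.2 h)
            linarith
          have h2 : v t ≤ C₁ * (2 : ℝ) ^ (-(m t) - p - 1) := by
            have h3 := mul_le_mul_of_nonneg_right h1
              (zpow_pos (by norm_num : (0 : ℝ) < 2) (-(m t) - p - 1)).le
            rw [mul_assoc, ← zpow_add₀ (by norm_num : (2 : ℝ) ≠ 0),
              show m t + (p : ℤ) + 1 + (-(m t) - (p : ℤ) - 1) = 0 by ring, zpow_zero, mul_one] at h3
            exact h3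
          have h4 : v t * (2 * rh n) ^ s ≤ H * (2 : ℝ) ^ (-(m t) - p - 1) := by
            calc v t * (2 * rh n) ^ s ≤ (C₁ * (2 : ℝ) ^ (-(m t) - p - 1)) * (2 * rh n) ^ s :=
                  mul_le_mul_of_nonneg_right h2 (by positivity)
              _ = H * (2 : ℝ) ^ (-(m t) - p - 1) := by
                  rw [hHd]
                  ring
          have h6 : 0 < rh n ^ (m t) := zpow_pos hρ _
          have h7 : 0 < rh n ^ (m t + p) := zpow_pos hρ _
          have h8 : 0 < K' * rh n ^ (m t) := by positivity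
          have h9 : 0 < K' * rh n ^ (m t + p) := by positivity
          rcases (hCo.dt t).1 hD with h5 | h5 | h5
          · rw [h5, e0]
            have b1 : (2 : ℝ) ^ (-(m t) - p - 1) ≤ (2 : ℝ) ^ (-(m t)) :=
              zpow_le_zpow_right₀ (by norm_num) (by omega)
            have b2 := mul_le_mul_of_nonneg_left b1 hH.le
            linarith
          · rw [h5, e1]
            have b1 : (2 : ℝ) ^ (-(m t) - p - 1) ≤ (2 : ℝ) ^ (-(m t) - 1) :=
              zpow_le_zpow_right₀ (by norm_num) (by omega)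
            have b2 := mul_le_mul_of_nonneg_left b1 hH.le
            linarith
          · rw [show J t = 2 * n + 1 by omega, eN hn]
            have b1 : (2 : ℝ) ^ (-(m t) - p - 1) ≤ (2 : ℝ) ^ (-(m t) - p) :=
              zpow_le_zpow_right₀ (by norm_num) (by omega)
            have b2 := mul_le_mul_of_nonneg_left b1 hH.le
            linarith
        · rw [(hinit t h).2 hD]
          have h5 : ¬ (J t = 0 ∨ J t = 1 ∨ J t = p + q - 1) := fun h' => hD ((hCo.dt t).2 h')
          have h6 := hJ0 t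
          have h7 := hJ1 t
          have h8 : 2 ≤ J t := by omega
          have h9 : J t ≤ 2 * n := by omega
          rw [ej _ _ h8 h9]
          have b1 := posZ ha _ h8 h9
          have b2 : 0 < rh n ^ (m t + (J t - 1) / 2) := zpow_pos hρ _
          have b3 : v t / (rh n ^ (m t + (J t - 1) / 2) * |a (J t)|) ≤ K := by
            have := Finset.single_le_sum
              (f := fun t => v t / (rh n ^ (m t + (J t - 1) / 2) * |a (J t)|))
              (fun i _ => by
                have h1 := hv i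
                have h2 : 0 < rh n ^ (m i + (J i - 1) / 2) := zpow_pos hρ _
                positivity) (Finset.mem_range.2 h)
            linarith
          rw [abs_of_pos b1, div_le_iff₀ (by positivity)] at b3
          linarith
      · have g1 := ih (t - p) (by omega)
        have g2 := ih (t - q) (by omega)
        have p0 := hw.1 t
        have p1 := hw.1 (t - p)
        have p2 := hw.1 (t - q)
        have h6 := hJ0 t
        have h7 := hJ1 t
        rcases Int.emod_two_eq_zero_or_one (J t) with h3 | h3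
        · -- harmonic mean
          have ht1 : t % 2 = 1 := (hCo.par t).1 h3
          have h4 := (hw.2 t h).2 ht1
          have hJn : J t ≤ 2 * n := by omega
          have g3 : 1 / U p n a K K' H (J t) (m t) ≤ (1 / U p n a K K' H (J (t - p)) (m (t - p)) +
              1 / U p n a K K' H (J (t - q)) (m (t - q))) / 2 := by
            apply step_even hn ha hK hK' hH (J t) (m t) h6 hJn h3
            · intro h8
              rw [(hCo.p1 t (by omega) h8).1, (hCo.p1 t (by omega) h8).2]
            · intro h8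
              rw [(hCo.p0 t (by omega) h8).1, (hCo.p0 t (by omega) h8).2]
              congr 1
              omega
            · rw [(hCo.q1 t h (by omega)).1, (hCo.q1 t h (by omega)).2]
          have g4 := one_div_le_one_div_of_le p1 g1
          have g5 := one_div_le_one_div_of_le p2 g2
          have g6 : 1 / U p n a K K' H (J t) (m t) ≤ 1 / w t := by linarith
          exact (one_div_le_one_div (U_pos hn ha hK hK' hH _ _ h6 h7) p0).1 g6
        · -- arithmetic mean
          have ht1 : t % 2 = 0 := by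
            rcases Nat.mod_two_eq_zero_or_one t with h8 | h8
            · exact h8
            · have := (hCo.par t).2 h8
              omega
          rw [(hw.2 t h).1 ht1]
          have g3 : (U p n a K K' H (J (t - p)) (m (t - p)) +
              U p n a K K' H (J (t - q)) (m (t - q))) / 2 ≤ U p n a K K' H (J t) (m t) := by
            apply step_odd hn ha hK hK' hA hB (J t) (m t) h6 h7 h3
            · rw [(hCo.p1 t (by omega) (by omega)).1, (hCo.p1 t (by omega) (by omega)).2]
            · intro h8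
              rw [(hCo.q1 t h (by omega)).1, (hCo.q1 t h (by omega)).2]
            · intro h8
              rw [(hCo.q0 t h (by omega)).1, (hCo.q0 t h (by omega)).2]
          linarith
  -- the window
  refine window p q w M _ ((p + q) * s + (p + q)) hp0 hplt hw hM (by omega) ?_
  intro t ht1 ht2
  refine (up t).trans ?_
  have hJt0 := hJ0 t
  have hJt1 := hCo.hi t
  have heq := hCo.eq t
  have hN : (0 : ℤ) < p + q := by omega
  have ht1' : ((p : ℤ) + q) * s ≤ t := by
    have : (p + q) * s ≤ t := by omega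
    exact_mod_cast this
  have ht2' : (t : ℤ) < ((p : ℤ) + q) * s + (p + q) := by exact_mod_cast ht2
  have hm1 : m t ≤ s := by
    by_contra hcon
    push Not at hcon
    have h1 : (s : ℤ) + 1 ≤ m t := hcon
    have h2 : ((p : ℤ) + q) * (s + 1) ≤ (p + q) * m t := mul_le_mul_of_nonneg_left h1 hN.le
    have h3 : 0 ≤ (p : ℤ) * J t := by positivity
    nlinarith
  have hm2 : (s : ℤ) - p ≤ m t := by
    by_contra hcon
    push Not at hcon
    have h1 : m t + 1 ≤ (s : ℤ) - p := hcon
    have h2 : ((p : ℤ) + q) * (m t + 1) ≤ (p + q) * (s - p) := mul_le_mul_of_nonneg_left h1 hN.le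
    have h3 : (p : ℤ) * J t ≤ p * (p + q - 1) :=
      mul_le_mul_of_nonneg_left (by omega) (by omega)
    have h4 : (1 : ℤ) ≤ q := by omega
    nlinarith
  have hρs : rh n ^ s = rh n ^ (s : ℤ) := (zpow_natCast _ _).symm
  have t1 : H * (2 : ℝ) ^ (-(m t)) ≤ C₁ * 2 ^ (p + 1) * rh n ^ s := by
    have h1 : (2 : ℝ) ^ (-(m t)) ≤ (2 : ℝ) ^ ((p : ℤ) - s) :=
      zpow_le_zpow_right₀ (by norm_num) (by omega)
    have h2 : (2 : ℝ) ^ s * (2 : ℝ) ^ ((p : ℤ) - s) = 2 ^ p := by
      rw [← zpow_natCast, ← zpow_add₀ (by norm_num), ← zpow_natCast]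
      congr 1
      ring
    calc H * (2 : ℝ) ^ (-(m t)) ≤ H * (2 : ℝ) ^ ((p : ℤ) - s) :=
          mul_le_mul_of_nonneg_left h1 hH.le
      _ = C₁ * rh n ^ s * ((2 : ℝ) ^ s * (2 : ℝ) ^ ((p : ℤ) - s)) := by
          rw [hHd, mul_pow]
          ring
      _ = C₁ * rh n ^ s * 2 ^ p := by rw [h2]
      _ ≤ C₁ * 2 ^ (p + 1) * rh n ^ s := by
          rw [pow_succ]
          have : 0 < C₁ * rh n ^ s * 2 ^ p := by positivity
          linarith
  have t2 : ∀ e : ℤ, e ≤ s + (p + 1) → K' * rh n ^ e ≤ K' * rh n ^ (p + 1) * rh n ^ s := by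
    intro e he
    rw [mul_assoc]
    apply mul_le_mul_of_nonneg_left _ hK'.le
    rw [← zpow_natCast, ← zpow_natCast, ← zpow_add₀ hρ.ne']
    apply zpow_le_zpow_right₀ hρ1.le
    push_cast
    omega
  have t3 : 0 < K * rh n ^ (n + 1) * A * rh n ^ s := by positivity
  have t4 : 0 < K' * rh n ^ (p + 1) * rh n ^ s := by positivity
  have t5 : 0 < C₁ * 2 ^ (p + 1) * rh n ^ s := by positivity
  have hexp : (C₁ * 2 ^ (p + 1) + K' * rh n ^ (p + 1) + K * rh n ^ (n + 1) * A) * rh n ^ s =
      C₁ * 2 ^ (p + 1) * rh n ^ s + K' * rh n ^ (p + 1) * rh n ^ s +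
        K * rh n ^ (n + 1) * A * rh n ^ s := by ring
  rw [hexp]
  by_cases c0 : J t = 0
  · rw [c0, e0]
    have := t2 (m t) (by omega)
    linarith
  by_cases c1 : J t = 1
  · rw [c1, e1]
    have h1 := t2 (m t) (by omega)
    have h2 : (2 : ℝ) ^ (-(m t) - 1) ≤ (2 : ℝ) ^ (-(m t)) :=
      zpow_le_zpow_right₀ (by norm_num) (by omega)
    have h3 := mul_le_mul_of_nonneg_left h2 hH.le
    linarith
  by_cases c2 : J t = 2 * n + 1
  · rw [c2, eN hn]
    have h1 := t2 (m t + p) (by omega)
    have h2 : (2 : ℝ) ^ (-(m t) - p) ≤ (2 : ℝ) ^ (-(m t)) :=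
      zpow_le_zpow_right₀ (by norm_num) (by omega)
    have h3 := mul_le_mul_of_nonneg_left h2 hH.le
    linarith
  · have h8 : 2 ≤ J t := by omega
    have h9 : J t ≤ 2 * n := by
      have := hJ1 t
      omega
    rw [ej _ _ h8 h9]
    have h10 : rh n ^ (m t + (J t - 1) / 2) ≤ rh n ^ (n + 1) * rh n ^ s := by
      rw [← zpow_natCast, ← zpow_natCast, ← zpow_add₀ hρ.ne']
      apply zpow_le_zpow_right₀ hρ1.le
      push_cast
      omega
    have h11 : K * rh n ^ (m t + (J t - 1) / 2) * a (J t) ≤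
        K * (rh n ^ (n + 1) * rh n ^ s) * A :=
      mul_le_mul (mul_le_mul_of_nonneg_left h10 hK.le) (hAj _ h8 h9) (posZ ha _ h8 h9).le
        (by positivity)
    have h12 : K * (rh n ^ (n + 1) * rh n ^ s) * A = K * rh n ^ (n + 1) * A * rh n ^ s := by ring
    linarith

end Pool.Agent.N551.ZE
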