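import Mathlib
import Pool.Agent.N551.ZE.Stm

/-!
# Project ZE, WIN: the window lemma (helper562)
-/

set_option autoImplicit false

open Filter Topology

namespace Pool.Agent.N551.ZE

namespace WIN_

theorem bounds (p q : ℕ) (w : ℕ → ℝ) (A B : ℝ) (t₀ : ℕ) (hp : 0 < p) (hpq : p < q)
    (hw : Rec p q w) (hA : 0 < A) (ht₀ : q ≤ t₀)
    (h : ∀ t, t₀ - q ≤ t → t < t₀ → A ≤ w t ∧ w t ≤ B) :
    ∀ t, t₀ - q ≤ t → A ≤ w t ∧ w t ≤ B := by
  intro t
  induction t using Nat.strong_induction_on with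
  | _ t ih =>
    intro ht
    by_cases h1 : t < t₀
    · exact h t ht h1
    · have hqt : q ≤ t := by omega
      obtain ⟨a1, a2⟩ := ih (t - p) (by omega) (by omega)
      obtain ⟨b1, b2⟩ := ih (t - q) (by omega) (by omega)
      obtain ⟨e1, e2⟩ := hw.2 t hqt
      rcases Nat.mod_two_eq_zero_or_one t with h2 | h2
      · rw [e1 h2]
        constructor <;> linarith
      · have e3 := e2 h2
        have hx := hw.1 (t - p)
        have hy := hw.1 (t - q)
        have hz := hw.1 t
        have hB : 0 < B := lt_of_lt_of_le hx a2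
        have c1 : 1 / w (t - p) ≤ 1 / A := one_div_le_one_div_of_le hA a1
        have c2 : 1 / w (t - q) ≤ 1 / A := one_div_le_one_div_of_le hA b1
        have c3 : 1 / B ≤ 1 / w (t - p) := one_div_le_one_div_of_le hx a2
        have c4 : 1 / B ≤ 1 / w (t - q) := one_div_le_one_div_of_le hy b2
        constructor
        · exact (one_div_le_one_div hz hA).1 (by rw [e3]; linarith)
        · exact (one_div_le_one_div hB hz).1 (by rw [e3]; linarith)

end WIN_

theorem t_WIN : S_WIN := by
  intro p q w M A B t₀ hp hpq hw hM hA ht₀ h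
  have h1 := WIN_.bounds p q w A B t₀ hp hpq hw hA ht₀ h
  have h2 : ∀ᶠ t in atTop, A ≤ w t ∧ w t ≤ B :=
    eventually_atTop.2 ⟨t₀ - q, fun t ht => h1 t ht⟩
  exact ⟨ge_of_tendsto hM (h2.mono fun t ht => ht.1), le_of_tendsto hM (h2.mono fun t ht => ht.2)⟩

end Pool.Agent.N551.ZE
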